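import Pool.Agent.PEPS953.Family

/-!
# The equivalences
-/

open Finset
open scoped InnerProductSpace

set_option autoImplicit false
set_option linter.unusedSectionVars false

namespace Pool.Agent.PEPS953

variable {d r : ℕ}

/-- (Q1) polynomial accuracy. -/
def PolyAcc (Ψ : ∀ (L : ℕ) [NeZero L], Hil d L) : Prop :=
  ∀ c : ℝ, 0 < c → ∃ (k : ℕ) (C : ℝ) (L₀ : ℕ), ∀ (L : ℕ) [NeZero L], L₀ ≤ L →
    ∃ (D : ℕ) (Φ : Hil d L), IsPEPS D Φ ∧ (D : ℝ) ≤ Real.exp (C * (Real.log L) ^ k) ∧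
      ‖Φ - Ψ L‖ ≤ (L : ℝ) ^ (-c)

/-- quasi-polynomially small error. -/
def QuasiAcc (Ψ : ∀ (L : ℕ) [NeZero L], Hil d L) : Prop :=
  ∀ a : ℕ, ∃ (k : ℕ) (C : ℝ) (L₀ : ℕ), ∀ (L : ℕ) [NeZero L], L₀ ≤ L →
    ∃ (D : ℕ) (Φ : Hil d L), IsPEPS D Φ ∧ (D : ℝ) ≤ Real.exp (C * (Real.log L) ^ k) ∧
      ‖Φ - Ψ L‖ ≤ Real.exp (-(Real.log L) ^ a)

/-- quasi-polynomially small overlap. -/
def QuasiOverlap (Ψ : ∀ (L : ℕ) [NeZero L], Hil d L) : Prop :=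
  ∃ (k : ℕ) (C : ℝ) (L₀ : ℕ), ∀ (L : ℕ) [NeZero L], L₀ ≤ L →
    ∃ (D : ℕ) (Φ : Hil d L), IsPEPS D Φ ∧ (D : ℝ) ≤ Real.exp (C * (Real.log L) ^ k) ∧
      Φ ≠ 0 ∧ Real.exp (-(C * (Real.log L) ^ k)) * ‖Φ‖ ≤ ‖⟪Ψ L, Φ⟫_ℂ‖

/-- energy below the first excited level by a quasi-polynomially small margin. -/
def QuasiEnergy (h : Matrix (LConf d r) (LConf d r) ℂ) (E : ℕ → ℝ) (Δ : ℝ) : Prop :=
  ∃ (k : ℕ) (C : ℝ) (L₀ : ℕ), ∀ (L : ℕ) [NeZero L], L₀ ≤ L →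
    ∃ (D : ℕ) (Φ : Hil d L), IsPEPS D Φ ∧ (D : ℝ) ≤ Real.exp (C * (Real.log L) ^ k) ∧
      Φ ≠ 0 ∧ (⟪Φ, ham L h Φ⟫_ℂ).re ≤
        (E L + Δ * (1 - Real.exp (-(C * (Real.log L) ^ k)))) * ‖Φ‖ ^ 2

/-- box marginals correct up to `κ / L²`. -/
def Marginals (h : Matrix (LConf d r) (LConf d r) ℂ) (Δ : ℝ)
    (Ψ : ∀ (L : ℕ) [NeZero L], Hil d L) : Prop :=
  ∃ κ : ℝ, κ * entNorm h < Δ ∧ ∃ (k : ℕ) (C : ℝ) (L₀ : ℕ), ∀ (L : ℕ) [NeZero L], L₀ ≤ L →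
    ∃ (D : ℕ) (Φ : Hil d L), IsPEPS D Φ ∧ (D : ℝ) ≤ Real.exp (C * (Real.log L) ^ k) ∧
      ‖Φ‖ = 1 ∧ ∀ (v : Site L) (a b : LConf d r),
        ‖⟪Φ, elem v a b Φ⟫_ℂ - ⟪Ψ L, elem v a b (Ψ L)⟫_ℂ‖ ≤ κ / (L : ℝ) ^ 2

lemma polyAcc_of_quasiAcc {Ψ : ∀ (L : ℕ) [NeZero L], Hil d L} (H : QuasiAcc Ψ) : PolyAcc Ψ := by
  intro c hc
  obtain ⟨k, C, L₀, hL₀⟩ := H 2
  refine ⟨k, C, max L₀ (max 3 ⌈Real.exp c⌉₊), fun L _ hL => ?_⟩
  obtain ⟨D, Φ, h1, h2, h3⟩ := hL₀ L (le_trans (le_max_left _ _) hL)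
  refine ⟨D, Φ, h1, h2, h3.trans ?_⟩
  have hL3 : 3 ≤ L := le_trans ((le_max_left _ _).trans (le_max_right _ _)) hL
  have hLc : Real.exp c ≤ L :=
    (Nat.le_ceil _).trans (by exact_mod_cast le_trans ((le_max_right _ _).trans (le_max_right _ _)) hL)
  have hL0 : (0 : ℝ) < L := by positivity
  have hlog : c ≤ Real.log L := by rwa [Real.le_log_iff_exp_le hL0]
  have h4 := one_le_log hL3
  rw [Real.rpow_def_of_pos hL0]
  refine Real.exp_le_exp.mpr ?_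
  nlinarith

lemma quasiOverlap_of_polyAcc {Ψ : ∀ (L : ℕ) [NeZero L], Hil d L}
    (hΨ : ∃ L₁ : ℕ, ∀ (L : ℕ) [NeZero L], L₁ ≤ L → ‖Ψ L‖ = 1) (H : PolyAcc Ψ) :
    QuasiOverlap Ψ := by
  obtain ⟨L₁, hL₁⟩ := hΨ
  obtain ⟨k, C, L₀, hL₀⟩ := H 1 one_pos
  refine ⟨k, max C 1, max L₀ (max 4 L₁), fun L _ hL => ?_⟩
  obtain ⟨D, Φ, h1, h2, h3⟩ := hL₀ L (le_trans (le_max_left _ _) hL)
  have hL4 : 4 ≤ L := le_trans ((le_max_left _ _).trans (le_max_right _ _)) hL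
  have hΨ1 := hL₁ L (le_trans ((le_max_right _ _).trans (le_max_right _ _)) hL)
  have hL4' : (4 : ℝ) ≤ L := by exact_mod_cast hL4
  have h4 : ‖Φ - Ψ L‖ ≤ 1 / 4 := by
    refine h3.trans ?_
    rw [Real.rpow_neg (by positivity), Real.rpow_one]
    rw [one_div]
    exact inv_anti₀ (by norm_num) hL4'
  have hC1 : (0 : ℝ) ≤ max C 1 := le_trans zero_le_one (le_max_right _ _)
  have hself : ⟪Ψ L, Ψ L⟫_ℂ = 1 := by rw [inner_self_eq_norm_sq_to_K, hΨ1]; simp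
  have h5 : 3 / 4 ≤ ‖⟪Ψ L, Φ⟫_ℂ‖ := by
    have e1 : ⟪Ψ L, Φ⟫_ℂ = 1 + ⟪Ψ L, Φ - Ψ L⟫_ℂ := by rw [inner_sub_right, hself]; ring
    have e2 : ‖⟪Ψ L, Φ - Ψ L⟫_ℂ‖ ≤ 1 / 4 := by
      refine (norm_inner_le_norm _ _).trans ?_
      rw [hΨ1, one_mul]; exact h4
    have e3 : (1 : ℝ) ≤ ‖⟪Ψ L, Φ⟫_ℂ‖ + ‖⟪Ψ L, Φ - Ψ L⟫_ℂ‖ := by
      have : (1 : ℂ) = ⟪Ψ L, Φ⟫_ℂ - ⟪Ψ L, Φ - Ψ L⟫_ℂ := by rw [e1]; ring
      calc (1 : ℝ) = ‖(1 : ℂ)‖ := by simp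
        _ = ‖⟪Ψ L, Φ⟫_ℂ - ⟪Ψ L, Φ - Ψ L⟫_ℂ‖ := by rw [← this]
        _ ≤ _ := norm_sub_le _ _
    linarith
  have h6 : ‖Φ‖ ≤ 5 / 4 := by
    calc ‖Φ‖ = ‖(Φ - Ψ L) + Ψ L‖ := by rw [sub_add_cancel]
      _ ≤ ‖Φ - Ψ L‖ + ‖Ψ L‖ := norm_add_le _ _
      _ ≤ 5 / 4 := by rw [hΨ1]; linarith
  refine ⟨D, Φ, h1, h2.trans (Real.exp_le_exp.mpr (qp_mono hC1 (le_max_left _ _) le_rfl
    (by omega))), ?_, ?_⟩
  · rintro rfl
    rw [inner_zero_right, norm_zero] at h5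
    linarith
  · have h7 := one_le_log (L := L) (by omega)
    have h8 : (1 : ℝ) ≤ max C 1 * (Real.log L) ^ k := by
      calc (1 : ℝ) = 1 * 1 := by ring
        _ ≤ max C 1 * (Real.log L) ^ k :=
          mul_le_mul (le_max_right _ _) (one_le_pow₀ h7) zero_le_one hC1
    have h9 : Real.exp (-(max C 1 * (Real.log L) ^ k)) ≤ 1 / 2 := by
      calc Real.exp (-(max C 1 * (Real.log L) ^ k)) ≤ Real.exp (-1) :=
            Real.exp_le_exp.mpr (by linarith)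
        _ ≤ 1 / 2 := by
            rw [Real.exp_neg, one_div]
            refine inv_anti₀ (by norm_num) ?_
            have := Real.add_one_le_exp (1 : ℝ)
            linarith
    calc Real.exp (-(max C 1 * (Real.log L) ^ k)) * ‖Φ‖ ≤ 1 / 2 * (5 / 4) :=
          mul_le_mul h9 h6 (norm_nonneg _) (by norm_num)
      _ ≤ ‖⟪Ψ L, Φ⟫_ℂ‖ := by linarith

lemma quasiAcc_of_quasiOverlap (hr : 0 < r) {h : Matrix (LConf d r) (LConf d r) ℂ}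
    (hh : h.IsHermitian) {Δ : ℝ} (hΔ : 0 < Δ) {E : ℕ → ℝ} {Ψ : ∀ (L : ℕ) [NeZero L], Hil d L}
    (hgs : ∃ L₁ : ℕ, ∀ (L : ℕ) [NeZero L], L₁ ≤ L → IsGappedGS (ham L h) (E L) Δ (Ψ L))
    (H : QuasiOverlap Ψ) : QuasiAcc Ψ := by
  obtain ⟨L₁, hL₁⟩ := hgs
  obtain ⟨k, C, L₀, hL₀⟩ := H
  obtain ⟨K, hK0, hK⟩ := amplify hr hh hΔ
  intro a
  set m := max (max k a) 1 with hm
  have hkm : k ≤ m := (le_max_left _ _).trans (le_max_left _ _)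
  have ham' : a ≤ m := (le_max_right _ _).trans (le_max_left _ _)
  have h1m : 1 ≤ m := le_max_right _ _
  set C' : ℝ := max C 0 with hC'
  have hC'0 : 0 ≤ C' := le_max_right _ _
  refine ⟨2 * m, C' + K * (2 + C') ^ 2, max L₀ (max 3 (max L₁ r)), fun L _ hL => ?_⟩
  have hLL₀ : L₀ ≤ L := le_trans (le_max_left _ _) hL
  have hL3 : 3 ≤ L := le_trans ((le_max_left _ _).trans (le_max_right _ _)) hL
  have hLL₁ : L₁ ≤ L :=
    le_trans ((le_max_left _ _).trans ((le_max_right _ _).trans (le_max_right _ _))) hL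
  have hrL : r ≤ L :=
    le_trans ((le_max_right _ _).trans ((le_max_right _ _).trans (le_max_right _ _))) hL
  obtain ⟨D, Φ, h1, h2, h3, h4⟩ := hL₀ L hLL₀
  have hlog := one_le_log hL3
  have hlog0 : 0 ≤ Real.log L := by linarith
  set x : ℝ := C' * (Real.log L) ^ k with hx
  have hx0 : 0 ≤ x := by positivity
  have hCx : C * (Real.log L) ^ k ≤ x := mul_le_mul_of_nonneg_right (le_max_left _ _) (by positivity)
  have hy0 : 0 ≤ (Real.log L) ^ a := by positivity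
  obtain ⟨D', Φ', g1, g2, g3⟩ := hK L hrL (by omega) (E L) (Ψ L) (hL₁ L hLL₁) D Φ h1 h3
    (Real.exp (-x)) (Real.exp (-(Real.log L) ^ a)) (Real.exp_pos _)
    (by rw [Real.exp_le_one_iff]; linarith) (Real.exp_pos _)
    (by rw [Real.exp_le_one_iff]; linarith)
    (le_trans (mul_le_mul_of_nonneg_right (Real.exp_le_exp.mpr (by linarith)) (norm_nonneg _)) h4)
  refine ⟨D', Φ', g1, g2.trans ?_, g3⟩
  have hL0 : (0 : ℝ) < L := by positivity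
  have e1 : Real.log (L / (Real.exp (-x) * Real.exp (-(Real.log L) ^ a))) =
      Real.log L + x + (Real.log L) ^ a := by
    rw [← Real.exp_add, Real.log_div hL0.ne' (Real.exp_pos _).ne', Real.log_exp]; ring
  rw [e1]
  have e2 : Real.log L + x + (Real.log L) ^ a ≤ (2 + C') * (Real.log L) ^ m := by
    have f1 : Real.log L ≤ (Real.log L) ^ m := le_self_pow₀ hlog (by omega)
    have f2 : (Real.log L) ^ a ≤ (Real.log L) ^ m := pow_le_pow_right₀ hlog ham'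
    have f3 : x ≤ C' * (Real.log L) ^ m :=
      mul_le_mul_of_nonneg_left (pow_le_pow_right₀ hlog hkm) hC'0
    linarith
  have e3 : (Real.log L + x + (Real.log L) ^ a) ^ 2 ≤ ((2 + C') * (Real.log L) ^ m) ^ 2 :=
    pow_le_pow_left₀ (by positivity) e2 2
  have e4 : (D : ℝ) ≤ Real.exp (C' * (Real.log L) ^ (2 * m)) := by
    refine h2.trans (Real.exp_le_exp.mpr ?_)
    exact qp_mono hC'0 (le_max_left _ _) (by omega) hL3
  calc (D : ℝ) * Real.exp (K * (Real.log L + x + (Real.log L) ^ a) ^ 2)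
      ≤ Real.exp (C' * (Real.log L) ^ (2 * m)) *
          Real.exp (K * ((2 + C') * (Real.log L) ^ m) ^ 2) := by
        refine mul_le_mul e4 (Real.exp_le_exp.mpr (mul_le_mul_of_nonneg_left e3 hK0))
          (Real.exp_pos _).le (Real.exp_pos _).le
    _ = Real.exp ((C' + K * (2 + C') ^ 2) * (Real.log L) ^ (2 * m)) := by
        rw [← Real.exp_add]; congr 1; ring

lemma quasiOverlap_of_quasiEnergy {h : Matrix (LConf d r) (LConf d r) ℂ}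
    (hh : h.IsHermitian) {Δ : ℝ} (hΔ : 0 < Δ) {E : ℕ → ℝ} {Ψ : ∀ (L : ℕ) [NeZero L], Hil d L}
    (hgs : ∃ L₁ : ℕ, ∀ (L : ℕ) [NeZero L], L₁ ≤ L → IsGappedGS (ham L h) (E L) Δ (Ψ L))
    (H : QuasiEnergy h E Δ) : QuasiOverlap Ψ := by
  obtain ⟨L₁, hL₁⟩ := hgs
  obtain ⟨k, C, L₀, hL₀⟩ := H
  refine ⟨k, max C 0, max L₀ (max 3 L₁), fun L _ hL => ?_⟩
  have hLL₀ : L₀ ≤ L := le_trans (le_max_left _ _) hL
  have hL3 : 3 ≤ L := le_trans ((le_max_left _ _).trans (le_max_right _ _)) hL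
  have hLL₁ : L₁ ≤ L := le_trans ((le_max_right _ _).trans (le_max_right _ _)) hL
  obtain ⟨D, Φ, h1, h2, h3, h4⟩ := hL₀ L hLL₀
  have hlog := one_le_log hL3
  have hmono := qp_mono (C := C) (C' := max C 0) (k := k) (k' := k) (L := L) (le_max_right _ _)
    (le_max_left _ _) le_rfl hL3
  refine ⟨D, Φ, h1, h2.trans (Real.exp_le_exp.mpr hmono), h3, ?_⟩
  have h5 := (hL₁ L hLL₁).energy_ge (ham_isSymmetric hh) Φ
  set x := Real.exp (-(C * (Real.log L) ^ k)) with hx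
  set x' := Real.exp (-(max C 0 * (Real.log L) ^ k)) with hx'
  have hxx : x' ≤ x := Real.exp_le_exp.mpr (by linarith)
  have hx'0 : 0 < x' := Real.exp_pos _
  have hx'1 : x' ≤ 1 := by
    rw [hx', Real.exp_le_one_iff]
    have : 0 ≤ max C 0 * (Real.log L) ^ k := mul_nonneg (le_max_right _ _) (by positivity)
    linarith
  have h6 : Δ * (x * ‖Φ‖ ^ 2) ≤ Δ * ‖⟪Ψ L, Φ⟫_ℂ‖ ^ 2 := by nlinarith [h5, h4]
  have h7 : x * ‖Φ‖ ^ 2 ≤ ‖⟪Ψ L, Φ⟫_ℂ‖ ^ 2 := le_of_mul_le_mul_left h6 hΔ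
  refine le_of_sq_le_sq ?_ (norm_nonneg _)
  refine le_trans ?_ h7
  rw [mul_pow]
  refine mul_le_mul_of_nonneg_right ?_ (by positivity)
  calc x' ^ 2 = x' * x' := pow_two _
    _ ≤ 1 * x' := mul_le_mul_of_nonneg_right hx'1 hx'0.le
    _ ≤ x := by rw [one_mul]; exact hxx

lemma quasiEnergy_of_marginals {h : Matrix (LConf d r) (LConf d r) ℂ}
    {Δ : ℝ} (hΔ : 0 < Δ) {E : ℕ → ℝ} {Ψ : ∀ (L : ℕ) [NeZero L], Hil d L}
    (hgs : ∃ L₁ : ℕ, ∀ (L : ℕ) [NeZero L], L₁ ≤ L → IsGappedGS (ham L h) (E L) Δ (Ψ L))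
    (H : Marginals h Δ Ψ) : QuasiEnergy h E Δ := by
  obtain ⟨L₁, hL₁⟩ := hgs
  obtain ⟨κ, hκ, k, C, L₀, hL₀⟩ := H
  set y : ℝ := 1 - κ * entNorm h / Δ with hy
  have hy0 : 0 < y := by
    rw [hy, sub_pos, div_lt_one hΔ]; exact hκ
  refine ⟨k + 1, max C 1, max L₀ (max 3 (max L₁ ⌈1 / y⌉₊)), fun L _ hL => ?_⟩
  have hLL₀ : L₀ ≤ L := le_trans (le_max_left _ _) hL
  have hL3 : 3 ≤ L := le_trans ((le_max_left _ _).trans (le_max_right _ _)) hL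
  have hLL₁ : L₁ ≤ L :=
    le_trans ((le_max_left _ _).trans ((le_max_right _ _).trans (le_max_right _ _))) hL
  have hLy : 1 / y ≤ L := (Nat.le_ceil _).trans (by
    exact_mod_cast
      le_trans ((le_max_right _ _).trans ((le_max_right _ _).trans (le_max_right _ _))) hL)
  obtain ⟨D, Φ, h1, h2, h3, h4⟩ := hL₀ L hLL₀
  have hlog := one_le_log hL3
  have hC1 : (0 : ℝ) ≤ max C 1 := le_trans zero_le_one (le_max_right _ _)
  refine ⟨D, Φ, h1, h2.trans (Real.exp_le_exp.mpr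
    (qp_mono hC1 (le_max_left _ _) (Nat.le_succ k) hL3)), ?_, ?_⟩
  · rw [← norm_ne_zero_iff, h3]; norm_num
  · refine (energy_le_of_marginals (hL₁ L hLL₁) Φ κ h4).trans ?_
    rw [h3, one_pow, mul_one]
    have e1 : Real.exp (-(max C 1 * (Real.log L) ^ (k + 1))) ≤ y := by
      have hL0 : (0 : ℝ) < L := by positivity
      have f1 : Real.log L ≤ max C 1 * (Real.log L) ^ (k + 1) := by
        calc Real.log L = 1 * Real.log L := by ring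
          _ ≤ max C 1 * (Real.log L) ^ (k + 1) :=
            mul_le_mul (le_max_right _ _) (le_self_pow₀ hlog (by omega)) (by linarith) hC1
      calc Real.exp (-(max C 1 * (Real.log L) ^ (k + 1))) ≤ Real.exp (-Real.log L) :=
            Real.exp_le_exp.mpr (by linarith)
        _ = (L : ℝ)⁻¹ := by rw [Real.exp_neg, Real.exp_log hL0]
        _ ≤ y := by
            rw [inv_le_comm₀ hL0 hy0, ← one_div]; exact hLy
    have e2 : κ * entNorm h = Δ * (1 - y) := by rw [hy]; field_simp; ring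
    rw [e2]
    have := mul_le_mul_of_nonneg_left (sub_le_sub_left e1 1) hΔ.le
    linarith

lemma marginals_of_quasiAcc {h : Matrix (LConf d r) (LConf d r) ℂ}
    {Δ : ℝ} (hΔ : 0 < Δ) {Ψ : ∀ (L : ℕ) [NeZero L], Hil d L}
    (hΨ : ∃ L₁ : ℕ, ∀ (L : ℕ) [NeZero L], L₁ ≤ L → ‖Ψ L‖ = 1)
    (H : QuasiAcc Ψ) : Marginals h Δ Ψ := by
  obtain ⟨L₁, hL₁⟩ := hΨ
  obtain ⟨k, C, L₀, hL₀⟩ := H 2
  have hJ := entNorm_nonneg h
  set κ : ℝ := Δ / (2 * (entNorm h + 1)) with hκ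
  have hκ0 : 0 < κ := by positivity
  refine ⟨κ, ?_, k, C, max L₀ (max ⌈Real.exp 3⌉₊ (max L₁ (max r ⌈8 / κ⌉₊))), fun L _ hL => ?_⟩
  · rw [hκ, div_mul_eq_mul_div, div_lt_iff₀ (by positivity)]
    nlinarith
  have hLL₀ : L₀ ≤ L := le_trans (le_max_left _ _) hL
  have hLe : Real.exp 3 ≤ L := (Nat.le_ceil _).trans (by
    exact_mod_cast le_trans ((le_max_left _ _).trans (le_max_right _ _)) hL)
  have hLL₁ : L₁ ≤ L :=
    le_trans ((le_max_left _ _).trans ((le_max_right _ _).trans (le_max_right _ _))) hL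
  have hrL : r ≤ L := le_trans ((le_max_left _ _).trans ((le_max_right _ _).trans
    ((le_max_right _ _).trans (le_max_right _ _)))) hL
  have hLκ : 8 / κ ≤ L := (Nat.le_ceil _).trans (by
    exact_mod_cast le_trans ((le_max_right _ _).trans ((le_max_right _ _).trans
    ((le_max_right _ _).trans (le_max_right _ _)))) hL)
  obtain ⟨D, Φ, h1, h2, h3⟩ := hL₀ L hLL₀
  have hΨ1 := hL₁ L hLL₁
  have hL0 : (0 : ℝ) < L := lt_of_lt_of_le (Real.exp_pos 3) hLe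
  have hlog3 : 3 ≤ Real.log L := by rwa [Real.le_log_iff_exp_le hL0]
  have hL1 : (1 : ℝ) ≤ L := by
    have := Real.add_one_le_exp (3 : ℝ)
    linarith
  -- the error is at most `L^{-3}`
  have h4 : ‖Φ - Ψ L‖ ≤ 1 / (L : ℝ) ^ 3 := by
    refine h3.trans ?_
    calc Real.exp (-(Real.log L) ^ 2) ≤ Real.exp (-(3 * Real.log L)) :=
          Real.exp_le_exp.mpr (by nlinarith)
      _ = 1 / (L : ℝ) ^ 3 := by
          rw [Real.exp_neg, show (3 : ℝ) * Real.log L = ((3 : ℕ) : ℝ) * Real.log L by norm_num,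
            Real.exp_nat_mul, Real.exp_log hL0, one_div]
  have hL4 : (4 : ℝ) ≤ L := by
    have := Real.add_one_le_exp (3 : ℝ)
    linarith
  have h5 : 1 / (L : ℝ) ^ 3 ≤ 1 / 4 := by
    refine one_div_le_one_div_of_le (by norm_num) ?_
    calc (4 : ℝ) ≤ L := hL4
      _ ≤ (L : ℝ) ^ 3 := le_self_pow₀ hL1 (by norm_num)
  set e := ‖Φ - Ψ L‖ with he
  have he0 : 0 ≤ e := norm_nonneg _
  have h6 : |‖Φ‖ - 1| ≤ e := by
    rw [← hΨ1]; exact abs_norm_sub_norm_le _ _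
  have h6' := abs_le.mp h6
  have hΦ0 : 0 < ‖Φ‖ := by linarith [h6'.1]
  set Φ' : Hil d L := ((‖Φ‖⁻¹ : ℝ) : ℂ) • Φ with hΦ'
  have hΦ'1 : ‖Φ'‖ = 1 := by
    rw [hΦ', norm_smul, Complex.norm_real, norm_inv, norm_norm, inv_mul_cancel₀ hΦ0.ne']
  have h7 : ‖Φ' - Ψ L‖ ≤ 2 * e := by
    have e1 : Φ' - Ψ L = (((‖Φ‖⁻¹ - 1 : ℝ) : ℂ)) • Φ + (Φ - Ψ L) := by
      rw [hΦ']; push_cast; rw [sub_smul, one_smul]; abel
    rw [e1]
    refine (norm_add_le _ _).trans ?_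
    rw [norm_smul, Complex.norm_real, Real.norm_eq_abs]
    have e2 : |‖Φ‖⁻¹ - 1| * ‖Φ‖ = |1 - ‖Φ‖| := by
      rw [← abs_of_pos hΦ0, ← abs_mul, abs_of_pos hΦ0, sub_mul, inv_mul_cancel₀ hΦ0.ne', one_mul]
    rw [e2, abs_sub_comm]
    linarith
  refine ⟨D, Φ', h1.smul _, h2, hΦ'1, fun v a b => ?_⟩
  have e1 : ⟪Φ', elem v a b Φ'⟫_ℂ - ⟪Ψ L, elem v a b (Ψ L)⟫_ℂ =
      ⟪Φ' - Ψ L, elem v a b Φ'⟫_ℂ + ⟪Ψ L, elem v a b (Φ' - Ψ L)⟫_ℂ := by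
    rw [inner_sub_left, map_sub, inner_sub_right]; ring
  rw [e1]
  refine (norm_add_le _ _).trans ?_
  have e2 : ‖⟪Φ' - Ψ L, elem v a b Φ'⟫_ℂ‖ ≤ 2 * e := by
    refine (norm_inner_le_norm _ _).trans ?_
    calc ‖Φ' - Ψ L‖ * ‖elem v a b Φ'‖ ≤ ‖Φ' - Ψ L‖ * 1 :=
          mul_le_mul_of_nonneg_left ((norm_elem_le' hrL v a b _).trans hΦ'1.le) (norm_nonneg _)
      _ ≤ 2 * e := by rw [mul_one]; exact h7
  have e3 : ‖⟪Ψ L, elem v a b (Φ' - Ψ L)⟫_ℂ‖ ≤ 2 * e := by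
    refine (norm_inner_le_norm _ _).trans ?_
    rw [hΨ1, one_mul]
    exact (norm_elem_le' hrL v a b _).trans h7
  have e4 : 4 * (1 / (L : ℝ) ^ 3) ≤ κ / (L : ℝ) ^ 2 := by
    rw [mul_one_div, div_le_div_iff₀ (by positivity) (by positivity)]
    have : 8 ≤ κ * L := by
      rw [div_le_iff₀ hκ0] at hLκ; linarith
    nlinarith [sq_nonneg (L : ℝ), mul_le_mul_of_nonneg_right this (sq_nonneg (L : ℝ))]
  linarith

/-- **The equivalences for a gapped family.** -/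
theorem tfae_family (hr : 0 < r) {h : Matrix (LConf d r) (LConf d r) ℂ}
    (hh : h.IsHermitian) {Δ : ℝ} (hΔ : 0 < Δ) (E : ℕ → ℝ) (Ψ : ∀ (L : ℕ) [NeZero L], Hil d L)
    (hgs : ∃ L₁ : ℕ, ∀ (L : ℕ) [NeZero L], L₁ ≤ L → IsGappedGS (ham L h) (E L) Δ (Ψ L)) :
    List.TFAE [PolyAcc Ψ, QuasiAcc Ψ, QuasiOverlap Ψ, QuasiEnergy h E Δ, Marginals h Δ Ψ] := by
  have hΨ : ∃ L₁ : ℕ, ∀ (L : ℕ) [NeZero L], L₁ ≤ L → ‖Ψ L‖ = 1 := by
    obtain ⟨L₁, hL₁⟩ := hgs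
    exact ⟨L₁, fun L _ hL => (hL₁ L hL).norm_eq⟩
  tfae_have 2 → 1 := polyAcc_of_quasiAcc
  tfae_have 1 → 3 := quasiOverlap_of_polyAcc hΨ
  tfae_have 3 → 2 := quasiAcc_of_quasiOverlap hr hh hΔ hgs
  tfae_have 2 → 5 := marginals_of_quasiAcc hΔ hΨ
  tfae_have 5 → 4 := quasiEnergy_of_marginals hΔ hgs
  tfae_have 4 → 3 := quasiOverlap_of_quasiEnergy hh hΔ hgs
  tfae_finish

end Pool.Agent.PEPS953
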