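import Mathlib

/-!
# Plain definitions used in the statement
-/

set_option autoImplicit false

namespace Pool.Agent.PEPS953.Plain

/-- Sites of the `L × L` torus. -/
abbrev Site (L : ℕ) : Type := ZMod L × ZMod L

/-- Basis configurations of `(ℂ^d)^{⊗ torus}`. -/
abbrev Conf (d L : ℕ) : Type := Site L → Fin d

/-- Vectors of `H_L`, given by their coefficients. -/
abbrev Vec (d L : ℕ) : Type := Conf d L → ℂ

/-- The `r × r` box on which the interaction acts. -/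
abbrev Box (r : ℕ) : Type := Fin r × Fin r

/-- Basis configurations of the box. -/
abbrev LConf (d r : ℕ) : Type := Box r → Fin d

/-- The inner product of `H_L`. -/
noncomputable def ip {d L : ℕ} [NeZero L] (x y : Vec d L) : ℂ := ∑ s, star (x s) * y s

/-- The Hilbert space norm of `H_L`. -/
noncomputable def nrm {d L : ℕ} [NeZero L] (x : Vec d L) : ℝ := Real.sqrt (∑ s, ‖x s‖ ^ 2)

/-- The site `v + p`, for `p` in the box. -/
def boxPos (L r : ℕ) (v : Site L) (p : Box r) : Site L := (v.1 + (p.1 : ℕ), v.2 + (p.2 : ℕ))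

open scoped Classical in
/-- The local operator with matrix `o`, acting on the translate by `v` of the box. -/
noncomputable def translate {d r : ℕ} (L : ℕ) (o : Matrix (LConf d r) (LConf d r) ℂ) (v : Site L) :
    Matrix (Conf d L) (Conf d L) ℂ := fun s s' =>
  if ∀ u, u ∉ Set.range (boxPos L r v) → s u = s' u then
    o (fun p => s (boxPos L r v p)) (fun p => s' (boxPos L r v p)) else 0

/-- The Hamiltonian `H_L`, the sum of all translates of `h`. -/
noncomputable def ham {d r : ℕ} (L : ℕ) [NeZero L] (h : Matrix (LConf d r) (LConf d r) ℂ) :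
    Matrix (Conf d L) (Conf d L) ℂ := ∑ v : Site L, translate L h v

/-- The entry `(b, a)` of the reduced density matrix of `x` on the box at `v`: the expectation in
`x` of the matrix unit `|a⟩⟨b|` on that box. -/
noncomputable def marg {d r : ℕ} {L : ℕ} [NeZero L] (x : Vec d L) (v : Site L) (a b : LConf d r) :
    ℂ := ip x ((translate L (Matrix.single a b 1) v).mulVec x)

/-- Sum of the absolute values of the entries. -/
noncomputable def entNorm {d r : ℕ} (h : Matrix (LConf d r) (LConf d r) ℂ) : ℝ :=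
  ∑ p : LConf d r × LConf d r, ‖h p.1 p.2‖

/-- `Ψ` is the unique ground state of `H`, a unit vector with energy `E`, and every other
eigenvalue of `H` is at least `E + Δ`. -/
def IsGapped {d L : ℕ} [NeZero L] (H : Matrix (Conf d L) (Conf d L) ℂ) (E Δ : ℝ) (Ψ : Vec d L) :
    Prop :=
  nrm Ψ = 1 ∧ H.mulVec Ψ = (E : ℂ) • Ψ ∧ ∀ (E' : ℝ) (φ : Vec d L), φ ≠ 0 →
    H.mulVec φ = (E' : ℂ) • φ → (E' = E ∧ ∃ c : ℂ, φ = c • Ψ) ∨ E + Δ ≤ E'

/-- `ψ` is a PEPS of bond dimension `D`: `a u` is the virtual index on the edge from `u` to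
`u + (1, 0)`, and `b u` the one on the edge from `u` to `u + (0, 1)`. -/
def IsPEPS {d L : ℕ} [NeZero L] (D : ℕ) (ψ : Vec d L) : Prop :=
  ∃ A : Site L → Fin d → Fin D → Fin D → Fin D → Fin D → ℂ,
    ∀ s : Conf d L, ψ s = ∑ a : Site L → Fin D, ∑ b : Site L → Fin D,
      ∏ u : Site L, A u (s u) (a u) (b u) (a (u.1 - 1, u.2)) (b (u.1, u.2 - 1))

/-- `R` is a PEPO of bond dimension `D`: a PEPS with two physical indices per site. -/
def IsPEPO {d L : ℕ} [NeZero L] (D : ℕ) (R : Matrix (Conf d L) (Conf d L) ℂ) : Prop :=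
  ∃ A : Site L → Fin d → Fin d → Fin D → Fin D → Fin D → Fin D → ℂ,
    ∀ s s' : Conf d L, R s s' = ∑ a : Site L → Fin D, ∑ b : Site L → Fin D,
      ∏ u : Site L, A u (s u) (s' u) (a u) (b u) (a (u.1 - 1, u.2)) (b (u.1, u.2 - 1))

/-- For suitable `k`, `C` and all large `L`, some PEPS `Φ` whose bond dimension is at most
`exp (C (log L) ^ k)` has the property `P L Φ x`, where `x = exp (- C (log L) ^ k)`. -/
def QuasiPEPS {d : ℕ} (P : ∀ (L : ℕ) [NeZero L], Vec d L → ℝ → Prop) : Prop :=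
  ∃ (k : ℕ) (C : ℝ) (L₀ : ℕ), ∀ (L : ℕ) [NeZero L], L₀ ≤ L →
    ∃ (D : ℕ) (Φ : Vec d L), IsPEPS D Φ ∧ (D : ℝ) ≤ Real.exp (C * (Real.log L) ^ k) ∧
      P L Φ (Real.exp (-(C * (Real.log L) ^ k)))

/-- The conclusion of Q1: polynomial accuracy. -/
def PolyAcc {d : ℕ} (Ψ : ∀ (L : ℕ) [NeZero L], Vec d L) : Prop :=
  ∀ c : ℝ, 0 < c → QuasiPEPS fun L _ Φ _ => nrm (Φ - Ψ L) ≤ (L : ℝ) ^ (-c)

/-- Quasi-polynomially small error. -/
def QuasiAcc {d : ℕ} (Ψ : ∀ (L : ℕ) [NeZero L], Vec d L) : Prop :=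
  ∀ a : ℕ, QuasiPEPS fun L _ Φ _ => nrm (Φ - Ψ L) ≤ Real.exp (-(Real.log L) ^ a)

/-- Quasi-polynomially small overlap. -/
def QuasiOverlap {d : ℕ} (Ψ : ∀ (L : ℕ) [NeZero L], Vec d L) : Prop :=
  QuasiPEPS fun L _ Φ x => Φ ≠ 0 ∧ x * nrm Φ ≤ ‖ip (Ψ L) Φ‖

/-- Energy below the first excited level by a quasi-polynomially small margin. -/
def QuasiEnergy {d r : ℕ} (h : Matrix (LConf d r) (LConf d r) ℂ) (E : ℕ → ℝ) (Δ : ℝ) : Prop :=
  QuasiPEPS fun L _ Φ x => Φ ≠ 0 ∧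
    (ip Φ ((ham L h).mulVec Φ)).re ≤ (E L + Δ * (1 - x)) * nrm Φ ^ 2

/-- Box marginals correct up to `κ / L ^ 2`. -/
def Marginals {d r : ℕ} (h : Matrix (LConf d r) (LConf d r) ℂ) (Δ : ℝ)
    (Ψ : ∀ (L : ℕ) [NeZero L], Vec d L) : Prop :=
  ∃ κ : ℝ, κ * entNorm h < Δ ∧ QuasiPEPS fun L _ Φ _ => nrm Φ = 1 ∧
    ∀ (v : Site L) (a b : LConf d r), ‖marg Φ v a b - marg (Ψ L) v a b‖ ≤ κ / (L : ℝ) ^ 2

open scoped ComplexOrder in
/-- Some quasi-polynomial PEPO density matrix has quasi-polynomially small weight on `Ψ`. -/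
def QuasiMixed {d : ℕ} (Ψ : ∀ (L : ℕ) [NeZero L], Vec d L) : Prop :=
  ∃ (k : ℕ) (C : ℝ) (L₀ : ℕ), ∀ (L : ℕ) [NeZero L], L₀ ≤ L →
    ∃ (D : ℕ) (R : Matrix (Conf d L) (Conf d L) ℂ), IsPEPO D R ∧
      (D : ℝ) ≤ Real.exp (C * (Real.log L) ^ k) ∧ R.PosSemidef ∧ R.trace = 1 ∧
      Real.exp (-(C * (Real.log L) ^ k)) ≤ (ip (Ψ L) (R.mulVec (Ψ L))).re

end Pool.Agent.PEPS953.Plain
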