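import Pool.Agent.PEPS953.Mixed
import Pool.Agent.PEPS953.Plain

/-!
# Transfer to the plain definitions
-/

open scoped InnerProductSpace

set_option autoImplicit false
set_option linter.unusedSectionVars false

namespace Pool.Agent.PEPS953

variable {d r L : ℕ} [NeZero L]

/-- A coefficient vector as an element of the Hilbert space. -/
noncomputable def up (x : Plain.Vec d L) : Hil d L := WithLp.toLp 2 x

lemma up_ofLp (x : Hil d L) : up x.ofLp = x := rfl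

lemma ip_eq (x y : Plain.Vec d L) : Plain.ip x y = ⟪up x, up y⟫_ℂ := by
  unfold Plain.ip up
  rw [EuclideanSpace.inner_eq_star_dotProduct]
  simp only [dotProduct, Pi.star_apply]
  exact Finset.sum_congr rfl fun s _ => mul_comm _ _

lemma nrm_eq (x : Plain.Vec d L) : Plain.nrm x = ‖up x‖ := by
  unfold Plain.nrm up
  rw [EuclideanSpace.norm_eq]

lemma up_sub (x y : Plain.Vec d L) : up (x - y) = up x - up y := rfl

lemma up_smul (c : ℂ) (x : Plain.Vec d L) : up (c • x) = c • up x := rfl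

lemma up_ne_zero (x : Plain.Vec d L) : up x ≠ 0 ↔ x ≠ 0 := by
  unfold up
  rw [Ne, Ne, WithLp.toLp_eq_zero]

lemma translate_eq (o : Matrix (LConf d r) (LConf d r) ℂ) (v : Site L) :
    Plain.translate L o v = translate L o v := rfl

lemma up_mulVec_ham (h : Matrix (LConf d r) (LConf d r) ℂ) (x : Plain.Vec d L) :
    up ((Plain.ham L h).mulVec x) = ham L h (up x) := by
  rw [ham_eq]
  rfl

lemma marg_eq (x : Plain.Vec d L) (v : Site L) (a b : LConf d r) :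
    Plain.marg x v a b = ⟪up x, elem v a b (up x)⟫_ℂ := by
  unfold Plain.marg
  rw [ip_eq]
  rfl

lemma isPEPS_iff (D : ℕ) (x : Plain.Vec d L) : Plain.IsPEPS D x ↔ IsPEPS D (up x) := Iff.rfl

lemma isPEPO_iff (D : ℕ) (R : Matrix (Conf d L) (Conf d L) ℂ) :
    Plain.IsPEPO D R ↔ IsPEPO D R := Iff.rfl

lemma isGapped_iff (h : Matrix (LConf d r) (LConf d r) ℂ) (E Δ : ℝ) (Ψ : Plain.Vec d L) :
    Plain.IsGapped (Plain.ham L h) E Δ Ψ ↔ IsGappedGS (ham L h) E Δ (up Ψ) := by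
  have key : ∀ (E' : ℝ) (φ : Plain.Vec d L), (Plain.ham L h).mulVec φ = (E' : ℂ) • φ ↔
      ham L h (up φ) = (E' : ℂ) • up φ := by
    intro E' φ
    rw [← up_mulVec_ham, ← up_smul]
    exact ⟨fun hh => congrArg up hh, fun hh => congrArg WithLp.ofLp hh⟩
  constructor
  · rintro ⟨h1, h2, h3⟩
    refine ⟨by rw [← nrm_eq]; exact h1, (key E Ψ).mp h2, fun E' φ hφ hE' => ?_⟩
    rcases h3 E' φ.ofLp ((up_ne_zero _).mp hφ) ((key E' _).mpr hE') with ⟨h4, c, h5⟩ | h4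
    · exact Or.inl ⟨h4, c, by rw [← up_smul, ← h5, up_ofLp]⟩
    · exact Or.inr h4
  · rintro ⟨h1, h2, h3⟩
    refine ⟨by rw [nrm_eq]; exact h1, (key E Ψ).mpr h2, fun E' φ hφ hE' => ?_⟩
    rcases h3 E' (up φ) ((up_ne_zero _).mpr hφ) ((key E' _).mp hE') with ⟨h4, c, h5⟩ | h4
    · exact Or.inl ⟨h4, c, congrArg WithLp.ofLp h5⟩
    · exact Or.inr h4

omit [NeZero L]

/-- The family of Hilbert space vectors of a family of coefficient vectors. -/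
noncomputable def upF (Ψ : ∀ (L : ℕ) [NeZero L], Plain.Vec d L) : ∀ (L : ℕ) [NeZero L], Hil d L :=
  fun L _ => up (Ψ L)

lemma quasiPEPS_iff (P : ∀ (L : ℕ) [NeZero L], Plain.Vec d L → ℝ → Prop)
    (Q : ∀ (L : ℕ) [NeZero L], Hil d L → ℝ → Prop)
    (hPQ : ∀ (L : ℕ) [NeZero L] (x : Plain.Vec d L) (t : ℝ), P L x t ↔ Q L (up x) t) :
    Plain.QuasiPEPS P ↔ ∃ (k : ℕ) (C : ℝ) (L₀ : ℕ), ∀ (L : ℕ) [NeZero L], L₀ ≤ L →
    ∃ (D : ℕ) (Φ : Hil d L), IsPEPS D Φ ∧ (D : ℝ) ≤ Real.exp (C * (Real.log L) ^ k) ∧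
      Q L Φ (Real.exp (-(C * (Real.log L) ^ k))) := by
  unfold Plain.QuasiPEPS
  constructor
  · rintro ⟨k, C, L₀, h⟩
    refine ⟨k, C, L₀, fun L _ hL => ?_⟩
    obtain ⟨D, Φ, h1, h2, h3⟩ := h L hL
    exact ⟨D, up Φ, h1, h2, (hPQ L _ _).mp h3⟩
  · rintro ⟨k, C, L₀, h⟩
    refine ⟨k, C, L₀, fun L _ hL => ?_⟩
    obtain ⟨D, Φ, h1, h2, h3⟩ := h L hL
    exact ⟨D, Φ.ofLp, h1, h2, (hPQ L _ _).mpr h3⟩

lemma polyAcc_iff (Ψ : ∀ (L : ℕ) [NeZero L], Plain.Vec d L) :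
    Plain.PolyAcc Ψ ↔ PolyAcc (upF Ψ) := by
  unfold Plain.PolyAcc PolyAcc
  refine forall_congr' fun c => forall_congr' fun _ => ?_
  refine quasiPEPS_iff _ (fun L _ Φ _ => ‖Φ - upF Ψ L‖ ≤ (L : ℝ) ^ (-c)) fun L _ x t => ?_
  rw [nrm_eq, up_sub]; rfl

lemma quasiAcc_iff (Ψ : ∀ (L : ℕ) [NeZero L], Plain.Vec d L) :
    Plain.QuasiAcc Ψ ↔ QuasiAcc (upF Ψ) := by
  unfold Plain.QuasiAcc QuasiAcc
  refine forall_congr' fun a => ?_
  refine quasiPEPS_iff _ (fun L _ Φ _ => ‖Φ - upF Ψ L‖ ≤ Real.exp (-(Real.log L) ^ a))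
    fun L _ x t => ?_
  rw [nrm_eq, up_sub]; rfl

lemma quasiOverlap_iff (Ψ : ∀ (L : ℕ) [NeZero L], Plain.Vec d L) :
    Plain.QuasiOverlap Ψ ↔ QuasiOverlap (upF Ψ) := by
  unfold Plain.QuasiOverlap QuasiOverlap
  refine quasiPEPS_iff _ (fun L _ Φ t => Φ ≠ 0 ∧ t * ‖Φ‖ ≤ ‖⟪upF Ψ L, Φ⟫_ℂ‖) fun L _ x t => ?_
  rw [nrm_eq, ip_eq, up_ne_zero]; rfl

lemma quasiEnergy_iff (h : Matrix (LConf d r) (LConf d r) ℂ) (E : ℕ → ℝ) (Δ : ℝ) :
    Plain.QuasiEnergy h E Δ ↔ QuasiEnergy h E Δ := by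
  unfold Plain.QuasiEnergy QuasiEnergy
  refine quasiPEPS_iff _ (fun L _ Φ t => Φ ≠ 0 ∧ (⟪Φ, ham L h Φ⟫_ℂ).re ≤
    (E L + Δ * (1 - t)) * ‖Φ‖ ^ 2) fun L _ x t => ?_
  rw [nrm_eq, ip_eq, up_ne_zero, up_mulVec_ham]

lemma marginals_iff (h : Matrix (LConf d r) (LConf d r) ℂ) (Δ : ℝ)
    (Ψ : ∀ (L : ℕ) [NeZero L], Plain.Vec d L) :
    Plain.Marginals h Δ Ψ ↔ Marginals h Δ (upF Ψ) := by
  unfold Plain.Marginals Marginals
  refine exists_congr fun κ => and_congr Iff.rfl ?_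
  refine quasiPEPS_iff _ (fun L _ Φ _ => ‖Φ‖ = 1 ∧ ∀ (v : Site L) (a b : LConf d r),
        ‖⟪Φ, elem v a b Φ⟫_ℂ - ⟪upF Ψ L, elem v a b (upF Ψ L)⟫_ℂ‖ ≤ κ / (L : ℝ) ^ 2)
        fun L _ x t => ?_
  rw [nrm_eq]
  refine and_congr Iff.rfl (forall_congr' fun v => forall_congr' fun a => forall_congr' fun b => ?_)
  rw [marg_eq, marg_eq]; rfl

lemma quasiMixed_iff (Ψ : ∀ (L : ℕ) [NeZero L], Plain.Vec d L) :
    Plain.QuasiMixed Ψ ↔ QuasiMixed (upF Ψ) := by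
  unfold Plain.QuasiMixed QuasiMixed
  refine exists_congr fun k => exists_congr fun C => exists_congr fun L₀ =>
    forall_congr' fun L => forall_congr' fun _ => forall_congr' fun _ =>
    exists_congr fun D => exists_congr fun R => ?_
  rw [ip_eq]
  rfl

end Pool.Agent.PEPS953
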