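import Pool.Agent.PEPS953.Defs

/-!
# Recoding: a sum over site labels whose weights see a window of labels is a PEPS
-/

open Finset

set_option autoImplicit false

namespace Pool.Agent.PEPS953

/-- The site `u - p`. -/
def back {L r : ℕ} (u : Site L) (p : Box r) : Site L := (u.1 - (p.1 : ℕ), u.2 - (p.2 : ℕ))

lemma back_eq_iff {L r : ℕ} (u v : Site L) (p : Box r) : back u p = v ↔ boxPos L r v p = u := by
  unfold back boxPos
  constructor
  · rintro rfl; simp
  · rintro rfl; simp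

/-- PEPS with labels in an arbitrary finite type. -/
def IsPEPSL {d L : ℕ} [NeZero L] (ι : Type*) [Fintype ι] (ψ : Hil d L) : Prop :=
  ∃ A : Site L → Fin d → ι → ι → ι → ι → ℂ,
    ∀ s : Conf d L, ψ s = ∑ a : Site L → ι, ∑ b : Site L → ι,
      ∏ u : Site L, A u (s u) (a u) (b u) (a (u.1 - 1, u.2)) (b (u.1, u.2 - 1))

lemma IsPEPSL.isPEPS {d L : ℕ} [NeZero L] {ι : Type*} [Fintype ι] {ψ : Hil d L}
    (h : IsPEPSL ι ψ) : IsPEPS (Fintype.card ι) ψ := by
  classical
  obtain ⟨A, hA⟩ := h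
  set e := (Fintype.equivFin ι).symm with he
  refine ⟨fun u σ a b a' b' => A u σ (e a) (e b) (e a') (e b'), fun s => ?_⟩
  rw [hA]
  rw [← (Equiv.arrowCongr (Equiv.refl (Site L)) e).sum_comp]
  refine Finset.sum_congr rfl fun a _ => ?_
  rw [← (Equiv.arrowCongr (Equiv.refl (Site L)) e).sum_comp]
  rfl

variable {d L : ℕ} [NeZero L]

section Window

variable {r : ℕ} {Ω : Type*}

/-- Local consistency of the window labels. -/
def Cons (α β α' β' : Box r → Ω) : Prop :=
  α = β ∧ (∀ (i : ℕ) (hi : i + 1 < r) (j : Fin r), α (⟨i + 1, hi⟩, j) = α' (⟨i, by omega⟩, j)) ∧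
    (∀ (j : ℕ) (hj : j + 1 < r) (i : Fin r), α (i, ⟨j + 1, hj⟩) = β' (i, ⟨j, by omega⟩))

/-- The windows of a global labelling. -/
def win (r : ℕ) (ω : Site L → Ω) (u : Site L) : Box r → Ω := fun p => ω (back u p)

omit [NeZero L] in
lemma win_cons (ω : Site L → Ω) (u : Site L) :
    Cons (win r ω u) (win r ω u) (win r ω (u.1 - 1, u.2)) (win r ω (u.1, u.2 - 1)) := by
  refine ⟨rfl, fun i hi j => ?_, fun j hj i => ?_⟩
  · simp only [win, back]
    congr 2
    push_cast
    ring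
  · simp only [win, back]
    congr 2
    push_cast
    ring

omit [NeZero L] in
lemma eq_win_of_cons (hr : 0 < r) (α β : Site L → Box r → Ω)
    (h : ∀ u, Cons (α u) (β u) (α (u.1 - 1, u.2)) (β (u.1, u.2 - 1))) :
    β = α ∧ α = win r (fun w => α w (⟨0, hr⟩, ⟨0, hr⟩)) := by
  have hβ : β = α := funext fun u => (h u).1.symm
  refine ⟨hβ, ?_⟩
  subst hβ
  have h1 : ∀ (i : ℕ) (hi : i < r) (u : Site L) (j : Fin r),
      β u (⟨i, hi⟩, j) = β (u.1 - i, u.2) (⟨0, hr⟩, j) := by
    intro i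
    induction i with
    | zero => intro hi u j; simp
    | succ i ih =>
      intro hi u j
      rw [(h u).2.1 i hi j, ih (by omega)]
      congr 2
      push_cast
      ring
  have h2 : ∀ (j : ℕ) (hj : j < r) (u : Site L) (i : Fin r),
      β u (i, ⟨j, hj⟩) = β (u.1, u.2 - j) (i, ⟨0, hr⟩) := by
    intro j
    induction j with
    | zero => intro hj u i; simp
    | succ j ih =>
      intro hj u i
      rw [(h u).2.2 j hj i, ih (by omega)]
      congr 2
      push_cast
      ring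
  funext u p
  obtain ⟨⟨i, hi⟩, ⟨j, hj⟩⟩ := p
  simp only [win, back]
  rw [h1 i hi u ⟨j, hj⟩, h2 j hj]

lemma sum_cons [Fintype Ω] [DecidableEq Ω] (hr : 0 < r) (G : (Site L → Box r → Ω) → ℂ)
    [∀ α β : Site L → Box r → Ω,
      Decidable (∀ u, Cons (α u) (β u) (α (u.1 - 1, u.2)) (β (u.1, u.2 - 1)))] :
    (∑ α : Site L → Box r → Ω, ∑ β : Site L → Box r → Ω,
      if (∀ u, Cons (α u) (β u) (α (u.1 - 1, u.2)) (β (u.1, u.2 - 1))) then G α else 0) =
    ∑ ω : Site L → Ω, G (win r ω) := by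
  have h1 : ∀ α : Site L → Box r → Ω, (∑ β : Site L → Box r → Ω,
      if (∀ u, Cons (α u) (β u) (α (u.1 - 1, u.2)) (β (u.1, u.2 - 1))) then G α else 0) =
      if α = win r (fun w => α w (⟨0, hr⟩, ⟨0, hr⟩)) then G α else 0 := by
    intro α
    by_cases hα : α = win r (fun w => α w (⟨0, hr⟩, ⟨0, hr⟩))
    · rw [if_pos hα, Finset.sum_eq_single α]
      · rw [if_pos]
        intro u
        rw [hα]
        exact win_cons _ u
      · intro β _ hβ
        rw [if_neg]
        intro hc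
        exact hβ (eq_win_of_cons hr α β hc).1
      · intro h; exact absurd (Finset.mem_univ _) h
    · rw [if_neg hα]
      refine Finset.sum_eq_zero fun β _ => ?_
      rw [if_neg]
      intro hc
      exact hα (eq_win_of_cons hr α β hc).2
  simp_rw [h1]
  rw [← Finset.sum_filter]
  have hinj : Function.Injective (win (L := L) (Ω := Ω) r) := by
    intro ω ω' hw
    funext u
    have := congrFun (congrFun hw u) (⟨0, hr⟩, ⟨0, hr⟩)
    simpa [win, back] using this
  rw [← Finset.sum_image (s := univ) (g := win (L := L) (Ω := Ω) r) (f := G)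
    (fun x _ y _ hxy => hinj hxy)]
  refine Finset.sum_congr ?_ fun _ _ => rfl
  ext α
  simp only [Finset.mem_filter, Finset.mem_univ, true_and, Finset.mem_image]
  constructor
  · intro hα; exact ⟨_, hα.symm⟩
  · rintro ⟨ω, rfl⟩
    congr 1
    funext w
    simp [win, back]

/-- **Recoding lemma.** -/
theorem isPEPSL_of_window {κ : Type*} [Fintype κ] [Fintype Ω] (hr : 0 < r)
    (F : Site L → Fin d → (Box r → Ω) → κ → κ → κ → κ → ℂ) (ψ : Hil d L)
    (hψ : ∀ s : Conf d L, ψ s = ∑ ω : Site L → Ω, ∑ a : Site L → κ, ∑ b : Site L → κ,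
      ∏ u : Site L, F u (s u) (win r ω u) (a u) (b u) (a (u.1 - 1, u.2)) (b (u.1, u.2 - 1))) :
    IsPEPSL (κ × (Box r → Ω)) ψ := by
  classical
  refine ⟨fun u σ x y x' y' => if Cons x.2 y.2 x'.2 y'.2 then F u σ x.2 x.1 y.1 x'.1 y'.1 else 0,
    fun s => ?_⟩
  rw [hψ]
  set e := (Equiv.arrowProdEquivProdArrow (Site L) (fun _ => κ) (fun _ => Box r → Ω)).symm with he
  rw [← e.sum_comp]
  have h1 : ∀ x, (∑ b : Site L → κ × (Box r → Ω), ∏ u : Site L,
      if Cons ((e x) u).2 (b u).2 ((e x) (u.1 - 1, u.2)).2 (b (u.1, u.2 - 1)).2 then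
        F u (s u) ((e x) u).2 ((e x) u).1 (b u).1 ((e x) (u.1 - 1, u.2)).1 (b (u.1, u.2 - 1)).1
      else 0) =
      ∑ y : (Site L → κ) × (Site L → Box r → Ω),
        if (∀ u, Cons (x.2 u) (y.2 u) (x.2 (u.1 - 1, u.2)) (y.2 (u.1, u.2 - 1))) then
          ∏ u, F u (s u) (x.2 u) (x.1 u) (y.1 u) (x.1 (u.1 - 1, u.2)) (y.1 (u.1, u.2 - 1)) else 0 := by
    intro x
    rw [← e.sum_comp]
    refine Finset.sum_congr rfl fun y _ => ?_
    rw [Finset.prod_ite_zero]
    simp only [Finset.mem_univ, true_imp_iff]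
    rfl
  simp_rw [h1]
  rw [Fintype.sum_prod_type]
  simp_rw [Fintype.sum_prod_type]
  rw [Finset.sum_comm]
  refine Finset.sum_congr rfl fun a _ => ?_
  have h2 : ∀ α : Site L → Box r → Ω, (∑ b : Site L → κ, ∑ β : Site L → Box r → Ω,
        if (∀ u, Cons (α u) (β u) (α (u.1 - 1, u.2)) (β (u.1, u.2 - 1))) then
          ∏ u, F u (s u) (α u) (a u) (b u) (a (u.1 - 1, u.2)) (b (u.1, u.2 - 1)) else 0) =
      ∑ β : Site L → Box r → Ω,
        if (∀ u, Cons (α u) (β u) (α (u.1 - 1, u.2)) (β (u.1, u.2 - 1))) then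
          (∑ b : Site L → κ,
            ∏ u, F u (s u) (α u) (a u) (b u) (a (u.1 - 1, u.2)) (b (u.1, u.2 - 1))) else 0 := by
    intro α
    rw [Finset.sum_comm]
    refine Finset.sum_congr rfl fun β _ => ?_
    split_ifs
    · rfl
    · exact Finset.sum_const_zero
  simp_rw [h2]
  rw [sum_cons hr (fun α => ∑ b : Site L → κ,
            ∏ u, F u (s u) (α u) (a u) (b u) (a (u.1 - 1, u.2)) (b (u.1, u.2 - 1)))]

end Window

end Pool.Agent.PEPS953
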