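import Pool.Agent.PEPS953.Words

/-!
# Truncation of an ordered product by inclusion-exclusion
-/

open Finset

set_option autoImplicit false
set_option linter.unusedSectionVars false

namespace Pool.Agent.PEPS953

section Trunc

variable {A : Type*} [NormedRing A] [NormedAlgebra ℂ A]
variable {n N : ℕ} {P : Type*} [Fintype P] [DecidableEq P]

/-- The ordered product (times outside, terms inside) of the letters of a family of histories. -/
def word (y : Fin N → Option P → A) (ω : Fin N → Fin n → Option P) : A :=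
  (List.ofFn fun t : Fin n => (List.ofFn fun τ : Fin N => y τ (ω τ t)).prod).prod

/-- Number of non-trivial letters of a history. -/
def supp (ω : Fin n → Option P) : ℕ := (univ.filter fun t => ω t ≠ none).card

/-- The sum of all words in which each term has at most `k` non-trivial letters. -/
def ktr (n : ℕ) (k : ℕ) (y : Fin N → Option P → A) : A :=
  ∑ ω : Fin N → Fin n → Option P, if (∀ τ, supp (ω τ) ≤ k) then word y ω else 0

lemma sum_word (y : Fin N → Option P → A) (c : Fin n → Fin N → Option P → ℂ) :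
    ∑ ω : Fin N → Fin n → Option P, (∏ τ, ∏ t, c t τ (ω τ t)) • word y ω =
      (List.ofFn fun t : Fin n => (List.ofFn fun τ : Fin N => ∑ q, c t τ q • y τ q).prod).prod := by
  have h1 : ∀ t : Fin n, (List.ofFn fun τ : Fin N => ∑ q, c t τ q • y τ q).prod =
      ∑ v : Fin N → Option P, (∏ τ, c t τ (v τ)) • (List.ofFn fun τ : Fin N => y τ (v τ)).prod := by
    intro t
    rw [ofFn_prod_sum]
    exact Finset.sum_congr rfl fun v _ => ofFn_prod_smul _ _ _
  simp_rw [h1]
  rw [ofFn_prod_sum]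
  rw [← (Equiv.piComm (fun (_ : Fin N) (_ : Fin n) => Option P)).sum_comp]
  refine Finset.sum_congr rfl fun ω _ => ?_
  rw [ofFn_prod_smul]
  rw [Finset.prod_comm]
  rfl

lemma sum_word_one (y : Fin N → Option P → A) :
    ∑ ω : Fin N → Fin n → Option P, word y ω =
      ((List.ofFn fun τ : Fin N => ∑ q, y τ q).prod) ^ n := by
  have h := sum_word (n := n) y (fun _ _ _ => 1)
  simp only [Finset.prod_const_one, one_smul] at h
  rw [h, List.ofFn_const, List.prod_replicate]

/-- The set of histories used for the index `τ` in the inclusion-exclusion term of `Λ`. -/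
def badSet (n : ℕ) (P : Type*) [Fintype P] [DecidableEq P] (k : ℕ) (Λ : Finset (Fin N))
    (τ : Fin N) : Finset (Fin n → Option P) :=
  if τ ∈ Λ then univ.filter (fun ω => k < supp ω) else {fun _ => none}

/-- The inclusion-exclusion term of `Λ`. -/
def aTerm (n : ℕ) (k : ℕ) (y : Fin N → Option P → A) (Λ : Finset (Fin N)) : A :=
  ∑ ω : Fin N → Fin n → Option P,
    (∏ τ ∈ Λ, (if k < supp (ω τ) then (1 : ℂ) else 0)) • word y ω

lemma aTerm_eq (k : ℕ) (y : Fin N → Option P → A) (Λ : Finset (Fin N)) :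
    aTerm n k y Λ = ∑ η ∈ Fintype.piFinset (badSet n P k Λ),
      (List.ofFn fun t : Fin n => (List.ofFn fun τ : Fin N =>
        if τ ∈ Λ then y τ (η τ t) else ∑ q, y τ q).prod).prod := by
  have h1 : ∀ ω : Fin N → Fin n → Option P,
      (∏ τ ∈ Λ, (if k < supp (ω τ) then (1 : ℂ) else 0)) =
      ∑ η ∈ Fintype.piFinset (badSet n P k Λ), ∏ τ, ∏ t,
        (if τ ∈ Λ then (if ω τ t = η τ t then (1 : ℂ) else 0) else 1) := by
    intro ω
    rw [← Finset.prod_univ_sum (badSet n P k Λ) (fun τ (ζ : Fin n → Option P) => ∏ t,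
        (if τ ∈ Λ then (if ω τ t = ζ t then (1 : ℂ) else 0) else 1))]
    rw [← Finset.prod_subset (Finset.subset_univ Λ)]
    · refine Finset.prod_congr rfl fun τ hτ => ?_
      simp only [badSet, hτ, if_true]
      have h2 : ∀ ζ : Fin n → Option P, (∏ t, (if ω τ t = ζ t then (1 : ℂ) else 0)) =
          if ω τ = ζ then 1 else 0 := by
        intro ζ
        by_cases h : ω τ = ζ
        · simp [h]
        · rw [if_neg h]
          obtain ⟨t, ht⟩ := Function.ne_iff.mp h
          exact Finset.prod_eq_zero (Finset.mem_univ t) (by simp [ht])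
      simp_rw [h2]
      rw [Finset.sum_ite_eq]
      simp
    · intro τ _ hτ
      simp [badSet, hτ]
  unfold aTerm
  simp_rw [h1, Finset.sum_smul]
  rw [Finset.sum_comm]
  refine Finset.sum_congr rfl fun η _ => ?_
  have h3 := sum_word (n := n) y
    (fun t τ q => if τ ∈ Λ then (if q = η τ t then (1 : ℂ) else 0) else 1)
  rw [h3]
  congr 1
  refine congrArg List.ofFn (funext fun t => ?_)
  congr 1
  refine congrArg List.ofFn (funext fun τ => ?_)
  by_cases hτ : τ ∈ Λ
  · simp [hτ, ite_smul]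
  · simp [hτ]

/-- weights -/
def cw (c : P → ℝ) (M : ℝ) : Option P → ℝ
  | none => 1
  | some p => M * c p

lemma cw_nonneg {c : P → ℝ} (hc : ∀ p, 0 ≤ c p) {M : ℝ} (hM : 0 ≤ M) (q : Option P) :
    0 ≤ cw c M q := by
  cases q with
  | none => simp [cw]
  | some p => exact mul_nonneg hM (hc p)

lemma sum_cw (c : P → ℝ) (M : ℝ) : ∑ q, cw c M q = 1 + M * ∑ p, c p := by
  rw [Fintype.sum_option, Finset.mul_sum]
  rfl

lemma two_pow_supp (c : P → ℝ) (M : ℝ) (ζ : Fin n → Option P) :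
    (2 : ℝ) ^ (supp ζ) * ∏ t, cw c M (ζ t) = ∏ t, cw c (2 * M) (ζ t) := by
  have h1 : (2 : ℝ) ^ (supp ζ) = ∏ t, (if ζ t ≠ none then (2 : ℝ) else 1) := by
    rw [supp, ← Finset.prod_const, Finset.prod_filter]
  rw [h1, ← Finset.prod_mul_distrib]
  refine Finset.prod_congr rfl fun t _ => ?_
  cases ζ t with
  | none => simp [cw]
  | some p => simp [cw]; ring

lemma sum_bad_le (c : P → ℝ) (hc : ∀ p, 0 ≤ c p) (M : ℝ) (hM : 0 ≤ M) (k : ℕ) :
    ∑ ζ ∈ univ.filter (fun ω : Fin n → Option P => k < supp ω), ∏ t, cw c M (ζ t) ≤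
      (1 / 2) ^ (k + 1) * (1 + 2 * M * ∑ p, c p) ^ n := by
  have h1 : ∀ ζ ∈ univ.filter (fun ω : Fin n → Option P => k < supp ω),
      ∏ t, cw c M (ζ t) ≤ (1 / 2) ^ (k + 1) * ∏ t, cw c (2 * M) (ζ t) := by
    intro ζ hζ
    have hk : k + 1 ≤ supp ζ := (Finset.mem_filter.mp hζ).2
    rw [← two_pow_supp, ← mul_assoc]
    have h2 : (1 : ℝ) ≤ (1 / 2) ^ (k + 1) * 2 ^ (supp ζ) := by
      calc (1 : ℝ) = (1 / 2) ^ (k + 1) * 2 ^ (k + 1) := by rw [← mul_pow]; norm_num
        _ ≤ _ := mul_le_mul_of_nonneg_left (pow_le_pow_right₀ (by norm_num) hk) (by positivity)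
    exact le_mul_of_one_le_left (Finset.prod_nonneg fun t _ => cw_nonneg hc hM _) h2
  refine (Finset.sum_le_sum h1).trans ?_
  rw [← Finset.mul_sum]
  refine mul_le_mul_of_nonneg_left ?_ (by positivity)
  refine (Finset.sum_le_sum_of_subset_of_nonneg (Finset.filter_subset _ _) ?_).trans ?_
  · intro ζ _ _
    exact Finset.prod_nonneg fun t _ => cw_nonneg hc (by linarith) _
  · have h3 := Finset.prod_univ_sum (fun _ : Fin n => (univ : Finset (Option P)))
      (fun _ q => cw c (2 * M) q)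
    rw [Fintype.piFinset_univ] at h3
    rw [← h3, Finset.prod_const, Finset.card_univ, Fintype.card_fin, sum_cw]

variable [NormOneClass A]

/-- Norm of one time slice with prescribed letters on `Λ`. -/
lemma norm_slice_le (y : Fin N → Option P → A) (hy : ∀ τ, y τ none = 1) (c : P → ℝ)
    (hc : ∀ p, 0 ≤ c p) (hyc : ∀ τ p, ‖y τ (some p)‖ ≤ c p) (a s : ℝ) (ha : ∑ p, c p ≤ a)
    (hs : (1 + a) ^ N ≤ 4 * s) (Λ : Finset (Fin N))
    (hΛ : ‖(List.ofFn fun τ : Fin N => if τ ∈ Λ then (1 : A) else ∑ q, y τ q).prod‖ ≤ s)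
    (v : Fin N → Option P) :
    ‖(List.ofFn fun τ : Fin N => if τ ∈ Λ then y τ (v τ) else ∑ q, y τ q).prod‖ ≤
      s * ∏ τ ∈ Λ, cw c 4 (v τ) := by
  have hs0 : 0 ≤ s := (norm_nonneg _).trans hΛ
  have hC : 0 ≤ ∑ p, c p := Finset.sum_nonneg fun p _ => hc p
  have ha0 : 0 ≤ a := hC.trans ha
  by_cases h : ∀ τ ∈ Λ, v τ = none
  · have h1 : (fun τ : Fin N => if τ ∈ Λ then y τ (v τ) else ∑ q, y τ q) =
        fun τ : Fin N => if τ ∈ Λ then (1 : A) else ∑ q, y τ q := by
      funext τ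
      by_cases hτ : τ ∈ Λ
      · simp [hτ, h τ hτ, hy]
      · simp [hτ]
    rw [h1]
    have h2 : ∏ τ ∈ Λ, cw c 4 (v τ) = 1 := by
      refine Finset.prod_eq_one fun τ hτ => ?_
      rw [h τ hτ]; rfl
    rw [h2, mul_one]
    exact hΛ
  · push Not at h
    obtain ⟨τ₀, hτ₀, hv⟩ := h
    have h1 : ‖(List.ofFn fun τ : Fin N => if τ ∈ Λ then y τ (v τ) else ∑ q, y τ q).prod‖ ≤
        ∏ τ : Fin N, (if τ ∈ Λ then cw c 1 (v τ) else 1 + a) := by
      refine norm_ofFn_prod_le N _ _ fun τ => ?_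
      by_cases hτ : τ ∈ Λ
      · simp only [hτ, if_true]
        cases hvτ : v τ with
        | none => simp [hy, cw]
        | some p => simpa [cw] using hyc τ p
      · simp only [hτ, if_false]
        rw [Fintype.sum_option, hy]
        refine (norm_add_le _ _).trans ?_
        rw [norm_one]
        have := (norm_sum_le (univ : Finset P) (fun p => y τ (some p))).trans
          (Finset.sum_le_sum fun p _ => hyc τ p)
        linarith
    refine h1.trans ?_
    have h2 : ∏ τ : Fin N, (if τ ∈ Λ then cw c 1 (v τ) else 1 + a) ≤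
        (1 + a) ^ N * ∏ τ ∈ Λ, cw c 1 (v τ) := by
      rw [Finset.prod_ite]
      have e1 : (univ.filter fun τ : Fin N => τ ∈ Λ) = Λ := by ext; simp
      rw [e1, mul_comm]
      refine mul_le_mul_of_nonneg_right ?_ (Finset.prod_nonneg fun τ _ => cw_nonneg hc zero_le_one _)
      rw [Finset.prod_const]
      refine pow_le_pow_right₀ (by linarith) ?_
      exact (Finset.card_le_univ _).trans (by simp)
    refine h2.trans ?_
    have h3 : 4 * ∏ τ ∈ Λ, cw c 1 (v τ) ≤ ∏ τ ∈ Λ, cw c 4 (v τ) := by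
      rw [← Finset.mul_prod_erase Λ _ hτ₀, ← Finset.mul_prod_erase Λ (fun τ => cw c 4 (v τ)) hτ₀]
      rw [← mul_assoc]
      refine mul_le_mul ?_ ?_ (Finset.prod_nonneg fun τ _ => cw_nonneg hc zero_le_one _)
        (cw_nonneg hc (by norm_num) _)
      · cases hv' : v τ₀ with
        | none => exact absurd hv' hv
        | some p => simp [cw]
      · refine Finset.prod_le_prod (fun τ _ => cw_nonneg hc zero_le_one _) fun τ _ => ?_
        cases v τ with
        | none => simp [cw]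
        | some p => simp only [cw]; linarith [hc p]
    calc (1 + a) ^ N * ∏ τ ∈ Λ, cw c 1 (v τ) ≤ (4 * s) * ∏ τ ∈ Λ, cw c 1 (v τ) :=
          mul_le_mul_of_nonneg_right hs (Finset.prod_nonneg fun τ _ => cw_nonneg hc zero_le_one _)
      _ = s * (4 * ∏ τ ∈ Λ, cw c 1 (v τ)) := by ring
      _ ≤ s * ∏ τ ∈ Λ, cw c 4 (v τ) := mul_le_mul_of_nonneg_left h3 hs0

lemma norm_aTerm_le (k : ℕ) (y : Fin N → Option P → A) (hy : ∀ τ, y τ none = 1) (c : P → ℝ)
    (hc : ∀ p, 0 ≤ c p) (hyc : ∀ τ p, ‖y τ (some p)‖ ≤ c p) (a s : ℝ) (ha : ∑ p, c p ≤ a)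
    (hs : (1 + a) ^ N ≤ 4 * s) (Λ : Finset (Fin N))
    (hΛ : ‖(List.ofFn fun τ : Fin N => if τ ∈ Λ then (1 : A) else ∑ q, y τ q).prod‖ ≤ s) :
    ‖aTerm n k y Λ‖ ≤ s ^ n * ((1 / 2) ^ (k + 1) * (1 + 8 * a) ^ n) ^ Λ.card := by
  have hs0 : 0 ≤ s := (norm_nonneg _).trans hΛ
  have hC : 0 ≤ ∑ p, c p := Finset.sum_nonneg fun p _ => hc p
  rw [aTerm_eq]
  have h1 : ∀ η : Fin N → Fin n → Option P,
      ‖(List.ofFn fun t : Fin n => (List.ofFn fun τ : Fin N =>
        if τ ∈ Λ then y τ (η τ t) else ∑ q, y τ q).prod).prod‖ ≤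
      s ^ n * ∏ τ, (if τ ∈ Λ then ∏ t, cw c 4 (η τ t) else 1) := by
    intro η
    refine (norm_ofFn_prod_le n _ _ fun t =>
      norm_slice_le y hy c hc hyc a s ha hs Λ hΛ (fun τ => η τ t)).trans (le_of_eq ?_)
    rw [Finset.prod_mul_distrib, Finset.prod_const, Finset.card_univ, Fintype.card_fin,
      Finset.prod_comm]
    rw [Finset.prod_ite_mem, Finset.univ_inter]
  refine (norm_sum_le _ _).trans ((Finset.sum_le_sum fun η _ => h1 η).trans ?_)
  rw [← Finset.mul_sum]
  refine mul_le_mul_of_nonneg_left ?_ (by positivity)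
  rw [← Finset.prod_univ_sum (badSet n P k Λ) (fun τ (ζ : Fin n → Option P) =>
    if τ ∈ Λ then ∏ t, cw c 4 (ζ t) else 1)]
  rw [← Finset.prod_subset (Finset.subset_univ Λ)]
  · rw [← Finset.prod_const]
    refine Finset.prod_le_prod (fun τ _ => Finset.sum_nonneg fun ζ _ => ?_) fun τ hτ => ?_
    · split_ifs
      all_goals first
        | exact Finset.prod_nonneg fun t _ => cw_nonneg hc (by norm_num) _
        | exact zero_le_one
    · simp only [badSet, hτ, if_true]
      refine (sum_bad_le c hc 4 (by norm_num) k).trans ?_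
      refine mul_le_mul_of_nonneg_left ?_ (by positivity)
      refine pow_le_pow_left₀ (by linarith) (by linarith) n
  · intro τ _ hτ
    simp [badSet, hτ]

/-- Inclusion-exclusion. -/
lemma ktr_eq (k : ℕ) (y : Fin N → Option P → A) :
    ktr n k y = ∑ Λ : Finset (Fin N), ((-1 : ℂ) ^ Λ.card) • aTerm n k y Λ := by
  unfold aTerm
  simp_rw [Finset.smul_sum]
  rw [Finset.sum_comm]
  unfold ktr
  refine Finset.sum_congr rfl fun ω _ => ?_
  simp_rw [smul_smul]
  rw [← Finset.sum_smul]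
  have h1 : ∑ Λ : Finset (Fin N), (-1 : ℂ) ^ Λ.card *
      (∏ τ ∈ Λ, (if k < supp (ω τ) then (1 : ℂ) else 0)) =
      ∏ τ, (1 + (-(if k < supp (ω τ) then (1 : ℂ) else 0))) := by
    rw [Finset.prod_one_add, Finset.powerset_univ]
    refine Finset.sum_congr rfl fun Λ _ => ?_
    rw [← Finset.prod_const, ← Finset.prod_mul_distrib]
    refine Finset.prod_congr rfl fun τ _ => by ring
  rw [h1]
  by_cases h : ∀ τ, supp (ω τ) ≤ k
  · rw [if_pos h]
    have : ∏ τ, (1 + (-(if k < supp (ω τ) then (1 : ℂ) else 0))) = 1 := by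
      refine Finset.prod_eq_one fun τ _ => ?_
      rw [if_neg (not_lt.mpr (h τ))]; ring
    rw [this, one_smul]
  · rw [if_neg h]
    push Not at h
    obtain ⟨τ, hτ⟩ := h
    have : ∏ τ, (1 + (-(if k < supp (ω τ) then (1 : ℂ) else 0))) = 0 := by
      refine Finset.prod_eq_zero (Finset.mem_univ τ) ?_
      rw [if_pos hτ]; ring
    rw [this, zero_smul]

lemma aTerm_empty (k : ℕ) (y : Fin N → Option P → A) :
    aTerm n k y ∅ = ((List.ofFn fun τ : Fin N => ∑ q, y τ q).prod) ^ n := by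
  rw [← sum_word_one]
  simp [aTerm]

/-- **Main truncation estimate.** -/
theorem norm_ktr_sub_pow_le (k : ℕ) (y : Fin N → Option P → A) (hy : ∀ τ, y τ none = 1)
    (c : P → ℝ) (hc : ∀ p, 0 ≤ c p) (hyc : ∀ τ p, ‖y τ (some p)‖ ≤ c p) (a g : ℝ)
    (ha : ∑ p, c p ≤ a) (hN : N * a ≤ 1 / 2) (hg : 1 / 2 ≤ g)
    (hG : ‖(1 : A) + ∑ τ : Fin N, ∑ p, y τ (some p)‖ ≤ g) :
    ‖ktr n k y - (1 + ∑ τ : Fin N, ∑ p, y τ (some p)) ^ n‖ ≤
      g ^ n * (Real.exp (2 * n * (N * a) ^ 2 + N * ((1 / 2) ^ (k + 1) * Real.exp (10 * (a * n)))) - 1) := by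
  have hC : 0 ≤ ∑ p, c p := Finset.sum_nonneg fun p _ => hc p
  have ha0 : 0 ≤ a := hC.trans ha
  have hg0 : 0 < g := by linarith
  set x : Fin N → A := fun τ => ∑ p, y τ (some p) with hx
  have hxa : ∀ τ, ‖x τ‖ ≤ a := fun τ =>
    ((norm_sum_le _ _).trans (Finset.sum_le_sum fun p _ => hyc τ p)).trans ha
  have hsum : ∀ τ, ∑ q, y τ q = 1 + x τ := fun τ => by rw [Fintype.sum_option, hy]
  set S : A := (List.ofFn fun τ : Fin N => ∑ q, y τ q).prod with hS
  set G : A := 1 + ∑ τ, x τ with hGdef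
  set ρ : ℝ := (N * a) ^ 2 with hρ
  have hNa : 0 ≤ N * a := by positivity
  -- product formula on any complement
  have hprod : ∀ Λ : Finset (Fin N),
      ‖(List.ofFn fun τ : Fin N => if τ ∈ Λ then (1 : A) else ∑ q, y τ q).prod‖ ≤
        g + a * Λ.card + ρ := by
    intro Λ
    set x' : Fin N → A := fun τ => if τ ∈ Λ then 0 else x τ with hx'
    have h1 : (fun τ : Fin N => if τ ∈ Λ then (1 : A) else ∑ q, y τ q) = fun τ => 1 + x' τ := by
      funext τ
      by_cases hτ : τ ∈ Λ <;> simp [hx', hτ, hsum]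
    rw [h1]
    have h2 := norm_prod_one_add_sub a ha0 N x' (fun τ => by
      by_cases hτ : τ ∈ Λ
      · simp [hx', hτ, ha0]
      · simpa [hx', hτ] using hxa τ)
    have h3 := pow_sub_one_sub_le a ha0 N (by linarith)
    have h4 : (1 : A) + ∑ τ, x' τ = G - ∑ τ ∈ Λ, x τ := by
      have : ∑ τ, x τ = ∑ τ, x' τ + ∑ τ ∈ Λ, x τ := by
        have h6 : ∑ τ ∈ Λ, x τ = ∑ τ, (if τ ∈ Λ then x τ else 0) := by
          rw [Finset.sum_ite_mem, Finset.univ_inter]
        rw [h6, ← Finset.sum_add_distrib]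
        refine Finset.sum_congr rfl fun τ _ => ?_
        by_cases hτ : τ ∈ Λ <;> simp [hx', hτ]
      rw [hGdef, this]; abel
    have h5 : ‖(1 : A) + ∑ τ, x' τ‖ ≤ g + a * Λ.card := by
      rw [h4]
      refine (norm_sub_le _ _).trans (add_le_add hG ?_)
      refine (norm_sum_le _ _).trans ((Finset.sum_le_sum fun τ _ => hxa τ).trans ?_)
      rw [Finset.sum_const, nsmul_eq_mul, mul_comm]
    calc ‖(List.ofFn fun τ => 1 + x' τ).prod‖
        = ‖((List.ofFn fun τ => 1 + x' τ).prod - (1 + ∑ τ, x' τ)) + (1 + ∑ τ, x' τ)‖ := by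
          rw [sub_add_cancel]
      _ ≤ _ := (norm_add_le _ _).trans (add_le_add (h2.trans h3) h5)
      _ = g + a * Λ.card + ρ := by rw [hρ]; ring
  have hρ0 : 0 ≤ ρ := by positivity
  have hz : ∀ z : ℝ, 0 ≤ z → (g + z) ^ n ≤ g ^ n * Real.exp (2 * n * z) := by
    intro z hz
    have h1 : g + z ≤ g * Real.exp (2 * z) := by
      have h2 := Real.add_one_le_exp (2 * z)
      nlinarith
    calc (g + z) ^ n ≤ (g * Real.exp (2 * z)) ^ n := pow_le_pow_left₀ (by linarith) h1 n
      _ = g ^ n * Real.exp (2 * n * z) := by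
          rw [mul_pow, ← Real.exp_nat_mul]; congr 2; ring
  have hSG : ‖S - G‖ ≤ ρ := by
    have h2 := norm_prod_one_add_sub a ha0 N x hxa
    have h3 := pow_sub_one_sub_le a ha0 N (by linarith)
    have h1 : (fun τ : Fin N => ∑ q, y τ q) = fun τ => 1 + x τ := by
      funext τ; exact hsum τ
    rw [hS, h1]
    exact h2.trans h3
  have hpow : ‖S ^ n - G ^ n‖ ≤ g ^ n * (Real.exp (2 * n * ρ) - 1) := by
    refine (norm_pow_sub_pow_le S G g ρ hG hSG n).trans ?_
    have := hz ρ hρ0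
    linarith
  set p : ℝ := (1 / 2) ^ (k + 1) * Real.exp (10 * (a * n)) with hp
  have hp0 : 0 ≤ p := by positivity
  have h2N : (1 + a) ^ N ≤ 2 := by
    have h1 : (1 + a) ^ N ≤ Real.exp (N * a) := by
      rw [Real.exp_nat_mul]
      exact pow_le_pow_left₀ (by linarith) (by linarith [Real.add_one_le_exp a]) N
    have h2 : Real.exp (N * a) ≤ Real.exp (1 / 2) := Real.exp_le_exp.mpr hN
    have h3 : Real.exp (1 / 2) ≤ 2 := by
      have h4 := Real.abs_exp_sub_one_sub_id_le (x := 1 / 2) (by norm_num [abs_of_pos])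
      have h5 := (abs_le.mp h4).2
      linarith
    linarith
  have hterm : ∀ Λ : Finset (Fin N), ‖aTerm n k y Λ‖ ≤ g ^ n * Real.exp (2 * n * ρ) * p ^ Λ.card := by
    intro Λ
    have hcard : (0 : ℝ) ≤ Λ.card := Nat.cast_nonneg _
    have h1 := norm_aTerm_le (n := n) k y hy c hc hyc a (g + a * Λ.card + ρ) ha
      (by nlinarith [mul_nonneg ha0 hcard]) Λ (hprod Λ)
    refine h1.trans ?_
    have h2 : (g + a * Λ.card + ρ) ^ n ≤ g ^ n * Real.exp (2 * n * (a * Λ.card + ρ)) := by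
      have := hz (a * Λ.card + ρ) (by positivity)
      rwa [← add_assoc] at this
    have h3 : (1 + 8 * a) ^ n ≤ Real.exp (8 * (a * n)) := by
      have : Real.exp (8 * (a * n)) = Real.exp (8 * a) ^ n := by
        rw [← Real.exp_nat_mul]; congr 1; ring
      rw [this]
      exact pow_le_pow_left₀ (by linarith) (by linarith [Real.add_one_le_exp (8 * a)]) n
    calc (g + a * Λ.card + ρ) ^ n * ((1 / 2) ^ (k + 1) * (1 + 8 * a) ^ n) ^ Λ.card
        ≤ (g ^ n * Real.exp (2 * n * (a * Λ.card + ρ))) *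
            ((1 / 2) ^ (k + 1) * Real.exp (8 * (a * n))) ^ Λ.card := by
          refine mul_le_mul h2 ?_ (by positivity) (by positivity)
          refine pow_le_pow_left₀ (by positivity) ?_ _
          exact mul_le_mul_of_nonneg_left h3 (by positivity)
      _ = g ^ n * Real.exp (2 * n * ρ) * p ^ Λ.card := by
          rw [hp, mul_pow, mul_pow, ← Real.exp_nat_mul, ← Real.exp_nat_mul]
          have : Real.exp (2 * n * (a * Λ.card + ρ)) * Real.exp (Λ.card * (8 * (a * n))) =
              Real.exp (2 * n * ρ) * Real.exp (Λ.card * (10 * (a * n))) := by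
            rw [← Real.exp_add, ← Real.exp_add]; congr 1; ring
          linear_combination g ^ n * ((1 / 2) ^ (k + 1)) ^ Λ.card * this
  have hdiff : ‖ktr n k y - S ^ n‖ ≤ g ^ n * Real.exp (2 * n * ρ) * (Real.exp (N * p) - 1) := by
    have h1 : ktr n k y - S ^ n = ∑ Λ ∈ (univ : Finset (Finset (Fin N))).erase ∅,
        ((-1 : ℂ) ^ Λ.card) • aTerm n k y Λ := by
      rw [ktr_eq, ← Finset.add_sum_erase univ _ (Finset.mem_univ ∅), aTerm_empty]
      simp [hS]
    rw [h1]
    have h2 : ∀ Λ : Finset (Fin N), ‖((-1 : ℂ) ^ Λ.card) • aTerm n k y Λ‖ ≤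
        g ^ n * Real.exp (2 * n * ρ) * p ^ Λ.card := by
      intro Λ
      rw [norm_smul, norm_pow, norm_neg, norm_one, one_pow, one_mul]
      exact hterm Λ
    refine (norm_sum_le _ _).trans ((Finset.sum_le_sum fun Λ _ => h2 Λ).trans ?_)
    rw [← Finset.mul_sum]
    refine mul_le_mul_of_nonneg_left ?_ (by positivity)
    have h3 : ∑ Λ : Finset (Fin N), p ^ Λ.card = (1 + p) ^ N := by
      have h4 := Finset.prod_one_add (f := fun _ : Fin N => p) univ
      rw [Finset.prod_const, Finset.card_univ, Fintype.card_fin, Finset.powerset_univ] at h4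
      rw [h4]
      refine Finset.sum_congr rfl fun Λ _ => (Finset.prod_const p).symm
    have h5 := Finset.add_sum_erase univ (fun Λ : Finset (Fin N) => p ^ Λ.card) (Finset.mem_univ ∅)
    simp only [Finset.card_empty, pow_zero] at h5
    have h6 : (1 + p) ^ N ≤ Real.exp (N * p) := by
      rw [Real.exp_nat_mul]
      exact pow_le_pow_left₀ (by linarith) (by linarith [Real.add_one_le_exp p]) N
    linarith
  calc ‖ktr n k y - G ^ n‖ = ‖(ktr n k y - S ^ n) + (S ^ n - G ^ n)‖ := by congr 1; abel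
    _ ≤ g ^ n * Real.exp (2 * n * ρ) * (Real.exp (N * p) - 1) +
        g ^ n * (Real.exp (2 * n * ρ) - 1) := (norm_add_le _ _).trans (add_le_add hdiff hpow)
    _ = g ^ n * (Real.exp (2 * n * ρ + N * p) - 1) := by rw [Real.exp_add]; ring

end Trunc

end Pool.Agent.PEPS953
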