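import Pool.Agent.PEPS953.Local
import Pool.Agent.PEPS953.Trunc

/-!
# Applying the truncated operator to a PEPS
-/

open Finset

set_option autoImplicit false
set_option linter.unusedSectionVars false

namespace Pool.Agent.PEPS953

variable {d L r : ℕ} [NeZero L]

/-- A fixed enumeration of the translates. -/
noncomputable def enum (L : ℕ) [NeZero L] : Fin (Fintype.card (Site L)) ≃ Site L :=
  (Fintype.equivFin (Site L)).symm

/-- scalar part of a letter -/
def coef (h : Matrix (LConf d r) (LConf d r) ℂ) (δ : ℝ) : Option (LConf d r × LConf d r) → ℂ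
  | none => 1
  | some p => -(δ : ℂ) * h p.1 p.2

/-- the letters of the product formula -/
noncomputable def letter (h : Matrix (LConf d r) (LConf d r) ℂ) (δ : ℝ)
    (τ : Fin (Fintype.card (Site L))) : Option (LConf d r × LConf d r) → (Hil d L →L[ℂ] Hil d L)
  | none => 1
  | some p => (-(δ : ℂ) * h p.1 p.2) • elem (enum L τ) p.1 p.2

/-- site factor of a letter -/
noncomputable def facq (v : Site L) (u : Site L) :
    Option (LConf d r × LConf d r) → Matrix (Fin d) (Fin d) ℂ
  | none => 1
  | some p => fac v p.1 p.2 u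

lemma letter_eq (hrL : r ≤ L) (h : Matrix (LConf d r) (LConf d r) ℂ) (δ : ℝ)
    (τ : Fin (Fintype.card (Site L))) (q : Option (LConf d r × LConf d r)) :
    letter h δ τ q = coef h δ q •
      Matrix.toEuclideanCLM (𝕜 := ℂ) (siteOp (fun u => facq (enum L τ) u q)) := by
  cases q with
  | none =>
    simp only [letter, coef, facq]
    rw [siteOp_one, map_one, one_smul]
  | some p =>
    simp only [letter, coef, facq]
    unfold elem locOp
    rw [translate_single hrL]

/-- The one-site matrix at `u` of a family of histories. -/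
noncomputable def siteMat {n : ℕ} (ω : Site L → Fin n → Option (LConf d r × LConf d r))
    (u : Site L) : Matrix (Fin d) (Fin d) ℂ :=
  (List.ofFn fun t : Fin n => (List.ofFn fun τ : Fin (Fintype.card (Site L)) =>
    facq (enum L τ) u (ω (enum L τ) t)).prod).prod

lemma word_eq {n : ℕ} (hrL : r ≤ L) (h : Matrix (LConf d r) (LConf d r) ℂ) (δ : ℝ)
    (ω : Site L → Fin n → Option (LConf d r × LConf d r)) :
    word (letter (L := L) h δ) (fun τ => ω (enum L τ)) = (∏ v, ∏ t, coef h δ (ω v t)) •
      Matrix.toEuclideanCLM (𝕜 := ℂ) (siteOp (siteMat ω)) := by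
  unfold word
  simp_rw [letter_eq hrL]
  have h1 : ∀ t : Fin n, (List.ofFn fun τ : Fin (Fintype.card (Site L)) =>
      coef h δ (ω (enum L τ) t) • Matrix.toEuclideanCLM (𝕜 := ℂ)
        (siteOp (fun u => facq (enum L τ) u (ω (enum L τ) t)))).prod =
      (∏ τ, coef h δ (ω (enum L τ) t)) • Matrix.toEuclideanCLM (𝕜 := ℂ)
        (siteOp (fun u => (List.ofFn fun τ : Fin (Fintype.card (Site L)) =>
          facq (enum L τ) u (ω (enum L τ) t)).prod)) := by
    intro t
    refine (ofFn_prod_smul _ (fun τ => coef h δ (ω (enum L τ) t))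
      (fun τ => Matrix.toEuclideanCLM (𝕜 := ℂ)
        (siteOp (fun u => facq (enum L τ) u (ω (enum L τ) t))))).trans ?_
    rw [← siteOp_list_prod, map_list_prod, List.map_ofFn]
    rfl
  simp_rw [h1]
  refine (ofFn_prod_smul _ (fun t => ∏ τ, coef h δ (ω (enum L τ) t))
    (fun t => Matrix.toEuclideanCLM (𝕜 := ℂ)
        (siteOp (fun u => (List.ofFn fun τ : Fin (Fintype.card (Site L)) =>
          facq (enum L τ) u (ω (enum L τ) t)).prod)))).trans ?_
  have h2 : (List.ofFn fun t : Fin n => Matrix.toEuclideanCLM (𝕜 := ℂ)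
        (siteOp (fun u => (List.ofFn fun τ : Fin (Fintype.card (Site L)) =>
          facq (enum L τ) u (ω (enum L τ) t)).prod))).prod =
      Matrix.toEuclideanCLM (𝕜 := ℂ) (siteOp (siteMat ω)) := by
    unfold siteMat
    rw [← siteOp_list_prod, map_list_prod, List.map_ofFn]
    rfl
  rw [h2]
  congr 1
  rw [Finset.prod_comm]
  exact (enum L).prod_comp (fun v => ∏ t, coef h δ (ω v t))

open scoped Classical in
/-- Extension of a window of histories by trivial histories. -/
noncomputable def ext {n : ℕ} {P : Type*} (u : Site L) (α : Box r → Fin n → Option P) :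
    Site L → Fin n → Option P :=
  fun v => if h : ∃ p, back u p = v then α h.choose else fun _ => none

lemma siteMat_eq_ext {n : ℕ} (ω : Site L → Fin n → Option (LConf d r × LConf d r))
    (u : Site L) : siteMat ω u = siteMat (ext u (win r ω u)) u := by
  unfold siteMat
  congr 1
  refine congrArg List.ofFn (funext fun t => ?_)
  congr 1
  refine congrArg List.ofFn (funext fun τ => ?_)
  set v := enum L τ with hv
  by_cases hvu : ∃ p : Box r, back u p = v
  · have h1 : ext u (win r ω u) v = ω v := by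
      unfold ext
      rw [dif_pos hvu]
      unfold win
      rw [hvu.choose_spec]
    rw [h1]
  · have h1 : ext u (win r ω u) v = fun _ => none := by
      unfold ext
      rw [dif_neg hvu]
    rw [h1]
    have h2 : ∀ q : Option (LConf d r × LConf d r), facq v u q = 1 := by
      intro q
      cases q with
      | none => rfl
      | some p =>
        refine fac_neg _ _ _ _ ?_
        rintro ⟨p', hp'⟩
        exact hvu ⟨p', (back_eq_iff u v p').mpr hp'⟩
    rw [h2, h2]

/-- Histories with at most `k` non-trivial letters. -/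
abbrev Hist (n k : ℕ) (P : Type*) [DecidableEq P] : Type _ :=
  {ω : Fin n → Option P // supp ω ≤ k}

lemma ktr_letter_eq {n k : ℕ} (hrL : r ≤ L) (h : Matrix (LConf d r) (LConf d r) ℂ) (δ : ℝ) :
    ktr n k (letter (L := L) h δ) = ∑ ω : Site L → Hist n k (LConf d r × LConf d r),
      (∏ v, ∏ t, coef h δ ((ω v).1 t)) •
        Matrix.toEuclideanCLM (𝕜 := ℂ) (siteOp (siteMat (fun v => (ω v).1))) := by
  unfold ktr
  rw [← (Equiv.arrowCongr (enum L).symm (Equiv.refl (Fin n → Option (LConf d r × LConf d r)))).sum_comp]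
  have h1 : ∀ ω : Site L → Fin n → Option (LConf d r × LConf d r),
      (if (∀ τ, supp ((Equiv.arrowCongr (enum L).symm (Equiv.refl _)) ω τ) ≤ k) then
        word (letter (L := L) h δ) ((Equiv.arrowCongr (enum L).symm (Equiv.refl _)) ω) else 0) =
      if (∀ v, supp (ω v) ≤ k) then word (letter (L := L) h δ) (fun τ => ω (enum L τ)) else 0 := by
    intro ω
    have h2 : (Equiv.arrowCongr (enum L).symm
        (Equiv.refl (Fin n → Option (LConf d r × LConf d r)))) ω = fun τ => ω (enum L τ) := rfl
    rw [h2]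
    have h3 : (∀ τ, supp ((fun τ => ω (enum L τ)) τ) ≤ k) ↔ (∀ v, supp (ω v) ≤ k) :=
      ⟨fun hh v => by simpa using hh ((enum L).symm v), fun hh τ => hh _⟩
    simp only [h3]
  simp_rw [h1]
  rw [← Finset.sum_filter]
  rw [Finset.sum_subtype (univ.filter fun ω : Site L → Fin n → Option (LConf d r × LConf d r) =>
    ∀ v, supp (ω v) ≤ k) (p := fun ω => ∀ v, supp (ω v) ≤ k) (by simp)]
  rw [← (Equiv.subtypePiEquivPi (p := fun (_ : Site L)
    (x : Fin n → Option (LConf d r × LConf d r)) => supp x ≤ k)).symm.sum_comp]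
  refine Finset.sum_congr rfl fun ω _ => ?_
  rw [← word_eq hrL]
  rfl

/-- **Applying the truncated operator multiplies the bond dimension by at most `|Hist|^(r²)`.** -/
theorem isPEPSL_ktr {n k : ℕ} (hr : 0 < r) (hrL : r ≤ L) (h : Matrix (LConf d r) (LConf d r) ℂ)
    (δ : ℝ) {D : ℕ} {Φ : Hil d L} (hΦ : IsPEPS D Φ) :
    IsPEPSL (Fin D × (Box r → Hist n k (LConf d r × LConf d r)))
      (ktr n k (letter (L := L) h δ) Φ) := by
  obtain ⟨A, hA⟩ := hΦ
  refine isPEPSL_of_window hr (fun u σ α a b a' b' =>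
    (∏ t, coef h δ ((α (⟨0, hr⟩, ⟨0, hr⟩)).1 t)) *
      ∑ σ', siteMat (ext u (fun p => (α p).1)) u σ σ' * A u σ' a b a' b') _ fun s => ?_
  rw [ktr_letter_eq hrL]
  rw [_root_.sum_apply]
  have e1 : ∀ (f : (Site L → Hist n k (LConf d r × LConf d r)) → Hil d L),
      (∑ ω, f ω) s = ∑ ω, (f ω) s := by
    intro f
    simp
  rw [e1]
  refine Finset.sum_congr rfl fun ω _ => ?_
  have e2 : (((∏ v, ∏ t, coef h δ ((ω v).1 t)) •
      Matrix.toEuclideanCLM (𝕜 := ℂ) (siteOp (siteMat (fun v => (ω v).1)))) Φ) s =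
      (∏ v, ∏ t, coef h δ ((ω v).1 t)) *
        ∑ s', siteOp (siteMat (fun v => (ω v).1)) s s' * Φ s' := rfl
  rw [e2]
  simp_rw [hA]
  have e3 : ∀ s' : Conf d L, siteOp (siteMat (fun v => (ω v).1)) s s' *
      (∑ a : Site L → Fin D, ∑ b : Site L → Fin D,
        ∏ u : Site L, A u (s' u) (a u) (b u) (a (u.1 - 1, u.2)) (b (u.1, u.2 - 1))) =
      ∑ a : Site L → Fin D, ∑ b : Site L → Fin D, ∏ u : Site L,
        siteMat (fun v => (ω v).1) u (s u) (s' u) *
          A u (s' u) (a u) (b u) (a (u.1 - 1, u.2)) (b (u.1, u.2 - 1)) := by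
    intro s'
    rw [Finset.mul_sum]
    refine Finset.sum_congr rfl fun a _ => ?_
    rw [Finset.mul_sum]
    refine Finset.sum_congr rfl fun b _ => ?_
    rw [Finset.prod_mul_distrib]
    rfl
  simp_rw [e3]
  rw [Finset.sum_comm, Finset.mul_sum]
  refine Finset.sum_congr rfl fun a _ => ?_
  rw [Finset.sum_comm, Finset.mul_sum]
  refine Finset.sum_congr rfl fun b _ => ?_
  have e4 := Finset.prod_univ_sum (fun _ : Site L => (univ : Finset (Fin d)))
    (fun u σ' => siteMat (fun v => (ω v).1) u (s u) σ' *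
      A u σ' (a u) (b u) (a (u.1 - 1, u.2)) (b (u.1, u.2 - 1)))
  rw [Fintype.piFinset_univ] at e4
  rw [← e4, ← Finset.prod_mul_distrib]
  refine Finset.prod_congr rfl fun u _ => ?_
  have e5 : win r ω u (⟨0, hr⟩, ⟨0, hr⟩) = ω u := by simp [win, back]
  have e6 : siteMat (fun v => (ω v).1) u =
      siteMat (ext u (fun p => ((win r ω u) p).1)) u := by
    have := siteMat_eq_ext (r := r) (fun v => (ω v).1) u
    rw [this]
    rfl
  rw [e5, ← e6]

end Pool.Agent.PEPS953
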