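import Pool.Agent.PEPS953.Apply

/-!
# Counting histories, norm of the Hamiltonian, scalar multiples of PEPS
-/

open Finset
open scoped InnerProductSpace

set_option autoImplicit false
set_option linter.unusedSectionVars false

namespace Pool.Agent.PEPS953

lemma sum_choose_le (m k : ℕ) : ∑ j ∈ range (k + 1), m.choose j ≤ (1 + m) ^ k := by
  have h1 : ∀ j, m.choose (j + 1) ≤ m * m.choose j := by
    intro j
    have h := Nat.choose_succ_right_eq m j
    calc m.choose (j + 1) ≤ m.choose (j + 1) * (j + 1) := Nat.le_mul_of_pos_right _ (Nat.succ_pos j)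
      _ = m.choose j * (m - j) := h
      _ ≤ m.choose j * m := Nat.mul_le_mul_left _ (Nat.sub_le _ _)
      _ = m * m.choose j := Nat.mul_comm _ _
  have h2 : ∀ j, m.choose j ≤ (1 + m) ^ j := by
    intro j
    induction j with
    | zero => simp
    | succ j ih =>
      calc m.choose (j + 1) ≤ m * m.choose j := h1 j
        _ ≤ (1 + m) * (1 + m) ^ j := Nat.mul_le_mul (by omega) ih
        _ = (1 + m) ^ (j + 1) := (pow_succ' _ _).symm
  induction k with
  | zero => simp
  | succ k ih =>
    rw [Finset.sum_range_succ]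
    calc _ ≤ (1 + m) ^ k + m * (1 + m) ^ k :=
          Nat.add_le_add ih ((h1 k).trans (Nat.mul_le_mul_left _ (h2 k)))
      _ = (1 + m) ^ (k + 1) := by ring

lemma card_hist_le (n k : ℕ) (P : Type*) [Fintype P] [DecidableEq P] :
    Fintype.card (Hist n k P) ≤ (1 + n * Fintype.card P) ^ k := by
  classical
  -- the graph of a history
  let gr : (Fin n → Option P) → Finset (Fin n × P) := fun ω =>
    univ.filter fun x => ω x.1 = some x.2
  have hgr : Function.Injective gr := by
    intro ω ω' h
    funext t
    have key : ∀ p, ω t = some p ↔ ω' t = some p := by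
      intro p
      have := Finset.ext_iff.mp h (t, p)
      simpa [gr] using this
    cases h1 : ω t with
    | none =>
      cases h2 : ω' t with
      | none => rfl
      | some p => rw [(key p).mpr h2] at h1; exact absurd h1 (by simp)
    | some p => exact ((key p).mp h1).symm
  have hcard : ∀ ω : Fin n → Option P, (gr ω).card ≤ supp ω := by
    intro ω
    unfold supp
    refine Finset.card_le_card_of_injOn Prod.fst ?_ ?_
    · intro x hx
      simp only [gr, Finset.coe_filter, Finset.mem_univ, true_and, Set.mem_ofPred_eq] at hx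
      simp only [Finset.coe_filter, Finset.mem_univ, true_and, Set.mem_ofPred_eq]
      rw [hx]; simp
    · intro x hx y hy hxy
      simp only [gr, Finset.coe_filter, Finset.mem_univ, true_and, Set.mem_ofPred_eq] at hx hy
      have hxy' : x.1 = y.1 := hxy
      rw [hxy', hy] at hx
      exact Prod.ext hxy' (Option.some.inj hx).symm
  set S : Finset (Finset (Fin n × P)) := (range (k + 1)).biUnion fun j => powersetCard j univ with hS
  have h1 : Fintype.card (Hist n k P) ≤ S.card := by
    rw [← Finset.card_univ]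
    refine Finset.card_le_card_of_injOn (fun ω => gr ω.1) ?_ ?_
    · intro ω _
      rw [Finset.mem_coe, hS, Finset.mem_biUnion]
      refine ⟨(gr ω.1).card, ?_, ?_⟩
      · rw [Finset.mem_range]; exact Nat.lt_succ_of_le ((hcard ω.1).trans ω.2)
      · rw [Finset.mem_powersetCard]; exact ⟨Finset.subset_univ _, rfl⟩
    · intro ω _ ω' _ h
      exact Subtype.ext (hgr h)
  refine h1.trans (Finset.card_biUnion_le.trans ?_)
  have h2 : ∀ j, (powersetCard j (univ : Finset (Fin n × P))).card = (n * Fintype.card P).choose j := by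
    intro j
    rw [Finset.card_powersetCard, Finset.card_univ, Fintype.card_prod, Fintype.card_fin]
  simp_rw [h2]
  exact sum_choose_le _ _

variable {d L r : ℕ} [NeZero L]

lemma IsPEPS.smul {D : ℕ} {ψ : Hil d L} (h : IsPEPS D ψ) (c : ℂ) : IsPEPS D (c • ψ) := by
  obtain ⟨A, hA⟩ := h
  refine ⟨fun u σ a b a' b' => (if u = 0 then c else 1) * A u σ a b a' b', fun s => ?_⟩
  have e : (c • ψ) s = c * ψ s := rfl
  rw [e, hA, Finset.mul_sum]
  refine Finset.sum_congr rfl fun a _ => ?_
  rw [Finset.mul_sum]
  refine Finset.sum_congr rfl fun b _ => ?_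
  rw [Finset.prod_mul_distrib]
  congr 1
  rw [Finset.prod_ite_eq' univ (0 : Site L) (fun _ => c), if_pos (Finset.mem_univ _)]

/-- entrywise norm of the interaction -/
noncomputable def entNorm (h : Matrix (LConf d r) (LConf d r) ℂ) : ℝ :=
  ∑ p : LConf d r × LConf d r, ‖h p.1 p.2‖

lemma entNorm_nonneg (h : Matrix (LConf d r) (LConf d r) ℂ) : 0 ≤ entNorm h :=
  Finset.sum_nonneg fun _ _ => norm_nonneg _

lemma norm_locOp_le (hrL : r ≤ L) (h : Matrix (LConf d r) (LConf d r) ℂ) (v : Site L) :
    ‖locOp L h v‖ ≤ entNorm h := by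
  rw [locOp_eq_sum]
  refine (norm_sum_le _ _).trans (Finset.sum_le_sum fun p _ => ?_)
  rw [norm_smul]
  exact mul_le_of_le_one_right (norm_nonneg _) (norm_elem_le hrL v p.1 p.2)

lemma norm_ham_le (hrL : r ≤ L) (h : Matrix (LConf d r) (LConf d r) ℂ) :
    ‖ham L h‖ ≤ (L : ℝ) ^ 2 * entNorm h := by
  unfold ham
  refine (norm_sum_le _ _).trans ((Finset.sum_le_sum fun v _ => norm_locOp_le hrL h v).trans ?_)
  rw [Finset.sum_const, Finset.card_univ, Fintype.card_prod, ZMod.card, nsmul_eq_mul]
  push_cast
  rw [pow_two]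

lemma translate_conjTranspose (h : Matrix (LConf d r) (LConf d r) ℂ) (v : Site L) :
    (translate L h v).conjTranspose = translate L h.conjTranspose v := by
  classical
  ext s s'
  simp only [translate, Matrix.conjTranspose_apply]
  by_cases h1 : ∀ u, u ∉ Set.range (boxPos L r v) → s u = s' u
  · rw [if_pos h1, if_pos (fun u hu => (h1 u hu).symm)]
  · rw [if_neg h1, if_neg (fun h2 => h1 fun u hu => (h2 u hu).symm), star_zero]

lemma ham_eq (h : Matrix (LConf d r) (LConf d r) ℂ) :
    ham L h = Matrix.toEuclideanCLM (𝕜 := ℂ) (∑ v : Site L, translate L h v) := by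
  unfold ham locOp
  rw [map_sum]

lemma ham_isSymmetric {h : Matrix (LConf d r) (LConf d r) ℂ} (hh : h.IsHermitian) :
    ((ham L h : Hil d L →L[ℂ] Hil d L) : Hil d L →ₗ[ℂ] Hil d L).IsSymmetric := by
  rw [ham_eq, Matrix.coe_toEuclideanCLM_eq_toEuclideanLin, Matrix.isSymmetric_toEuclideanLin_iff]
  unfold Matrix.IsHermitian
  rw [Matrix.conjTranspose_sum]
  refine Finset.sum_congr rfl fun v _ => ?_
  rw [translate_conjTranspose, hh.eq]

end Pool.Agent.PEPS953
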