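import Pool.Agent.PEPS953.Spectral

/-!
# Finite-range Hamiltonians on the torus and projected entangled pair states
-/

open scoped InnerProductSpace
open Finset

set_option autoImplicit false

namespace Pool.Agent.PEPS953

/-- Sites of the `L × L` torus. -/
abbrev Site (L : ℕ) : Type := ZMod L × ZMod L

/-- Basis configurations of `(ℂ^d)^{⊗ torus}`. -/
abbrev Conf (d L : ℕ) : Type := Site L → Fin d

/-- The Hilbert space `H_L = (ℂ^d)^{⊗ torus}`. -/
abbrev Hil (d L : ℕ) : Type := EuclideanSpace ℂ (Conf d L)

/-- The `r × r` box of sites on which the interaction acts. -/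
abbrev Box (r : ℕ) : Type := Fin r × Fin r

/-- Basis configurations of the box. -/
abbrev LConf (d r : ℕ) : Type := Box r → Fin d

/-- The site `v + p`, for `p` in the box. -/
def boxPos (L r : ℕ) (v : Site L) (p : Box r) : Site L := (v.1 + (p.1 : ℕ), v.2 + (p.2 : ℕ))

open scoped Classical in
/-- The local operator with matrix `o`, acting on the translate by `v` of the box. -/
noncomputable def translate {d r : ℕ} (L : ℕ) (o : Matrix (LConf d r) (LConf d r) ℂ) (v : Site L) :
    Matrix (Conf d L) (Conf d L) ℂ := fun s s' =>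
  if ∀ u, u ∉ Set.range (boxPos L r v) → s u = s' u then
    o (fun p => s (boxPos L r v p)) (fun p => s' (boxPos L r v p)) else 0

/-- The local operator `translate L o v` as an operator on `H_L`. -/
noncomputable def locOp {d r : ℕ} (L : ℕ) [NeZero L] (o : Matrix (LConf d r) (LConf d r) ℂ)
    (v : Site L) : Hil d L →L[ℂ] Hil d L :=
  Matrix.toEuclideanCLM (𝕜 := ℂ) (translate L o v)

/-- The Hamiltonian `H_L`, the sum of all translates of `h`. -/
noncomputable def ham {d r : ℕ} (L : ℕ) [NeZero L] (h : Matrix (LConf d r) (LConf d r) ℂ) :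
    Hil d L →L[ℂ] Hil d L := ∑ v : Site L, locOp L h v

/-- `ψ` is a PEPS of bond dimension `D`: `a u` is the virtual index on the edge from `u` to
`u + (1, 0)`, and `b u` the one on the edge from `u` to `u + (0, 1)`. -/
def IsPEPS {d L : ℕ} [NeZero L] (D : ℕ) (ψ : Hil d L) : Prop :=
  ∃ A : Site L → Fin d → Fin D → Fin D → Fin D → Fin D → ℂ,
    ∀ s : Conf d L, ψ s = ∑ a : Site L → Fin D, ∑ b : Site L → Fin D,
      ∏ u : Site L, A u (s u) (a u) (b u) (a (u.1 - 1, u.2)) (b (u.1, u.2 - 1))

end Pool.Agent.PEPS953
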