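import Pool.Agent.PEPS953.Quant

/-!
# Equivalent forms of quasi-polynomial PEPS approximability for a gapped family
-/

open Finset
open scoped InnerProductSpace

set_option autoImplicit false
set_option linter.unusedSectionVars false

namespace Pool.Agent.PEPS953

lemma one_le_log {L : ℕ} (hL : 3 ≤ L) : 1 ≤ Real.log L := by
  rw [Real.le_log_iff_exp_le (by positivity)]
  have h1 := Real.exp_one_lt_d9
  have h2 : (3 : ℝ) ≤ L := by exact_mod_cast hL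
  linarith

lemma qp_mono {C C' : ℝ} {k k' L : ℕ} (hC' : 0 ≤ C') (hCC : C ≤ C') (hkk : k ≤ k') (hL : 3 ≤ L) :
    C * (Real.log L) ^ k ≤ C' * (Real.log L) ^ k' := by
  have h1 := one_le_log hL
  calc C * (Real.log L) ^ k ≤ C' * (Real.log L) ^ k :=
        mul_le_mul_of_nonneg_right hCC (by positivity)
    _ ≤ C' * (Real.log L) ^ k' := mul_le_mul_of_nonneg_left (pow_le_pow_right₀ h1 hkk) hC'

variable {d r : ℕ}

lemma norm_elem_le' {L : ℕ} [NeZero L] (hrL : r ≤ L) (v : Site L) (a b : LConf d r) (x : Hil d L) :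
    ‖elem (d := d) v a b x‖ ≤ ‖x‖ :=
  ((elem v a b).le_opNorm x).trans (mul_le_of_le_one_left (norm_nonneg _) (norm_elem_le hrL v a b))

/-- Energy excess of a vector close to the ground state. -/
lemma energy_le_of_close {L : ℕ} [NeZero L] (hrL : r ≤ L) {h : Matrix (LConf d r) (LConf d r) ℂ}
    (hh : h.IsHermitian) {E Δ : ℝ} {Ψ : Hil d L} (hgs : IsGappedGS (ham L h) E Δ Ψ)
    (Φ : Hil d L) :
    (⟪Φ, ham L h Φ⟫_ℂ).re ≤ E * ‖Φ‖ ^ 2 + 2 * ((L : ℝ) ^ 2 * entNorm h) * ‖Φ - Ψ‖ ^ 2 := by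
  set H := ham L h with hH
  have hsym := ham_isSymmetric (L := L) hh
  set χ := Φ - Ψ with hχ
  have hΦ : Φ = Ψ + χ := by rw [hχ]; abel
  have h1 : ⟪Φ, H Φ - (E : ℂ) • Φ⟫_ℂ = ⟪χ, H χ - (E : ℂ) • χ⟫_ℂ := by
    have e1 : H Φ - (E : ℂ) • Φ = H χ - (E : ℂ) • χ := by
      rw [hΦ, map_add, hgs.eigen, smul_add]; abel
    rw [e1]
    conv_lhs => rw [hΦ]
    rw [inner_add_left]
    have e2 : ⟪Ψ, H χ - (E : ℂ) • χ⟫_ℂ = 0 := by
      have e3 : ⟪H Ψ, χ⟫_ℂ = ⟪Ψ, H χ⟫_ℂ := hsym Ψ χ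
      rw [inner_sub_right, ← e3, hgs.eigen, inner_smul_left, inner_smul_right, Complex.conj_ofReal,
        sub_self]
    rw [e2, zero_add]
  have h2 : ⟪Φ, H Φ⟫_ℂ = (E : ℂ) * ((‖Φ‖ ^ 2 : ℝ) : ℂ) + ⟪χ, H χ - (E : ℂ) • χ⟫_ℂ := by
    rw [← h1, inner_sub_right, inner_smul_right, inner_self_eq_norm_sq_to_K]
    push_cast
    simp
  rw [h2, Complex.add_re, ← Complex.ofReal_mul, Complex.ofReal_re]
  have hHn := norm_ham_le (L := L) hrL h
  have hE := hgs.abs_E_le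
  have h3 : ‖H χ - (E : ℂ) • χ‖ ≤ 2 * ((L : ℝ) ^ 2 * entNorm h) * ‖χ‖ := by
    refine (norm_sub_le _ _).trans ?_
    rw [norm_smul, Complex.norm_real, Real.norm_eq_abs]
    have e4 := (H.le_opNorm χ).trans (mul_le_mul_of_nonneg_right hHn (norm_nonneg χ))
    have e5 := mul_le_mul_of_nonneg_right (hE.trans hHn) (norm_nonneg χ)
    linarith
  have h4 : (⟪χ, H χ - (E : ℂ) • χ⟫_ℂ).re ≤ ‖χ‖ * (2 * ((L : ℝ) ^ 2 * entNorm h) * ‖χ‖) :=
    (Complex.re_le_norm _).trans ((norm_inner_le_norm _ _).trans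
      (mul_le_mul_of_nonneg_left h3 (norm_nonneg _)))
  calc E * ‖Φ‖ ^ 2 + (⟪χ, H χ - (E : ℂ) • χ⟫_ℂ).re
      ≤ E * ‖Φ‖ ^ 2 + ‖χ‖ * (2 * ((L : ℝ) ^ 2 * entNorm h) * ‖χ‖) := by linarith
    _ = E * ‖Φ‖ ^ 2 + 2 * ((L : ℝ) ^ 2 * entNorm h) * ‖χ‖ ^ 2 := by ring

/-- Energy difference from the matrix elements of the box marginals. -/
lemma energy_le_of_marginals {L : ℕ} [NeZero L] {h : Matrix (LConf d r) (LConf d r) ℂ}
    {E Δ : ℝ} {Ψ : Hil d L} (hgs : IsGappedGS (ham L h) E Δ Ψ)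
    (Φ : Hil d L) (κ : ℝ) (hκ : ∀ (v : Site L) (a b : LConf d r),
      ‖⟪Φ, elem v a b Φ⟫_ℂ - ⟪Ψ, elem v a b Ψ⟫_ℂ‖ ≤ κ / (L : ℝ) ^ 2) :
    (⟪Φ, ham L h Φ⟫_ℂ).re ≤ E + κ * entNorm h := by
  have hL0 : (L : ℝ) ≠ 0 := by exact_mod_cast NeZero.ne L
  have e1 : ∀ x : Hil d L, ⟪x, ham L h x⟫_ℂ =
      ∑ v : Site L, ∑ p : LConf d r × LConf d r, h p.1 p.2 * ⟪x, elem v p.1 p.2 x⟫_ℂ := by
    intro x
    unfold ham
    rw [_root_.sum_apply, inner_sum]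
    refine Finset.sum_congr rfl fun v _ => ?_
    rw [locOp_eq_sum, _root_.sum_apply, inner_sum]
    refine Finset.sum_congr rfl fun p _ => ?_
    rw [_root_.smul_apply, inner_smul_right]
  have e2 : ⟪Ψ, ham L h Ψ⟫_ℂ = (E : ℂ) := by
    rw [hgs.eigen, inner_smul_right, inner_self_eq_norm_sq_to_K, hgs.norm_eq]; simp
  have e3 : ‖⟪Φ, ham L h Φ⟫_ℂ - (E : ℂ)‖ ≤ κ * entNorm h := by
    rw [← e2, e1, e1, ← Finset.sum_sub_distrib]
    refine (norm_sum_le _ _).trans ?_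
    have e4 : ∀ v : Site L, ‖∑ p : LConf d r × LConf d r, h p.1 p.2 * ⟪Φ, elem v p.1 p.2 Φ⟫_ℂ -
        ∑ p : LConf d r × LConf d r, h p.1 p.2 * ⟪Ψ, elem v p.1 p.2 Ψ⟫_ℂ‖ ≤
        κ / (L : ℝ) ^ 2 * entNorm h := by
      intro v
      rw [← Finset.sum_sub_distrib]
      refine (norm_sum_le _ _).trans ?_
      unfold entNorm
      rw [Finset.mul_sum]
      refine Finset.sum_le_sum fun p _ => ?_
      rw [← mul_sub, norm_mul, mul_comm]
      exact mul_le_mul_of_nonneg_right (hκ v p.1 p.2) (norm_nonneg _)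
    refine (Finset.sum_le_sum fun v _ => e4 v).trans (le_of_eq ?_)
    rw [Finset.sum_const, Finset.card_univ, Fintype.card_prod, ZMod.card, nsmul_eq_mul]
    push_cast
    field_simp
  have e5 := (Complex.re_le_norm _).trans e3
  rw [Complex.sub_re, Complex.ofReal_re] at e5
  linarith

end Pool.Agent.PEPS953
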