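import Mathlib

/-!
# Ordered products of sums in a normed algebra, and truncation by inclusion-exclusion
-/

open Finset

set_option autoImplicit false

namespace Pool.Agent.PEPS953

section Alg

variable {A : Type*} [Ring A]

/-- Expanding an ordered product of sums. -/
lemma ofFn_prod_sum {B : Type*} [Fintype B] (n : ℕ) (f : Fin n → B → A) :
    (List.ofFn fun t => ∑ b, f t b).prod = ∑ w : Fin n → B, (List.ofFn fun t => f t (w t)).prod := by
  induction n with
  | zero => simp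
  | succ n ih =>
    rw [List.ofFn_succ, List.prod_cons, ih (fun t => f t.succ)]
    rw [← (Fin.consEquiv (fun _ : Fin (n + 1) => B)).sum_comp]
    rw [Fintype.sum_prod_type, Finset.sum_mul]
    refine Finset.sum_congr rfl fun b _ => ?_
    rw [Finset.mul_sum]
    refine Finset.sum_congr rfl fun w _ => ?_
    simp [Fin.consEquiv, List.ofFn_succ]

lemma ofFn_prod_smul [Algebra ℂ A] (n : ℕ) (c : Fin n → ℂ) (f : Fin n → A) :
    (List.ofFn fun t => c t • f t).prod = (∏ t, c t) • (List.ofFn f).prod := by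
  induction n with
  | zero => simp
  | succ n ih =>
    rw [List.ofFn_succ, List.prod_cons, ih (fun t => c t.succ) (fun t => f t.succ), Fin.prod_univ_succ,
      List.ofFn_succ, List.prod_cons]
    rw [smul_mul_smul_comm]

end Alg

section Norm

variable {A : Type*} [NormedRing A] [NormOneClass A]

lemma norm_ofFn_prod_le (n : ℕ) (f : Fin n → A) (g : Fin n → ℝ) (h : ∀ i, ‖f i‖ ≤ g i) :
    ‖(List.ofFn f).prod‖ ≤ ∏ i, g i := by
  induction n with
  | zero => simp
  | succ n ih =>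
    rw [List.ofFn_succ, List.prod_cons, Fin.prod_univ_succ]
    refine (norm_mul_le _ _).trans ?_
    exact mul_le_mul (h 0) (ih _ _ fun i => h i.succ) (norm_nonneg _)
      ((norm_nonneg _).trans (h 0))

/-- First-order product formula. -/
lemma norm_prod_one_add_sub (a : ℝ) (ha : 0 ≤ a) (N : ℕ) (x : Fin N → A) (hx : ∀ i, ‖x i‖ ≤ a) :
    ‖(List.ofFn fun i => 1 + x i).prod - (1 + ∑ i, x i)‖ ≤ (1 + a) ^ N - 1 - N * a := by
  induction N with
  | zero => simp
  | succ N ih =>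
    rw [List.ofFn_succ, List.prod_cons, Fin.sum_univ_succ]
    set P := (List.ofFn fun i : Fin N => 1 + x i.succ).prod with hP
    set S := ∑ i : Fin N, x i.succ with hS
    have h1 := ih (fun i => x i.succ) (fun i => hx i.succ)
    rw [← hP, ← hS] at h1
    have h2 : (1 + x 0) * P - (1 + (x 0 + S)) = (1 + x 0) * (P - (1 + S)) + x 0 * S := by noncomm_ring
    rw [h2]
    have h3 : ‖S‖ ≤ N * a := by
      refine (norm_sum_le _ _).trans ?_
      refine (Finset.sum_le_sum fun i _ => hx i.succ).trans ?_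
      simp
    have h4 : ‖(1 : A) + x 0‖ ≤ 1 + a := (norm_add_le _ _).trans (by rw [norm_one]; linarith [hx 0])
    calc ‖(1 + x 0) * (P - (1 + S)) + x 0 * S‖
        ≤ ‖(1 + x 0)‖ * ‖P - (1 + S)‖ + ‖x 0‖ * ‖S‖ :=
          (norm_add_le _ _).trans (add_le_add (norm_mul_le _ _) (norm_mul_le _ _))
      _ ≤ (1 + a) * ((1 + a) ^ N - 1 - N * a) + a * (N * a) := by
          refine add_le_add ?_ ?_
          · exact mul_le_mul h4 h1 (norm_nonneg _) (by linarith)
          · exact mul_le_mul (hx 0) h3 (norm_nonneg _) ha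
      _ = (1 + a) ^ (N + 1) - 1 - ((N + 1 : ℕ) : ℝ) * a := by push_cast; ring

lemma pow_sub_one_sub_le (a : ℝ) (ha : 0 ≤ a) (N : ℕ) (h : N * a ≤ 1) :
    (1 + a) ^ N - 1 - N * a ≤ (N * a) ^ 2 := by
  have h1 : (1 + a) ^ N ≤ Real.exp (N * a) := by
    rw [Real.exp_nat_mul]
    exact pow_le_pow_left₀ (by linarith) (by linarith [Real.add_one_le_exp a]) N
  have h2 := Real.abs_exp_sub_one_sub_id_le (x := N * a) (by rw [abs_of_nonneg (by positivity)]; exact h)
  have h3 := (abs_le.mp h2).2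
  linarith

lemma norm_pow_sub_pow_le (a b : A) (g ρ : ℝ) (hb : ‖b‖ ≤ g) (hab : ‖a - b‖ ≤ ρ) (n : ℕ) :
    ‖a ^ n - b ^ n‖ ≤ (g + ρ) ^ n - g ^ n := by
  have hg : 0 ≤ g := (norm_nonneg _).trans hb
  have hρ : 0 ≤ ρ := (norm_nonneg _).trans hab
  have ha : ‖a‖ ≤ g + ρ := by
    calc ‖a‖ = ‖b + (a - b)‖ := by congr 1; abel
      _ ≤ ‖b‖ + ‖a - b‖ := norm_add_le _ _
      _ ≤ g + ρ := add_le_add hb hab
  induction n with
  | zero => simp
  | succ n ih =>
    have h1 : a ^ (n + 1) - b ^ (n + 1) = (a ^ n - b ^ n) * a + b ^ n * (a - b) := by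
      rw [pow_succ, pow_succ]; noncomm_ring
    rw [h1]
    have h2 : ‖b ^ n‖ ≤ g ^ n := (norm_pow_le _ _).trans (pow_le_pow_left₀ (norm_nonneg _) hb n)
    have h3 : 0 ≤ (g + ρ) ^ n - g ^ n := (norm_nonneg _).trans ih
    calc ‖(a ^ n - b ^ n) * a + b ^ n * (a - b)‖
        ≤ ‖a ^ n - b ^ n‖ * ‖a‖ + ‖b ^ n‖ * ‖a - b‖ :=
          (norm_add_le _ _).trans (add_le_add (norm_mul_le _ _) (norm_mul_le _ _))
      _ ≤ ((g + ρ) ^ n - g ^ n) * (g + ρ) + g ^ n * ρ :=
          add_le_add (mul_le_mul ih ha (norm_nonneg _) h3) (mul_le_mul h2 hab (norm_nonneg _) (by positivity))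
      _ = (g + ρ) ^ (n + 1) - g ^ (n + 1) := by ring

end Norm

end Pool.Agent.PEPS953
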