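import Pool.Agent.PEPS953.Recode
import Pool.Agent.PEPS953.Words

/-!
# Local operators as site products
-/

open Finset

set_option autoImplicit false
set_option linter.unusedSectionVars false

namespace Pool.Agent.PEPS953

variable {d L : ℕ} [NeZero L]

/-- The tensor product of one-site matrices. -/
def siteOp (M : Site L → Matrix (Fin d) (Fin d) ℂ) : Matrix (Conf d L) (Conf d L) ℂ :=
  fun s s' => ∏ u, M u (s u) (s' u)

lemma siteOp_mul (M M' : Site L → Matrix (Fin d) (Fin d) ℂ) :
    siteOp M * siteOp M' = siteOp (fun u => M u * M' u) := by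
  ext s s'
  simp only [siteOp, Matrix.mul_apply]
  have h := Finset.prod_univ_sum (fun _ : Site L => (univ : Finset (Fin d)))
    (fun u x => M u (s u) x * M' u x (s' u))
  rw [Fintype.piFinset_univ] at h
  rw [h]
  exact Finset.sum_congr rfl fun x _ => Finset.prod_mul_distrib.symm

lemma siteOp_one : siteOp (fun _ : Site L => (1 : Matrix (Fin d) (Fin d) ℂ)) = 1 := by
  ext s s'
  simp only [siteOp, Matrix.one_apply]
  by_cases h : s = s'
  · simp [h]
  · rw [if_neg h]
    obtain ⟨u, hu⟩ := Function.ne_iff.mp h
    exact Finset.prod_eq_zero (Finset.mem_univ u) (by simp [hu])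

lemma siteOp_list_prod (m : ℕ) (M : Fin m → Site L → Matrix (Fin d) (Fin d) ℂ) :
    (List.ofFn fun i => siteOp (M i)).prod = siteOp (fun u => (List.ofFn fun i => M i u).prod) := by
  induction m with
  | zero => simpa using siteOp_one.symm
  | succ m ih =>
    rw [List.ofFn_succ, List.prod_cons, ih (fun i => M i.succ), siteOp_mul]
    congr 1
    funext u
    rw [List.ofFn_succ, List.prod_cons]

variable {r : ℕ}

open scoped Classical in
/-- The one-site factor at `u` of the matrix unit `|a⟩⟨b|` on the box at `v`. -/
noncomputable def fac (v : Site L) (a b : LConf d r) (u : Site L) : Matrix (Fin d) (Fin d) ℂ :=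
  if h : ∃ p, boxPos L r v p = u then Matrix.single (a h.choose) (b h.choose) 1 else 1

lemma boxPos_injective (hrL : r ≤ L) (v : Site L) : Function.Injective (boxPos L r v) := by
  have key : ∀ i j : Fin r, ((i : ℕ) : ZMod L) = ((j : ℕ) : ZMod L) → i = j := by
    intro i j h
    rw [ZMod.natCast_eq_natCast_iff'] at h
    rw [Nat.mod_eq_of_lt (by omega), Nat.mod_eq_of_lt (by omega)] at h
    exact Fin.ext h
  rintro ⟨i, j⟩ ⟨i', j'⟩ h
  simp only [boxPos, Prod.mk.injEq, add_right_inj] at h
  exact Prod.ext (key _ _ h.1) (key _ _ h.2)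

lemma fac_pos (hrL : r ≤ L) (v : Site L) (a b : LConf d r) (p : Box r) :
    fac v a b (boxPos L r v p) = Matrix.single (a p) (b p) 1 := by
  unfold fac
  have h : ∃ p', boxPos L r v p' = boxPos L r v p := ⟨p, rfl⟩
  rw [dif_pos h]
  have : h.choose = p := boxPos_injective hrL v h.choose_spec
  rw [this]

lemma fac_neg (v : Site L) (a b : LConf d r) (u : Site L) (h : ¬ ∃ p, boxPos L r v p = u) :
    fac v a b u = 1 := by
  unfold fac
  rw [dif_neg h]

lemma translate_single (hrL : r ≤ L) (v : Site L) (a b : LConf d r) :
    translate L (Matrix.single a b 1) v = siteOp (fac v a b) := by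
  classical
  ext s s'
  unfold translate siteOp
  by_cases h1 : ∀ u, u ∉ Set.range (boxPos L r v) → s u = s' u
  · rw [if_pos h1]
    by_cases h2 : a = (fun p => s (boxPos L r v p)) ∧ b = (fun p => s' (boxPos L r v p))
    · obtain ⟨ha, hb⟩ := h2
      rw [← ha, ← hb, Matrix.single_apply_same]
      symm
      refine Finset.prod_eq_one fun u _ => ?_
      by_cases hu : ∃ p, boxPos L r v p = u
      · obtain ⟨p, rfl⟩ := hu
        rw [fac_pos hrL, ha, hb, Matrix.single_apply_same]
      · rw [fac_neg _ _ _ _ hu, h1 u hu, Matrix.one_apply_eq]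
    · rw [Matrix.single_apply_of_ne _ _ _ _ _ h2]
      symm
      have h3 : ∃ p, ¬ (a p = s (boxPos L r v p) ∧ b p = s' (boxPos L r v p)) := by
        by_contra hcon
        push Not at hcon
        exact h2 ⟨funext fun p => (hcon p).1, funext fun p => (hcon p).2⟩
      obtain ⟨p, hp⟩ := h3
      refine Finset.prod_eq_zero (Finset.mem_univ (boxPos L r v p)) ?_
      rw [fac_pos hrL, Matrix.single_apply_of_ne _ _ _ _ _ hp]
  · rw [if_neg h1]
    push Not at h1
    obtain ⟨u, hu, hne⟩ := h1
    symm
    refine Finset.prod_eq_zero (Finset.mem_univ u) ?_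
    rw [fac_neg _ _ _ _ (fun ⟨p, hp⟩ => hu ⟨p, hp⟩), Matrix.one_apply_ne hne]

lemma translate_add (o o' : Matrix (LConf d r) (LConf d r) ℂ) (v : Site L) :
    translate L (o + o') v = translate L o v + translate L o' v := by
  classical
  ext s s'
  simp only [translate, Matrix.add_apply]
  split_ifs <;> simp

lemma translate_smul (c : ℂ) (o : Matrix (LConf d r) (LConf d r) ℂ) (v : Site L) :
    translate L (c • o) v = c • translate L o v := by
  classical
  ext s s'
  simp only [translate, Matrix.smul_apply]
  split_ifs <;> simp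

lemma translate_zero (v : Site L) :
    translate L (0 : Matrix (LConf d r) (LConf d r) ℂ) v = 0 := by
  ext s s'
  simp [translate]

lemma translate_sum {ι : Type*} (S : Finset ι) (o : ι → Matrix (LConf d r) (LConf d r) ℂ)
    (v : Site L) : translate L (∑ i ∈ S, o i) v = ∑ i ∈ S, translate L (o i) v := by
  classical
  induction S using Finset.induction with
  | empty => simp [translate_zero]
  | insert i S hi ih => rw [Finset.sum_insert hi, Finset.sum_insert hi, translate_add, ih]

/-- The matrix unit `|a⟩⟨b|` on the box at `v`, as an operator. -/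
noncomputable def elem (v : Site L) (a b : LConf d r) : Hil d L →L[ℂ] Hil d L :=
  locOp L (Matrix.single a b 1) v

lemma locOp_eq_sum (o : Matrix (LConf d r) (LConf d r) ℂ) (v : Site L) :
    locOp L o v = ∑ p : LConf d r × LConf d r, o p.1 p.2 • elem v p.1 p.2 := by
  have h1 : o = ∑ p : LConf d r × LConf d r, o p.1 p.2 • Matrix.single p.1 p.2 (1 : ℂ) := by
    conv_lhs => rw [Matrix.matrix_eq_sum_single o]
    rw [Fintype.sum_prod_type]
    refine Finset.sum_congr rfl fun i _ => Finset.sum_congr rfl fun j _ => ?_
    rw [Matrix.smul_single, smul_eq_mul, mul_one]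
  unfold locOp elem locOp
  conv_lhs => rw [h1]
  rw [translate_sum, map_sum]
  refine Finset.sum_congr rfl fun p _ => ?_
  rw [translate_smul, map_smul]

open scoped Classical in
/-- The configuration `s` with the box at `v` overwritten by `b`. -/
noncomputable def ow (v : Site L) (b : LConf d r) (s : Conf d L) : Conf d L :=
  fun u => if h : ∃ p, boxPos L r v p = u then b h.choose else s u

lemma ow_pos (hrL : r ≤ L) (v : Site L) (b : LConf d r) (s : Conf d L) (p : Box r) :
    ow v b s (boxPos L r v p) = b p := by
  unfold ow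
  have h : ∃ p', boxPos L r v p' = boxPos L r v p := ⟨p, rfl⟩
  rw [dif_pos h]
  have : h.choose = p := boxPos_injective hrL v h.choose_spec
  rw [this]

lemma ow_neg (v : Site L) (b : LConf d r) (s : Conf d L) (u : Site L)
    (h : ¬ ∃ p, boxPos L r v p = u) : ow v b s u = s u := by
  unfold ow
  rw [dif_neg h]

lemma elem_apply (hrL : r ≤ L) (v : Site L) (a b : LConf d r) (ψ : Hil d L) (s : Conf d L) :
    (elem v a b ψ) s = if (fun p => s (boxPos L r v p)) = a then ψ (ow v b s) else 0 := by
  classical
  have h0 : (elem v a b ψ) s = ∑ s', translate L (Matrix.single a b 1) v s s' * ψ s' := rfl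
  rw [h0]
  by_cases ha : (fun p => s (boxPos L r v p)) = a
  · rw [if_pos ha, Finset.sum_eq_single (ow v b s)]
    · have h1 : translate L (Matrix.single a b 1) v s (ow v b s) = 1 := by
        unfold translate
        rw [if_pos]
        · have h2 : (fun p => ow v b s (boxPos L r v p)) = b := funext fun p => ow_pos hrL v b s p
          rw [ha, h2, Matrix.single_apply_same]
        · intro u hu
          rw [ow_neg v b s u (fun ⟨p, hp⟩ => hu ⟨p, hp⟩)]
      rw [h1, one_mul]
    · intro s' _ hs'
      have h1 : translate L (Matrix.single a b 1) v s s' = 0 := by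
        unfold translate
        split_ifs with h2
        · refine Matrix.single_apply_of_ne _ _ _ _ _ ?_
          rintro ⟨_, hb⟩
          apply hs'
          funext u
          by_cases hu : ∃ p, boxPos L r v p = u
          · obtain ⟨p, rfl⟩ := hu
            rw [ow_pos hrL, hb]
          · rw [ow_neg v b s u hu]
            exact (h2 u (fun ⟨p, hp⟩ => hu ⟨p, hp⟩)).symm
        · rfl
      rw [h1, zero_mul]
    · intro h; exact absurd (Finset.mem_univ _) h
  · rw [if_neg ha]
    refine Finset.sum_eq_zero fun s' _ => ?_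
    have h1 : translate L (Matrix.single a b 1) v s s' = 0 := by
      unfold translate
      split_ifs with h2
      · refine Matrix.single_apply_of_ne _ _ _ _ _ ?_
        rintro ⟨ha', _⟩
        exact ha ha'.symm
      · rfl
    rw [h1, zero_mul]

lemma norm_elem_le (hrL : r ≤ L) (v : Site L) (a b : LConf d r) : ‖elem (d := d) v a b‖ ≤ 1 := by
  classical
  refine ContinuousLinearMap.opNorm_le_bound _ zero_le_one fun ψ => ?_
  rw [one_mul]
  refine le_of_sq_le_sq ?_ (norm_nonneg _)
  rw [EuclideanSpace.norm_sq_eq, EuclideanSpace.norm_sq_eq]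
  simp_rw [elem_apply hrL]
  have h1 : ∑ s : Conf d L, ‖(if (fun p => s (boxPos L r v p)) = a then ψ (ow v b s) else 0)‖ ^ 2 =
      ∑ s ∈ univ.filter (fun s : Conf d L => (fun p => s (boxPos L r v p)) = a),
        ‖ψ (ow v b s)‖ ^ 2 := by
    rw [Finset.sum_filter]
    refine Finset.sum_congr rfl fun s _ => ?_
    split_ifs <;> simp
  rw [h1]
  have hinj : Set.InjOn (ow v b)
      (univ.filter (fun s : Conf d L => (fun p => s (boxPos L r v p)) = a) : Finset (Conf d L)) := by
    intro s hs s' hs' h
    simp only [Finset.coe_filter, Finset.mem_univ, true_and, Set.mem_setOf_eq] at hs hs'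
    funext u
    by_cases hu : ∃ p, boxPos L r v p = u
    · obtain ⟨p, rfl⟩ := hu
      exact (congrFun hs p).trans (congrFun hs' p).symm
    · have := congrFun h u
      rwa [ow_neg v b s u hu, ow_neg v b s' u hu] at this
  rw [← Finset.sum_image (f := fun s => ‖ψ s‖ ^ 2) hinj]
  exact Finset.sum_le_sum_of_subset_of_nonneg (Finset.subset_univ _) fun _ _ _ => by positivity

end Pool.Agent.PEPS953
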