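import Pool.Agent.PEPS953.Tfae

/-!
# Mixed-state criterion
-/

open Finset
open scoped InnerProductSpace

set_option autoImplicit false
set_option linter.unusedSectionVars false

namespace Pool.Agent.PEPS953

variable {d L : ℕ} [NeZero L]

/-- `R` is a PEPO of bond dimension `D`: a PEPS with two physical indices per site. -/
def IsPEPO (D : ℕ) (R : Matrix (Conf d L) (Conf d L) ℂ) : Prop :=
  ∃ A : Site L → Fin d → Fin d → Fin D → Fin D → Fin D → Fin D → ℂ,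
    ∀ s s' : Conf d L, R s s' = ∑ a : Site L → Fin D, ∑ b : Site L → Fin D,
      ∏ u : Site L, A u (s u) (s' u) (a u) (b u) (a (u.1 - 1, u.2)) (b (u.1, u.2 - 1))

/-- A column of a PEPO is a PEPS. -/
lemma IsPEPO.col {D : ℕ} {R : Matrix (Conf d L) (Conf d L) ℂ} (h : IsPEPO D R) (s' : Conf d L) :
    IsPEPS D (WithLp.toLp 2 (fun s => R s s') : Hil d L) := by
  obtain ⟨A, hA⟩ := h
  exact ⟨fun u σ => A u σ (s' u), fun s => hA s s'⟩

/-- The rank one operator `|Φ⟩⟨Φ|` of a PEPS. -/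
lemma IsPEPS.outer {D : ℕ} {Φ : Hil d L} (h : IsPEPS D Φ) :
    IsPEPO (D * D) (fun s s' => Φ s * (starRingEnd ℂ) (Φ s')) := by
  classical
  obtain ⟨A, hA⟩ := h
  set e := (finProdFinEquiv (m := D) (n := D)).symm with he
  refine ⟨fun u σ σ' a b a' b' => A u σ (e a).1 (e b).1 (e a').1 (e b').1 *
    (starRingEnd ℂ) (A u σ' (e a).2 (e b).2 (e a').2 (e b').2), fun s s' => ?_⟩
  change Φ s * (starRingEnd ℂ) (Φ s') = _
  rw [hA, hA]
  set f := (Equiv.arrowProdEquivProdArrow (Site L) (fun _ => Fin D) (fun _ => Fin D)).symm.trans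
    (Equiv.arrowCongr (Equiv.refl (Site L)) e.symm) with hf
  have hf1 : ∀ (x : (Site L → Fin D) × (Site L → Fin D)) (u : Site L), e (f x u) = (x.1 u, x.2 u) := by
    intro x u
    simp [hf]
  rw [← f.sum_comp]
  simp_rw [← f.sum_comp (fun b => ∏ u : Site L, _)]
  simp only [hf1]
  rw [Fintype.sum_prod_type]
  simp_rw [Fintype.sum_prod_type]
  rw [map_sum, Finset.sum_mul_sum]
  refine Finset.sum_congr rfl fun a _ => Finset.sum_congr rfl fun a' _ => ?_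
  rw [map_sum, Finset.sum_mul_sum]
  refine Finset.sum_congr rfl fun b _ => Finset.sum_congr rfl fun b' _ => ?_
  rw [map_prod, ← Finset.prod_mul_distrib]

section

open scoped ComplexOrder MatrixOrder Matrix.Norms.L2Operator

lemma posSemidef_entry_le {n : Type*} [Fintype n] [DecidableEq n] {R : Matrix n n ℂ}
    (hR : R.PosSemidef) (i j : n) :
    ‖R i j‖ ^ 2 ≤ (R i i).re * (R j j).re := by
  obtain ⟨B, rfl⟩ := CStarAlgebra.nonneg_iff_eq_star_mul_self.mp hR.nonneg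
  have h1 : ∀ i j, (star B * B) i j =
      ⟪(WithLp.toLp 2 (fun k => B k i) : EuclideanSpace ℂ n), WithLp.toLp 2 (fun k => B k j)⟫_ℂ := by
    intro i j
    rw [Matrix.mul_apply, EuclideanSpace.inner_eq_star_dotProduct]
    simp only [dotProduct, Matrix.star_apply]
    exact Finset.sum_congr rfl fun k _ => mul_comm _ _
  have h2 : ∀ i, ((star B * B) i i).re =
      ‖(WithLp.toLp 2 (fun k => B k i) : EuclideanSpace ℂ n)‖ ^ 2 := by
    intro i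
    rw [h1, inner_self_eq_norm_sq_to_K]
    norm_cast
  rw [h2, h2, h1, ← mul_pow]
  exact pow_le_pow_left₀ (norm_nonneg _) (norm_inner_le_norm _ _) 2

end

open scoped ComplexOrder in
/-- some quasi-polynomial PEPO density matrix has quasi-polynomially small weight on `Ψ`. -/
def QuasiMixed (Ψ : ∀ (L : ℕ) [NeZero L], Hil d L) : Prop :=
  ∃ (k : ℕ) (C : ℝ) (L₀ : ℕ), ∀ (L : ℕ) [NeZero L], L₀ ≤ L →
    ∃ (D : ℕ) (R : Matrix (Conf d L) (Conf d L) ℂ), IsPEPO D R ∧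
      (D : ℝ) ≤ Real.exp (C * (Real.log L) ^ k) ∧ R.PosSemidef ∧ R.trace = 1 ∧
      Real.exp (-(C * (Real.log L) ^ k)) ≤
        (⟪Ψ L, Matrix.toEuclideanCLM (𝕜 := ℂ) R (Ψ L)⟫_ℂ).re

open scoped ComplexOrder in
lemma exists_col {R : Matrix (Conf d L) (Conf d L) ℂ} (hR : R.PosSemidef) (htr : R.trace = 1)
    {Ψ : Hil d L} (hΨ : ‖Ψ‖ = 1) (x : ℝ) (hx : 0 < x)
    (h : x ≤ (⟪Ψ, Matrix.toEuclideanCLM (𝕜 := ℂ) R Ψ⟫_ℂ).re) :
    ∃ s' : Conf d L, (WithLp.toLp 2 (fun s => R s s') : Hil d L) ≠ 0 ∧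
      x * ‖(WithLp.toLp 2 (fun s => R s s') : Hil d L)‖ ≤
        ‖⟪Ψ, (WithLp.toLp 2 (fun s => R s s') : Hil d L)⟫_ℂ‖ := by
  set c : Conf d L → Hil d L := fun s' => WithLp.toLp 2 (fun s => R s s') with hc
  change ∃ s', c s' ≠ 0 ∧ x * ‖c s'‖ ≤ ‖⟪Ψ, c s'⟫_ℂ‖
  -- Hilbert-Schmidt norm
  have hHS : ∑ s', ‖c s'‖ ^ 2 ≤ 1 := by
    have h1 : ∀ s', ‖c s'‖ ^ 2 ≤ ∑ s, (R s s).re * (R s' s').re := by
      intro s'
      rw [EuclideanSpace.norm_sq_eq]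
      exact Finset.sum_le_sum fun s _ => posSemidef_entry_le hR s s'
    refine (Finset.sum_le_sum fun s' _ => h1 s').trans ?_
    have h2 : ∑ s, (R s s).re = 1 := by
      have := congrArg Complex.re htr
      simpa [Matrix.trace, Complex.re_sum] using this
    rw [Finset.sum_comm]
    simp_rw [← Finset.mul_sum, h2, mul_one]
    exact h2.le
  have hRΨ : ∑ s', ‖⟪Ψ, c s'⟫_ℂ‖ ^ 2 = ‖Matrix.toEuclideanCLM (𝕜 := ℂ) R Ψ‖ ^ 2 := by
    rw [EuclideanSpace.norm_sq_eq]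
    refine Finset.sum_congr rfl fun s' _ => ?_
    congr 1
    have h1 : (Matrix.toEuclideanCLM (𝕜 := ℂ) R Ψ) s' = (starRingEnd ℂ) ⟪Ψ, c s'⟫_ℂ := by
      have h2 : (Matrix.toEuclideanCLM (𝕜 := ℂ) R Ψ) s' = ∑ s, R s' s * Ψ s := rfl
      rw [h2, inner_conj_symm, EuclideanSpace.inner_eq_star_dotProduct]
      simp only [dotProduct, Pi.star_apply, hc]
      refine Finset.sum_congr rfl fun s _ => ?_
      have h3 := hR.1.apply s' s
      rw [← h3, mul_comm]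
    rw [h1, RCLike.norm_conj]
  have hxle : x ^ 2 ≤ ∑ s', ‖⟪Ψ, c s'⟫_ℂ‖ ^ 2 := by
    rw [hRΨ]
    refine pow_le_pow_left₀ hx.le (h.trans ((Complex.re_le_norm _).trans ?_)) 2
    refine (norm_inner_le_norm _ _).trans ?_
    rw [hΨ, one_mul]
  by_contra hcon
  push Not at hcon
  have h0 : ∀ s', ‖⟪Ψ, c s'⟫_ℂ‖ ^ 2 ≤ x ^ 2 * ‖c s'‖ ^ 2 := by
    intro s'
    rw [← mul_pow]
    by_cases hz : c s' = 0
    · rw [hz]; simp
    · exact pow_le_pow_left₀ (norm_nonneg _) (hcon s' hz).le 2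
  have hne : ∃ s', c s' ≠ 0 := by
    by_contra hall
    push Not at hall
    have : (0 : ℝ) < ∑ s', ‖⟪Ψ, c s'⟫_ℂ‖ ^ 2 := lt_of_lt_of_le (by positivity) hxle
    simp [hall] at this
  obtain ⟨s₀, hs₀⟩ := hne
  have hlt : ∑ s', ‖⟪Ψ, c s'⟫_ℂ‖ ^ 2 < ∑ s', x ^ 2 * ‖c s'‖ ^ 2 := by
    refine Finset.sum_lt_sum (fun s' _ => h0 s') ⟨s₀, Finset.mem_univ _, ?_⟩
    rw [← mul_pow]
    exact pow_lt_pow_left₀ (hcon s₀ hs₀) (norm_nonneg _) (by norm_num)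
  rw [← Finset.mul_sum] at hlt
  have : x ^ 2 * ∑ s', ‖c s'‖ ^ 2 ≤ x ^ 2 := mul_le_of_le_one_right (by positivity) hHS
  linarith

lemma quasiOverlap_of_quasiMixed {Ψ : ∀ (L : ℕ) [NeZero L], Hil d L}
    (hΨ : ∃ L₁ : ℕ, ∀ (L : ℕ) [NeZero L], L₁ ≤ L → ‖Ψ L‖ = 1) (H : QuasiMixed Ψ) :
    QuasiOverlap Ψ := by
  obtain ⟨L₁, hL₁⟩ := hΨ
  obtain ⟨k, C, L₀, hL₀⟩ := H
  refine ⟨k, C, max L₀ L₁, fun L _ hL => ?_⟩
  obtain ⟨D, R, h1, h2, h3, h4, h5⟩ := hL₀ L (le_trans (le_max_left _ _) hL)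
  obtain ⟨s', g1, g2⟩ := exists_col h3 h4 (hL₁ L (le_trans (le_max_right _ _) hL)) _
    (Real.exp_pos _) h5
  exact ⟨D, _, h1.col s', h2, g1, g2⟩

open scoped ComplexOrder in
lemma quasiMixed_of_quasiOverlap {Ψ : ∀ (L : ℕ) [NeZero L], Hil d L} (H : QuasiOverlap Ψ) :
    QuasiMixed Ψ := by
  obtain ⟨k, C, L₀, hL₀⟩ := H
  refine ⟨k, 2 * max C 0, max L₀ 3, fun L _ hL => ?_⟩
  obtain ⟨D, Φ, h1, h2, h3, h4⟩ := hL₀ L (le_trans (le_max_left _ _) hL)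
  have hL3 : 3 ≤ L := le_trans (le_max_right _ _) hL
  have hΦ0 : 0 < ‖Φ‖ := norm_pos_iff.mpr h3
  set Φ' : Hil d L := ((‖Φ‖⁻¹ : ℝ) : ℂ) • Φ with hΦ'
  have hΦ'1 : ‖Φ'‖ = 1 := by
    rw [hΦ', norm_smul, Complex.norm_real, norm_inv, norm_norm, inv_mul_cancel₀ hΦ0.ne']
  have hmono : C * (Real.log L) ^ k ≤ max C 0 * (Real.log L) ^ k :=
    qp_mono (le_max_right _ _) (le_max_left _ _) le_rfl hL3
  refine ⟨D * D, _, (h1.smul ((‖Φ‖⁻¹ : ℝ) : ℂ)).outer, ?_, ?_, ?_, ?_⟩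
  · push_cast
    have h5 : (D : ℝ) ≤ Real.exp (max C 0 * (Real.log L) ^ k) :=
      h2.trans (Real.exp_le_exp.mpr hmono)
    calc (D : ℝ) * D ≤ Real.exp (max C 0 * (Real.log L) ^ k) *
          Real.exp (max C 0 * (Real.log L) ^ k) :=
          mul_le_mul h5 h5 (Nat.cast_nonneg _) (Real.exp_pos _).le
      _ = Real.exp (2 * max C 0 * (Real.log L) ^ k) := by rw [← Real.exp_add]; congr 1; ring
  · exact Matrix.posSemidef_vecMulVec_self_star (fun s => Φ' s)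
  · have h6 : ∑ s, ‖Φ' s‖ ^ 2 = 1 := by
      rw [← EuclideanSpace.norm_sq_eq, hΦ'1, one_pow]
    have h7 : ∀ s, Φ' s * (starRingEnd ℂ) (Φ' s) = ((‖Φ' s‖ ^ 2 : ℝ) : ℂ) := by
      intro s
      rw [Complex.mul_conj']
      norm_cast
    change ∑ s, Φ' s * (starRingEnd ℂ) (Φ' s) = 1
    simp_rw [h7]
    rw [← Complex.ofReal_sum, h6, Complex.ofReal_one]
  · have h8 : Matrix.toEuclideanCLM (𝕜 := ℂ)
        (fun s s' => Φ' s * (starRingEnd ℂ) (Φ' s') : Matrix (Conf d L) (Conf d L) ℂ) (Ψ L) =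
        ⟪Φ', Ψ L⟫_ℂ • Φ' := by
      ext s
      have h9 : (Matrix.toEuclideanCLM (𝕜 := ℂ)
        (fun s s' => Φ' s * (starRingEnd ℂ) (Φ' s') : Matrix (Conf d L) (Conf d L) ℂ) (Ψ L)) s =
        ∑ s', Φ' s * (starRingEnd ℂ) (Φ' s') * (Ψ L) s' := rfl
      have h10 : (⟪Φ', Ψ L⟫_ℂ • Φ') s = ⟪Φ', Ψ L⟫_ℂ * Φ' s := rfl
      rw [h9, h10, EuclideanSpace.inner_eq_star_dotProduct]
      simp only [dotProduct, Pi.star_apply, Finset.sum_mul]
      refine Finset.sum_congr rfl fun s' _ => ?_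
      simp only [RCLike.star_def]
      ring
    change _ ≤ (⟪Ψ L, Matrix.toEuclideanCLM (𝕜 := ℂ)
        (fun s s' => Φ' s * (starRingEnd ℂ) (Φ' s') : Matrix (Conf d L) (Conf d L) ℂ)
          (Ψ L)⟫_ℂ).re
    rw [h8, inner_smul_right, ← inner_conj_symm Φ' (Ψ L), Complex.conj_mul', ← Complex.ofReal_pow,
      Complex.ofReal_re]
    have h11 : Real.exp (-(max C 0 * (Real.log L) ^ k)) ≤ ‖⟪Ψ L, Φ'⟫_ℂ‖ := by
      rw [hΦ', inner_smul_right, norm_mul, Complex.norm_real, norm_inv, norm_norm]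
      rw [← div_eq_inv_mul, le_div_iff₀ hΦ0]
      refine le_trans ?_ h4
      exact mul_le_mul_of_nonneg_right (Real.exp_le_exp.mpr (by linarith)) (norm_nonneg _)
    calc Real.exp (-(2 * max C 0 * (Real.log L) ^ k)) =
          Real.exp (-(max C 0 * (Real.log L) ^ k)) ^ 2 := by
          rw [← Real.exp_nat_mul]; congr 1; push_cast; ring
      _ ≤ ‖⟪Ψ L, Φ'⟫_ℂ‖ ^ 2 := pow_le_pow_left₀ (Real.exp_pos _).le h11 2

end Pool.Agent.PEPS953
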