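import Pool.Agent.PEPS953.Count

/-!
# Overlap amplification, quantitative form
-/

open Finset
open scoped InnerProductSpace

set_option autoImplicit false
set_option linter.unusedSectionVars false

namespace Pool.Agent.PEPS953

variable {d L r : ℕ} [NeZero L]

/-- One step with free parameters `n`, `k`, `δ`. -/
theorem amplify_step (hr : 0 < r) (hrL : r ≤ L) {h : Matrix (LConf d r) (LConf d r) ℂ}
    (hh : h.IsHermitian) {E Δ : ℝ} {Ψ : Hil d L} (hgs : IsGappedGS (ham L h) E Δ Ψ) (hΔ : 0 < Δ)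
    (J : ℝ) (hJ : entNorm h ≤ J) (n k : ℕ) (β : ℝ) (hβ : 0 ≤ β) (hn : 0 < n)
    (h1 : 4 * β * (L : ℝ) ^ 2 * J ≤ n) (h2 : 4 * β * Δ ≤ n)
    {D : ℕ} {Φ : Hil d L} (hΦ : IsPEPS D Φ) (hc : ⟪Ψ, Φ⟫_ℂ ≠ 0) (η : ℝ)
    (h3 : Real.exp (-(4 / 5 * (β * Δ))) +
      (Real.exp (2 * ((L : ℝ) ^ 2 * β * J) ^ 2 / n +
        (L : ℝ) ^ 2 * ((1 / 2) ^ (k + 1) * Real.exp (10 * (β * J)))) - 1) ≤ η) :
    ∃ Φ' : Hil d L, IsPEPS (D * (Fintype.card (Hist n k (LConf d r × LConf d r))) ^ (r * r)) Φ' ∧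
      ‖Φ' - Ψ‖ ≤ η * ‖Φ‖ / ‖⟪Ψ, Φ⟫_ℂ‖ := by
  have hn' : (0 : ℝ) < n := Nat.cast_pos.mpr hn
  have : Nontrivial (Hil d L) := ⟨Ψ, 0, by rw [← norm_ne_zero_iff, hgs.norm_eq]; norm_num⟩
  have hJ0 : 0 ≤ J := (entNorm_nonneg h).trans hJ
  have hL2 : (0 : ℝ) ≤ (L : ℝ) ^ 2 := by positivity
  set δ : ℝ := β / n with hδdef
  have hδ : 0 ≤ δ := by positivity
  have hδn : δ * n = β := by rw [hδdef]; field_simp
  have hN : (Fintype.card (Site L) : ℝ) = (L : ℝ) ^ 2 := by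
    rw [Fintype.card_prod, ZMod.card]; push_cast; ring
  set a : ℝ := δ * J with ha
  have ha0 : 0 ≤ a := by positivity
  have hLa : (L : ℝ) ^ 2 * a ≤ 1 / 4 := by
    rw [ha, hδdef]
    have : (L : ℝ) ^ 2 * (β / n * J) = (β * (L : ℝ) ^ 2 * J) / n := by ring
    rw [this, div_le_iff₀ hn']
    linarith
  have hδH : δ * ‖ham L h‖ ≤ 1 / 4 := by
    refine le_trans ?_ hLa
    have h4 : ‖ham L h‖ ≤ (L : ℝ) ^ 2 * J :=
      (norm_ham_le hrL h).trans (mul_le_mul_of_nonneg_left hJ hL2)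
    calc δ * ‖ham L h‖ ≤ δ * ((L : ℝ) ^ 2 * J) := mul_le_mul_of_nonneg_left h4 hδ
      _ = (L : ℝ) ^ 2 * a := by rw [ha]; ring
  have hδΔ : δ * Δ ≤ 1 / 4 := by
    rw [hδdef, div_mul_eq_mul_div, div_le_iff₀ hn']; linarith
  set g : ℝ := 1 - δ * E with hg
  have hE := abs_le.mp hgs.abs_E_le
  have hE1 : δ * E ≤ 1 / 4 := (mul_le_mul_of_nonneg_left hE.2 hδ).trans hδH
  have hE2 : -(1 / 4) ≤ δ * E := by
    have := mul_le_mul_of_nonneg_left hE.1 hδ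
    rw [mul_neg] at this
    linarith
  have hg1 : 3 / 4 ≤ g := by rw [hg]; linarith
  have hg2 : g ≤ 5 / 4 := by rw [hg]; linarith
  have hg0 : 0 < g := by linarith
  -- the letters
  set y := letter (L := L) h δ with hy
  set G : Hil d L →L[ℂ] Hil d L := 1 - (δ : ℂ) • ham L h with hG
  have hsum : (1 : Hil d L →L[ℂ] Hil d L) + ∑ τ, ∑ p, y τ (some p) = G := by
    have h5 : ∀ τ, ∑ p, y τ (some p) = (-(δ : ℂ)) • locOp L h (enum L τ) := by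
      intro τ
      rw [locOp_eq_sum, Finset.smul_sum]
      refine Finset.sum_congr rfl fun p _ => ?_
      rw [smul_smul]
      rfl
    simp_rw [h5]
    rw [← Finset.smul_sum, (enum L).sum_comp (fun v => locOp L h v)]
    rw [hG]
    unfold ham
    rw [neg_smul, sub_eq_add_neg]
  have htr := norm_ktr_sub_pow_le (n := n) k y (fun τ => rfl)
    (fun p => δ * ‖h p.1 p.2‖) (fun p => by positivity)
    (fun τ p => by
      change ‖(-(δ : ℂ) * h p.1 p.2) • elem (enum L τ) p.1 p.2‖ ≤ δ * ‖h p.1 p.2‖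
      rw [norm_smul, norm_mul, norm_neg, Complex.norm_real, Real.norm_eq_abs, abs_of_nonneg hδ]
      exact mul_le_of_le_one_right (by positivity) (norm_elem_le hrL _ _ _))
    a g (by
      rw [← Finset.mul_sum, ha]
      exact mul_le_mul_of_nonneg_left hJ hδ)
    (by rw [hN]; linarith) (by linarith)
    (by
      rw [hsum]
      exact hgs.norm_one_sub_le (ham_isSymmetric hh) hΔ.le δ hδ hδH)
  rw [hsum, hN] at htr
  have hpow := hgs.norm_pow_sub_le (ham_isSymmetric hh) hΔ δ hδ hδH hδΔ n Φ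
  rw [← hg, ← hG] at hpow
  set c := ⟪Ψ, Φ⟫_ℂ with hcdef
  have hcpos : 0 < ‖c‖ := norm_pos_iff.mpr hc
  -- decay
  have hdecay : (g - δ * Δ) ^ n ≤ g ^ n * Real.exp (-(4 / 5 * (β * Δ))) := by
    have h5 : g - δ * Δ ≤ g * Real.exp (-(4 / 5 * (δ * Δ))) := by
      have h6 := Real.add_one_le_exp (-(4 / 5 * (δ * Δ)))
      have h7 : 0 ≤ δ * Δ := by positivity
      nlinarith
    calc (g - δ * Δ) ^ n ≤ (g * Real.exp (-(4 / 5 * (δ * Δ)))) ^ n :=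
          pow_le_pow_left₀ (by linarith) h5 n
      _ = g ^ n * Real.exp (-(4 / 5 * (β * Δ))) := by
          rw [mul_pow, ← Real.exp_nat_mul]
          congr 2
          rw [← hδn]; ring
  have hexp1 : 2 * (n : ℝ) * ((L : ℝ) ^ 2 * a) ^ 2 = 2 * ((L : ℝ) ^ 2 * β * J) ^ 2 / n := by
    rw [ha, hδdef]; field_simp
  have hexp2 : a * n = β * J := by rw [ha, ← hδn]; ring
  rw [hexp1, hexp2] at htr
  -- the new vector
  set K := ktr n k y with hK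
  have hmain : ‖K Φ - (g : ℂ) ^ n • (c • Ψ)‖ ≤ g ^ n * η * ‖Φ‖ := by
    have e1 : K Φ - (g : ℂ) ^ n • (c • Ψ) = (K - G ^ n) Φ + ((G ^ n) Φ - (g : ℂ) ^ n • (c • Ψ)) := by
      rw [_root_.sub_apply]; abel
    rw [e1]
    refine (norm_add_le _ _).trans ?_
    have e2 := ((K - G ^ n).le_opNorm Φ).trans (mul_le_mul_of_nonneg_right htr (norm_nonneg Φ))
    have e3 := hpow.trans (mul_le_mul_of_nonneg_right hdecay (norm_nonneg Φ))
    refine (add_le_add e2 e3).trans ?_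
    have e4 := mul_le_mul_of_nonneg_left h3 (by positivity : 0 ≤ g ^ n * ‖Φ‖)
    refine le_trans (le_of_eq ?_) (e4.trans (le_of_eq ?_)) <;> ring
  have hz : ((g : ℂ) ^ n * c) ≠ 0 :=
    mul_ne_zero (pow_ne_zero _ (by exact_mod_cast hg0.ne')) hc
  refine ⟨((g : ℂ) ^ n * c)⁻¹ • K Φ, ?_, ?_⟩
  · have h8 := ((isPEPSL_ktr (n := n) (k := k) hr hrL h δ hΦ).isPEPS).smul ((g : ℂ) ^ n * c)⁻¹
    convert h8 using 1
    rw [Fintype.card_prod, Fintype.card_fin, Fintype.card_fun, Fintype.card_prod, Fintype.card_fin]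
  · have e1 : ((g : ℂ) ^ n * c)⁻¹ • K Φ - Ψ =
        ((g : ℂ) ^ n * c)⁻¹ • (K Φ - (g : ℂ) ^ n • (c • Ψ)) := by
      rw [smul_sub, smul_smul ((g : ℂ) ^ n), inv_smul_smul₀ hz]
    rw [e1, norm_smul, norm_inv, norm_mul, norm_pow, Complex.norm_real, Real.norm_eq_abs,
      abs_of_pos hg0]
    have hgn : 0 < g ^ n := by positivity
    calc (g ^ n * ‖c‖)⁻¹ * ‖K Φ - (g : ℂ) ^ n • (c • Ψ)‖
        ≤ (g ^ n * ‖c‖)⁻¹ * (g ^ n * η * ‖Φ‖) := mul_le_mul_of_nonneg_left hmain (by positivity)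
      _ = η * ‖Φ‖ / ‖c‖ := by field_simp

lemma param_err (L X l J Δ β : ℝ) (n k : ℕ) (hL2 : 2 ≤ L) (hLX : L ≤ X) (hexpl : Real.exp l = X)
    (hl0 : 0 < l) (hJ1 : 1 ≤ J) (hΔ : 0 < Δ) (hβ : β = 2 * l / Δ) (hn0 : (0 : ℝ) < n)
    (hn : 16 * (L ^ 2 * β * J) ^ 2 * X ≤ n) (hk : (10 + 40 * J / Δ) * l ≤ k) :
    Real.exp (-(4 / 5 * (β * Δ))) + (Real.exp (2 * (L ^ 2 * β * J) ^ 2 / n +
        L ^ 2 * ((1 / 2) ^ (k + 1) * Real.exp (10 * (β * J)))) - 1) ≤ 2 * (1 / X) := by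
  have hX2 : 2 ≤ X := hL2.trans hLX
  have hX0 : 0 < X := by linarith
  have hβΔ : β * Δ = 2 * l := by rw [hβ]; field_simp
  have hβ0 : 0 < β := by rw [hβ]; positivity
  have e1 : Real.exp (-(4 / 5 * (β * Δ))) ≤ 1 / X := by
    rw [hβΔ, one_div, ← hexpl, ← Real.exp_neg]
    exact Real.exp_le_exp.mpr (by linarith)
  have e2 : 2 * (L ^ 2 * β * J) ^ 2 / n ≤ 1 / X / 8 := by
    rw [div_div, div_le_div_iff₀ hn0 (by positivity)]
    linarith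
  have e3 : L ^ 2 * ((1 / 2) ^ (k + 1) * Real.exp (10 * (β * J))) ≤ 1 / X / 4 := by
    have f1 : ((1 : ℝ) / 2) ^ (k + 1) ≤ Real.exp (-((10 + 40 * J / Δ) * l / 2)) := by
      have f2 : (1 : ℝ) / 2 ≤ Real.exp (-(1 / 2)) := by
        rw [Real.exp_neg, one_div]
        refine inv_anti₀ (Real.exp_pos _) ?_
        have h4 := Real.abs_exp_sub_one_sub_id_le (x := 1 / 2) (by norm_num [abs_of_pos])
        have h5 := (abs_le.mp h4).2
        linarith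
      calc ((1 : ℝ) / 2) ^ (k + 1) ≤ Real.exp (-(1 / 2)) ^ (k + 1) :=
            pow_le_pow_left₀ (by norm_num) f2 _
        _ = Real.exp (-(((k : ℝ) + 1) / 2)) := by
            rw [← Real.exp_nat_mul]; congr 1; push_cast; ring
        _ ≤ _ := Real.exp_le_exp.mpr (by linarith)
    have f3 : L ^ 2 ≤ Real.exp (2 * l) := by
      rw [two_mul, Real.exp_add, hexpl, pow_two]
      exact mul_le_mul hLX hLX (by linarith) hX0.le
    have f4 : β * J = 2 * J / Δ * l := by rw [hβ]; ring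
    have f5 : Real.exp (-(3 * l)) ≤ 1 / X / 4 := by
      have : Real.exp (-(3 * l)) = 1 / X / (X * X) := by
        rw [Real.exp_neg, show 3 * l = l + (l + l) by ring, Real.exp_add, Real.exp_add, hexpl]
        field_simp
      rw [this]
      refine div_le_div_of_nonneg_left (by positivity) (by norm_num) ?_
      calc (4 : ℝ) = 2 * 2 := by norm_num
        _ ≤ X * X := mul_le_mul hX2 hX2 (by norm_num) hX0.le
    refine le_trans ?_ f5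
    calc L ^ 2 * ((1 / 2) ^ (k + 1) * Real.exp (10 * (β * J)))
        ≤ Real.exp (2 * l) * (Real.exp (-((10 + 40 * J / Δ) * l / 2)) *
            Real.exp (10 * (β * J))) := by
          refine mul_le_mul f3 ?_ (by positivity) (by positivity)
          exact mul_le_mul_of_nonneg_right f1 (Real.exp_pos _).le
      _ = Real.exp (-(3 * l)) := by
          rw [← Real.exp_add, ← Real.exp_add, f4]; congr 1; ring
  set x := 2 * (L ^ 2 * β * J) ^ 2 / n +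
    L ^ 2 * ((1 / 2) ^ (k + 1) * Real.exp (10 * (β * J))) with hx
  have hx0 : 0 ≤ x := by positivity
  have hx1 : x ≤ 3 / 8 * (1 / X) := by rw [hx]; linarith
  have hX3 : 1 / X ≤ 1 / 2 := one_div_le_one_div_of_le (by norm_num) hX2
  have hx2 : x ≤ 1 := by linarith
  have e4 := Real.abs_exp_sub_one_sub_id_le (x := x) (by rw [abs_of_nonneg hx0]; exact hx2)
  have e5 := (abs_le.mp e4).2
  have e6 : x ^ 2 ≤ x := by
    rw [pow_two]; exact mul_le_of_le_one_right hx0 hx2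
  linarith

lemma param_n (L X l J Δ β q : ℝ) (n : ℕ) (hL2 : 2 ≤ L) (hLX : L ≤ X) (hexpl : Real.exp l = X)
    (hl1 : 1 / 2 ≤ l) (hlX : l ≤ X) (hJ1 : 1 ≤ J) (hΔ : 0 < Δ) (hβ : β = 2 * l / Δ) (hq0 : 0 ≤ q)
    (hn : (n : ℝ) ≤ 16 * (L ^ 2 * β * J) ^ 2 * X + 4 * β * L ^ 2 * J + 4 * β * Δ + 2) :
    1 + n * q ≤ Real.exp ((2 * Real.log (1 + (64 * J ^ 2 / Δ ^ 2 + 8 * J / Δ + 10) * q) + 7) * l) := by
  have hX2 : 2 ≤ X := hL2.trans hLX
  have hX0 : 0 < X := by linarith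
  have hX1' : 1 ≤ X := by linarith
  have hl0 : 0 < l := by linarith
  have hβ0 : 0 < β := by rw [hβ]; positivity
  have hβΔ : β * Δ = 2 * l := by rw [hβ]; field_simp
  set C1 : ℝ := 64 * J ^ 2 / Δ ^ 2 + 8 * J / Δ + 10 with hC1
  have hC10 : 0 ≤ C1 := by positivity
  have hlog0 : 0 ≤ Real.log (1 + C1 * q) :=
    Real.log_nonneg (by have := mul_nonneg hC10 hq0; linarith)
  have g2 : (n : ℝ) ≤ C1 * X ^ 7 := by
    have a1 : L ^ 2 ≤ X ^ 2 := pow_le_pow_left₀ (by positivity) hLX 2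
    have a2 : β ≤ 2 / Δ * X := by
      rw [hβ, mul_div_assoc, mul_comm (2 : ℝ) (l / Δ), div_mul_eq_mul_div, div_mul_eq_mul_div]
      exact div_le_div_of_nonneg_right (by linarith) hΔ.le
    have a3 : L ^ 2 * β * J ≤ 2 * J / Δ * X ^ 3 := by
      calc L ^ 2 * β * J ≤ X ^ 2 * (2 / Δ * X) * J := by
            refine mul_le_mul_of_nonneg_right ?_ (by linarith)
            exact mul_le_mul a1 a2 hβ0.le (by positivity)
        _ = 2 * J / Δ * X ^ 3 := by ring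
    have a4 : (L ^ 2 * β * J) ^ 2 ≤ (2 * J / Δ * X ^ 3) ^ 2 :=
      pow_le_pow_left₀ (by positivity) a3 2
    have a5 : 16 * (L ^ 2 * β * J) ^ 2 * X ≤ 64 * J ^ 2 / Δ ^ 2 * X ^ 7 := by
      calc 16 * (L ^ 2 * β * J) ^ 2 * X ≤ 16 * (2 * J / Δ * X ^ 3) ^ 2 * X := by
            refine mul_le_mul_of_nonneg_right ?_ hX0.le
            linarith
        _ = 64 * J ^ 2 / Δ ^ 2 * X ^ 7 := by ring
    have a6 : 4 * β * L ^ 2 * J ≤ 8 * J / Δ * X ^ 7 := by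
      calc 4 * β * L ^ 2 * J = 4 * (L ^ 2 * β * J) := by ring
        _ ≤ 4 * (2 * J / Δ * X ^ 3) := by linarith
        _ = 8 * J / Δ * X ^ 3 := by ring
        _ ≤ 8 * J / Δ * X ^ 7 :=
          mul_le_mul_of_nonneg_left (pow_le_pow_right₀ hX1' (by norm_num)) (by positivity)
    have a7 : 4 * β * Δ ≤ 8 * X ^ 7 := by
      have h8 : 4 * β * Δ = 8 * l := by rw [mul_assoc, hβΔ]; ring
      rw [h8]
      have : X ≤ X ^ 7 := le_self_pow₀ hX1' (by norm_num)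
      linarith
    have a8 : 1 ≤ X ^ 7 := one_le_pow₀ hX1'
    calc (n : ℝ) ≤ 64 * J ^ 2 / Δ ^ 2 * X ^ 7 + 8 * J / Δ * X ^ 7 + 8 * X ^ 7 + 2 * X ^ 7 := by
          linarith
      _ = C1 * X ^ 7 := by rw [hC1]; ring
  have b1 : 1 + n * q ≤ (1 + C1 * q) * X ^ 7 := by
    have a8 : 1 ≤ X ^ 7 := one_le_pow₀ (by linarith)
    have := mul_le_mul_of_nonneg_right g2 hq0
    calc 1 + n * q ≤ X ^ 7 + C1 * X ^ 7 * q := by linarith
      _ = (1 + C1 * q) * X ^ 7 := by ring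
  have b2 : (1 + C1 * q) * X ^ 7 = Real.exp (Real.log (1 + C1 * q) + 7 * l) := by
    rw [Real.exp_add, Real.exp_log (by have := mul_nonneg hC10 hq0; linarith)]
    congr 1
    rw [← hexpl, ← Real.exp_nat_mul]
    norm_num
  rw [b2] at b1
  refine b1.trans (Real.exp_le_exp.mpr ?_)
  nlinarith

lemma param_card (c q K1 K2 l : ℝ) (n k m : ℕ) (hc0 : 0 ≤ c) (hq0 : 0 ≤ q) (hK1 : 0 ≤ K1)
    (hl0 : 0 < l) (g1 : c ≤ (1 + n * q) ^ k)
    (g3 : 1 + n * q ≤ Real.exp (K1 * l)) (hk2 : (k : ℝ) ≤ (K2 + 2) * l) :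
    c ^ m ≤ Real.exp (K1 * (K2 + 2) * m * l ^ 2) := by
  have hpos : 0 ≤ 1 + n * q := by positivity
  calc c ^ m ≤ ((1 + n * q) ^ k) ^ m := pow_le_pow_left₀ hc0 g1 _
    _ ≤ ((Real.exp (K1 * l)) ^ k) ^ m :=
        pow_le_pow_left₀ (by positivity) (pow_le_pow_left₀ hpos g3 k) _
    _ = Real.exp (K1 * l * k * m) := by
        rw [← Real.exp_nat_mul, ← Real.exp_nat_mul]; congr 1; ring
    _ ≤ Real.exp (K1 * (K2 + 2) * m * l ^ 2) := by
        refine Real.exp_le_exp.mpr ?_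
        have c1 : K1 * l * k ≤ K1 * l * ((K2 + 2) * l) :=
          mul_le_mul_of_nonneg_left hk2 (by positivity)
        have c2 := mul_le_mul_of_nonneg_right c1 (Nat.cast_nonneg m : (0 : ℝ) ≤ (m : ℝ))
        refine c2.trans (le_of_eq ?_)
        ring

/-- **Overlap amplification.** -/
theorem amplify {d r : ℕ} (hr : 0 < r) {h : Matrix (LConf d r) (LConf d r) ℂ}
    (hh : h.IsHermitian) {Δ : ℝ} (hΔ : 0 < Δ) :
    ∃ K : ℝ, 0 ≤ K ∧ ∀ (L : ℕ) [NeZero L], r ≤ L → 2 ≤ L → ∀ (E : ℝ) (Ψ : Hil d L),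
      IsGappedGS (ham L h) E Δ Ψ → ∀ (D : ℕ) (Φ : Hil d L), IsPEPS D Φ → Φ ≠ 0 →
      ∀ μ ε : ℝ, 0 < μ → μ ≤ 1 → 0 < ε → ε ≤ 1 → μ * ‖Φ‖ ≤ ‖⟪Ψ, Φ⟫_ℂ‖ →
      ∃ (D' : ℕ) (Φ' : Hil d L), IsPEPS D' Φ' ∧
        (D' : ℝ) ≤ D * Real.exp (K * (Real.log (L / (μ * ε))) ^ 2) ∧ ‖Φ' - Ψ‖ ≤ ε := by
  have hJ1 : 1 ≤ entNorm h + 1 := by have := entNorm_nonneg h; linarith
  have hJle : entNorm h ≤ entNorm h + 1 := by linarith
  generalize entNorm h + 1 = J at hJ1 hJle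
  have hq0 : (0 : ℝ) ≤ ((Fintype.card (LConf d r × LConf d r) : ℕ) : ℝ) := Nat.cast_nonneg _
  have hC10 : 0 ≤ 64 * J ^ 2 / Δ ^ 2 + 8 * J / Δ + 10 := by positivity
  have hlog0 : 0 ≤ Real.log (1 + (64 * J ^ 2 / Δ ^ 2 + 8 * J / Δ + 10) *
      ((Fintype.card (LConf d r × LConf d r) : ℕ) : ℝ)) :=
    Real.log_nonneg (by have := mul_nonneg hC10 hq0; linarith)
  have hK20 : 0 ≤ 10 + 40 * J / Δ := by positivity
  refine ⟨(2 * Real.log (1 + (64 * J ^ 2 / Δ ^ 2 + 8 * J / Δ + 10) *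
      ((Fintype.card (LConf d r × LConf d r) : ℕ) : ℝ)) + 7) * ((10 + 40 * J / Δ) + 2) *
      (r * r : ℕ), by positivity, ?_⟩
  intro L _ hrL hL2 E Ψ hgs D Φ hΦ hΦ0 μ ε hμ hμ1 hε hε1 hov
  have hL2' : (2 : ℝ) ≤ L := by exact_mod_cast hL2
  have hμε : 0 < μ * ε := mul_pos hμ hε
  have hμε1 : μ * ε ≤ 1 := mul_le_one₀ hμ1 hε.le hε1
  set X : ℝ := L / (μ * ε) with hX
  have hLX : (L : ℝ) ≤ X := by
    rw [hX, le_div_iff₀ hμε]
    exact mul_le_of_le_one_right (by linarith) hμε1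
  have hX2 : 2 ≤ X := hL2'.trans hLX
  have hX0 : 0 < X := by linarith
  set l : ℝ := Real.log X with hl
  have hexpl : Real.exp l = X := Real.exp_log hX0
  have hl1 : 1 / 2 ≤ l := by
    have h1 : Real.log 2 ≤ l := Real.log_le_log (by norm_num) hX2
    have h2 := Real.log_two_gt_d9
    linarith
  have hlX : l ≤ X := by
    have := Real.add_one_le_exp l
    rw [hexpl] at this
    linarith
  have hl0 : 0 < l := by linarith
  have hβ0 : 0 < 2 * l / Δ := by positivity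
  obtain ⟨β, hβ⟩ : ∃ β, β = 2 * l / Δ := ⟨_, rfl⟩
  rw [← hβ] at hβ0
  have hT0 : 0 ≤ 16 * ((L : ℝ) ^ 2 * β * J) ^ 2 * X + 4 * β * (L : ℝ) ^ 2 * J + 4 * β * Δ := by
    positivity
  obtain ⟨n, hn⟩ : ∃ n, n = ⌈16 * ((L : ℝ) ^ 2 * β * J) ^ 2 * X + 4 * β * (L : ℝ) ^ 2 * J +
    4 * β * Δ⌉₊ + 1 := ⟨_, rfl⟩
  have hnT : 16 * ((L : ℝ) ^ 2 * β * J) ^ 2 * X + 4 * β * (L : ℝ) ^ 2 * J + 4 * β * Δ ≤ n := by
    rw [hn]; push_cast
    have := Nat.le_ceil (16 * ((L : ℝ) ^ 2 * β * J) ^ 2 * X + 4 * β * (L : ℝ) ^ 2 * J + 4 * β * Δ)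
    linarith
  have hn0 : 0 < n := by rw [hn]; exact Nat.succ_pos _
  have hn0' : (0 : ℝ) < n := Nat.cast_pos.mpr hn0
  have hnT2 : (n : ℝ) ≤ 16 * ((L : ℝ) ^ 2 * β * J) ^ 2 * X + 4 * β * (L : ℝ) ^ 2 * J +
      4 * β * Δ + 2 := by
    rw [hn]; push_cast
    have := (Nat.ceil_lt_add_one hT0).le
    linarith
  obtain ⟨k, hk⟩ : ∃ k, k = ⌈(10 + 40 * J / Δ) * l⌉₊ := ⟨_, rfl⟩
  have hk1 : (10 + 40 * J / Δ) * l ≤ k := by rw [hk]; exact Nat.le_ceil _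
  have hk2 : (k : ℝ) ≤ ((10 + 40 * J / Δ) + 2) * l := by
    have := (Nat.ceil_lt_add_one (mul_nonneg hK20 hl0.le)).le
    rw [← hk] at this
    linarith
  have p1 : 0 ≤ 16 * ((L : ℝ) ^ 2 * β * J) ^ 2 * X := by positivity
  have p2 : 0 ≤ 4 * β * (L : ℝ) ^ 2 * J := by positivity
  have p3 : 0 ≤ 4 * β * Δ := by positivity
  have hc0 : ⟪Ψ, Φ⟫_ℂ ≠ 0 := by
    rw [← norm_pos_iff]
    exact lt_of_lt_of_le (mul_pos hμ (norm_pos_iff.mpr hΦ0)) hov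
  have hX1 : 2 * (1 / X) ≤ μ * ε := by
    have hinvX : μ * ε = L / X := by rw [hX]; field_simp
    rw [hinvX, mul_one_div]
    exact div_le_div_of_nonneg_right hL2' hX0.le
  have herr := (param_err L X l J Δ β n k hL2' hLX hexpl hl0 hJ1 hΔ hβ hn0' (by linarith)
    hk1).trans hX1
  obtain ⟨Φ', hΦ', hdist⟩ := amplify_step hr hrL hh hgs hΔ J hJle n k β hβ0.le hn0
    (by linarith) (by linarith) hΦ hc0 (μ * ε) herr
  refine ⟨_, Φ', hΦ', ?_, ?_⟩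
  · push_cast
    refine mul_le_mul_of_nonneg_left ?_ (Nat.cast_nonneg _)
    have g1 : (Fintype.card (Hist n k (LConf d r × LConf d r)) : ℝ) ≤
        (1 + n * ((Fintype.card (LConf d r × LConf d r) : ℕ) : ℝ)) ^ k := by
      exact_mod_cast card_hist_le n k (LConf d r × LConf d r)
    have g3 := param_n L X l J Δ β _ n hL2' hLX hexpl hl1 hlX hJ1 hΔ hβ hq0 hnT2
    have g4 := param_card _ _ _ _ l n k (r * r) (Nat.cast_nonneg _) hq0 (by linarith) hl0 g1 g3 hk2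
    push_cast at g4 ⊢
    exact g4
  · refine hdist.trans ?_
    rw [div_le_iff₀ (norm_pos_iff.mpr hc0)]
    calc μ * ε * ‖Φ‖ = ε * (μ * ‖Φ‖) := by ring
      _ ≤ ε * ‖⟪Ψ, Φ⟫_ℂ‖ := mul_le_mul_of_nonneg_left hov hε.le

end Pool.Agent.PEPS953
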