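import Mathlib

/-!
# Powers of `1 - δ H` for a gapped Hamiltonian
-/

open scoped InnerProductSpace
open Finset

set_option autoImplicit false
set_option linter.deprecated false
set_option linter.unusedSectionVars false

namespace Pool.Agent.PEPS953

variable {V : Type*} [NormedAddCommGroup V] [InnerProductSpace ℂ V]

/-- `Ψ` is the unique ground state of `H` (up to scalars), it has norm one and energy `E`, and every
other eigenvalue of `H` is at least `E + Δ`. -/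
structure IsGappedGS (H : V →L[ℂ] V) (E Δ : ℝ) (Ψ : V) : Prop where
  norm_eq : ‖Ψ‖ = 1
  eigen : H Ψ = (E : ℂ) • Ψ
  gap : ∀ (E' : ℝ) (φ : V), φ ≠ 0 → H φ = (E' : ℂ) • φ →
    (E' = E ∧ ∃ c : ℂ, φ = c • Ψ) ∨ E + Δ ≤ E'

lemma norm_le_of_diag {ι : Type*} [Fintype ι] (b : OrthonormalBasis ι ℂ V) (T : V →L[ℂ] V)
    (κ : ι → ℂ) (hT : ∀ i, T (b i) = κ i • b i) (K : ℝ) (hK0 : 0 ≤ K) (hK : ∀ i, ‖κ i‖ ≤ K) (φ : V) :
    ‖T φ‖ ≤ K * ‖φ‖ := by
  have h1 : T φ = ∑ i, (⟪b i, φ⟫_ℂ * κ i) • b i := by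
    conv_lhs => rw [← b.sum_repr' φ]
    rw [map_sum]
    refine Finset.sum_congr rfl fun i _ => ?_
    rw [map_smul, hT, smul_smul]
  have h2 : ∀ i, ⟪b i, T φ⟫_ℂ = ⟪b i, φ⟫_ℂ * κ i := by
    intro i
    rw [h1, b.orthonormal.inner_right_fintype]
  have h3 : ‖T φ‖ ^ 2 ≤ (K * ‖φ‖) ^ 2 := by
    rw [← b.sum_sq_norm_inner_right (T φ), mul_pow, ← b.sum_sq_norm_inner_right φ, Finset.mul_sum]
    refine Finset.sum_le_sum fun i _ => ?_
    rw [h2, norm_mul, mul_pow, mul_comm]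
    exact mul_le_mul_of_nonneg_right (pow_le_pow_left₀ (norm_nonneg _) (hK i) 2) (by positivity)
  exact le_of_sq_le_sq h3 (by positivity)

/-- The rank one projection on `Ψ`. -/
noncomputable def proj (Ψ : V) : V →L[ℂ] V := (innerSL ℂ Ψ).smulRight Ψ

lemma proj_apply (Ψ φ : V) : proj Ψ φ = ⟪Ψ, φ⟫_ℂ • Ψ := rfl

section

variable [FiniteDimensional ℂ V] {H : V →L[ℂ] V} {E Δ : ℝ} {Ψ : V}

lemma IsGappedGS.abs_E_le (hgs : IsGappedGS H E Δ Ψ) : |E| ≤ ‖H‖ := by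
  have h := H.le_opNorm Ψ
  rw [hgs.eigen, norm_smul, hgs.norm_eq, mul_one, mul_one] at h
  simpa using h

theorem IsGappedGS.norm_one_sub_le (hgs : IsGappedGS H E Δ Ψ) (hH : (H : V →ₗ[ℂ] V).IsSymmetric)
    (hΔ : 0 ≤ Δ) (δ : ℝ) (hδ : 0 ≤ δ) (h1 : δ * ‖H‖ ≤ 1 / 4) :
    ‖(1 : V →L[ℂ] V) - (δ : ℂ) • H‖ ≤ 1 - δ * E := by
  have hE := abs_le.mp hgs.abs_E_le
  have hE2 : δ * E ≤ 1 / 4 := (mul_le_mul_of_nonneg_left hE.2 hδ).trans h1
  refine ContinuousLinearMap.opNorm_le_bound _ (by linarith) fun φ => ?_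
  set b := hH.eigenvectorBasis rfl with hb
  set lam := hH.eigenvalues rfl with hlam
  have happ : ∀ i, H (b i) = (lam i : ℂ) • b i := fun i => hH.apply_eigenvectorBasis rfl i
  refine norm_le_of_diag b _ (fun i => ((1 - δ * lam i : ℝ) : ℂ)) ?_ _ (by linarith) ?_ φ
  · intro i
    simp only [ContinuousLinearMap.sub_apply, ContinuousLinearMap.one_apply,
      ContinuousLinearMap.smul_apply, happ, smul_smul]
    push_cast
    rw [sub_smul, one_smul]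
  · intro i
    have hbi : ‖b i‖ = 1 := b.orthonormal.1 i
    have hl : |lam i| ≤ ‖H‖ := by
      have h := H.le_opNorm (b i)
      rw [happ, norm_smul, hbi, mul_one, mul_one] at h
      simpa using h
    have hl' := abs_le.mp hl
    have h2 : δ * lam i ≤ 1 / 4 := (mul_le_mul_of_nonneg_left hl'.2 hδ).trans h1
    have h3 : E ≤ lam i := by
      rcases hgs.gap (lam i) (b i) (by rw [← norm_ne_zero_iff, hbi]; norm_num) (happ i) with h | h
      · exact h.1.ge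
      · linarith
    rw [Complex.norm_real, Real.norm_eq_abs, abs_of_nonneg (by linarith)]
    have := mul_le_mul_of_nonneg_left h3 hδ
    linarith

theorem IsGappedGS.norm_pow_sub_le (hgs : IsGappedGS H E Δ Ψ) (hH : (H : V →ₗ[ℂ] V).IsSymmetric)
    (hΔ : 0 < Δ) (δ : ℝ) (hδ : 0 ≤ δ) (h1 : δ * ‖H‖ ≤ 1 / 4) (h2 : δ * Δ ≤ 1 / 4) (n : ℕ) (φ : V) :
    ‖(((1 : V →L[ℂ] V) - (δ : ℂ) • H) ^ n) φ - ((1 - δ * E : ℝ) : ℂ) ^ n • (⟪Ψ, φ⟫_ℂ • Ψ)‖ ≤
      (1 - δ * E - δ * Δ) ^ n * ‖φ‖ := by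
  have hE := abs_le.mp hgs.abs_E_le
  have hE2 : δ * E ≤ 1 / 4 := (mul_le_mul_of_nonneg_left hE.2 hδ).trans h1
  have hrw : (((1 : V →L[ℂ] V) - (δ : ℂ) • H) ^ n) φ -
      ((1 - δ * E : ℝ) : ℂ) ^ n • (⟪Ψ, φ⟫_ℂ • Ψ) =
      ((((1 : V →L[ℂ] V) - (δ : ℂ) • H) ^ n) - ((1 - δ * E : ℝ) : ℂ) ^ n • proj Ψ) φ := rfl
  rw [hrw]
  set b := hH.eigenvectorBasis rfl with hb
  set lam := hH.eigenvalues rfl with hlam
  have happ : ∀ i, H (b i) = (lam i : ℂ) • b i := fun i => hH.apply_eigenvectorBasis rfl i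
  have hbn : ∀ i, ‖b i‖ = 1 := fun i => b.orthonormal.1 i
  have hb0 : ∀ i, b i ≠ 0 := fun i => by rw [← norm_ne_zero_iff, hbn i]; norm_num
  have hG : ∀ i (m : ℕ), (((1 : V →L[ℂ] V) - (δ : ℂ) • H) ^ m) (b i) =
      ((1 - δ * lam i : ℝ) : ℂ) ^ m • b i := by
    intro i m
    induction m with
    | zero => simp
    | succ m ih =>
      rw [pow_succ', ContinuousLinearMap.mul_apply, ih, map_smul]
      simp only [ContinuousLinearMap.sub_apply, ContinuousLinearMap.one_apply,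
        ContinuousLinearMap.smul_apply, happ, smul_smul]
      push_cast
      module
  refine norm_le_of_diag b _ (fun i => if lam i = E then 0 else ((1 - δ * lam i : ℝ) : ℂ) ^ n) ?_ _
    (by
      have : 0 ≤ 1 - δ * E - δ * Δ := by linarith
      positivity) ?_ φ
  · intro i
    rw [ContinuousLinearMap.sub_apply, hG, ContinuousLinearMap.smul_apply, proj_apply]
    rcases hgs.gap (lam i) (b i) (hb0 i) (happ i) with h | h
    · obtain ⟨hl, c, hc⟩ := h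
      rw [if_pos hl, hl, zero_smul]
      have h3 : ⟪Ψ, b i⟫_ℂ • Ψ = b i := by
        rw [hc, inner_smul_right, inner_self_eq_norm_sq_to_K, hgs.norm_eq]
        simp
      rw [h3, sub_self]
    · have hne : lam i ≠ E := by linarith
      rw [if_neg hne]
      have h3 : ⟪Ψ, b i⟫_ℂ = 0 := by
        have h4 : ⟪H Ψ, b i⟫_ℂ = ⟪Ψ, H (b i)⟫_ℂ := hH Ψ (b i)
        rw [hgs.eigen, happ, inner_smul_left, inner_smul_right] at h4
        rw [Complex.conj_ofReal] at h4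
        have h5 : ((E : ℂ) - lam i) * ⟪Ψ, b i⟫_ℂ = 0 := by rw [sub_mul, h4, sub_self]
        rcases mul_eq_zero.mp h5 with h6 | h6
        · exfalso
          apply hne
          have : (E : ℂ) = lam i := sub_eq_zero.mp h6
          exact_mod_cast this.symm
        · exact h6
      rw [h3, zero_smul, smul_zero, sub_zero]
  · intro i
    by_cases hl : lam i = E
    · rw [if_pos hl, norm_zero]
      have : 0 ≤ 1 - δ * E - δ * Δ := by linarith
      positivity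
    · rw [if_neg hl, norm_pow]
      rcases hgs.gap (lam i) (b i) (hb0 i) (happ i) with h | h
      · exact absurd h.1 hl
      · have hlH : |lam i| ≤ ‖H‖ := by
          have h := H.le_opNorm (b i)
          rw [happ, norm_smul, hbn, mul_one, mul_one] at h
          simpa using h
        have hl' := abs_le.mp hlH
        have h3 : δ * lam i ≤ 1 / 4 := (mul_le_mul_of_nonneg_left hl'.2 hδ).trans h1
        have h4 := mul_le_mul_of_nonneg_left h hδ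
        rw [Complex.norm_real, Real.norm_eq_abs, abs_of_nonneg (by linarith)]
        exact pow_le_pow_left₀ (by linarith) (by linarith) n

/-- Energy controls the overlap with the ground state. -/
theorem IsGappedGS.energy_ge (hgs : IsGappedGS H E Δ Ψ) (hH : (H : V →ₗ[ℂ] V).IsSymmetric) (φ : V) :
    E * ‖φ‖ ^ 2 + Δ * (‖φ‖ ^ 2 - ‖⟪Ψ, φ⟫_ℂ‖ ^ 2) ≤ (⟪φ, H φ⟫_ℂ).re := by
  have key : ∀ χ : V, ⟪Ψ, χ⟫_ℂ = 0 → (E + Δ) * ‖χ‖ ^ 2 ≤ (⟪χ, H χ⟫_ℂ).re := by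
    intro χ hχ
    set b := hH.eigenvectorBasis rfl with hb
    set lam := hH.eigenvalues rfl with hlam
    have happ : ∀ i, H (b i) = (lam i : ℂ) • b i := fun i => hH.apply_eigenvectorBasis rfl i
    have hbn : ∀ i, ‖b i‖ = 1 := fun i => b.orthonormal.1 i
    have hb0 : ∀ i, b i ≠ 0 := fun i => by rw [← norm_ne_zero_iff, hbn i]; norm_num
    have h1 : ⟪χ, H χ⟫_ℂ = ∑ i, ((lam i * ‖⟪b i, χ⟫_ℂ‖ ^ 2 : ℝ) : ℂ) := by
      rw [← b.sum_inner_mul_inner]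
      refine Finset.sum_congr rfl fun i _ => ?_
      have h2 : ⟪b i, H χ⟫_ℂ = (lam i : ℂ) * ⟪b i, χ⟫_ℂ := by
        have h3 : ⟪H (b i), χ⟫_ℂ = ⟪b i, H χ⟫_ℂ := hH (b i) χ
        rw [← h3, happ, inner_smul_left, Complex.conj_ofReal]
      rw [h2, ← inner_conj_symm χ (b i)]
      push_cast
      rw [← Complex.conj_mul']
      ring
    rw [h1, Complex.re_sum, ← b.sum_sq_norm_inner_right χ, Finset.mul_sum]
    refine Finset.sum_le_sum fun i _ => ?_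
    rw [Complex.ofReal_re]
    rcases hgs.gap (lam i) (b i) (hb0 i) (happ i) with h | h
    · obtain ⟨_, c, hc⟩ := h
      rw [hc, inner_smul_left, hχ]
      simp
    · exact mul_le_mul_of_nonneg_right h (by positivity)
  set c := ⟪Ψ, φ⟫_ℂ with hc
  set χ := φ - c • Ψ with hχ
  have hΨΨ : ⟪Ψ, Ψ⟫_ℂ = 1 := by rw [inner_self_eq_norm_sq_to_K, hgs.norm_eq]; simp
  have h1 : ⟪Ψ, χ⟫_ℂ = 0 := by
    rw [hχ, inner_sub_right, inner_smul_right, hΨΨ, mul_one, sub_self]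
  have h1' : ⟪χ, Ψ⟫_ℂ = 0 := inner_eq_zero_symm.mp h1
  have hφ : φ = c • Ψ + χ := by rw [hχ]; abel
  have h2 : ‖φ‖ ^ 2 = ‖c‖ ^ 2 + ‖χ‖ ^ 2 := by
    have h3 := norm_add_sq_eq_norm_sq_add_norm_sq_of_inner_eq_zero (𝕜 := ℂ) (c • Ψ) χ
      (by rw [inner_smul_left, h1, mul_zero])
    rw [← hφ, norm_smul, hgs.norm_eq, mul_one] at h3
    nlinarith [h3]
  have h4 : (⟪φ, H φ⟫_ℂ).re = E * ‖c‖ ^ 2 + (⟪χ, H χ⟫_ℂ).re := by
    have h5 : ⟪Ψ, H χ⟫_ℂ = 0 := by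
      have h6 : ⟪H Ψ, χ⟫_ℂ = ⟪Ψ, H χ⟫_ℂ := hH Ψ χ
      rw [← h6, hgs.eigen, inner_smul_left, h1, mul_zero]
    have h7 : ⟪φ, H φ⟫_ℂ = (E : ℂ) * ((‖c‖ ^ 2 : ℝ) : ℂ) + ⟪χ, H χ⟫_ℂ := by
      conv_lhs => rw [hφ]
      rw [map_add, map_smul, hgs.eigen]
      simp only [inner_add_left, inner_add_right, inner_smul_left, inner_smul_right, h1', h5, hΨΨ]
      push_cast
      rw [← Complex.conj_mul']
      ring
    rw [h7, Complex.add_re, ← Complex.ofReal_mul, Complex.ofReal_re]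
  have h8 := key χ h1
  rw [h4, h2]
  nlinarith [h8]

end

end Pool.Agent.PEPS953
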